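import Mathlib

/-!
Definitions for the discrete homotopy theory of graphs (A-homotopy theory): graph maps, the grid
graph on `ℤ^k`, quotient graphs, the `n`-suspension `Σ_n X`, the homotopy sets `A_k`, the
concatenation product on them, and the collapse map `Σ_{n+1} X → Σ_n X`.
-/

namespace Pool.Agent.Helper71.AHtpy

open SimpleGraph

universe u v w

/-- Equal or adjacent. -/
def Near {V : Type u} (G : SimpleGraph V) (a b : V) : Prop := a = b ∨ G.Adj a b

/-- A graph map: adjacent vertices go to equal or adjacent vertices. -/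
def IsGraphMap {V : Type u} {W : Type v} (G : SimpleGraph V) (H : SimpleGraph W)
    (f : V → W) : Prop :=
  ∀ a b : V, G.Adj a b → Near H (f a) (f b)

/-- The graph on `ℤ^ι` whose edges join points at `ℓ¹`-distance `1`. -/
def grid (ι : Type u) [Fintype ι] : SimpleGraph (ι → ℤ) where
  Adj x y := ∑ i, |x i - y i| = 1
  symm := ⟨fun x y h => by simpa only [abs_sub_comm] using h⟩
  loopless := ⟨fun x h => by simp at h⟩

/-- The quotient graph: classes are the vertices, two distinct classes are adjacent iff some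
representatives are. -/
def quotGraph {V : Type u} (G : SimpleGraph V) (s : Setoid V) : SimpleGraph (Quotient s) where
  Adj c d := c ≠ d ∧ ∃ a b : V, Quotient.mk s a = c ∧ Quotient.mk s b = d ∧ G.Adj a b
  symm := ⟨by
    rintro c d ⟨hne, a, b, ha, hb, hab⟩
    exact ⟨hne.symm, b, a, hb, ha, hab.symm⟩⟩
  loopless := ⟨fun c h => h.1 rfl⟩

/-- The relation on `V(X) × {0, …, n}` that identifies all `(x, 0)` and all `(x, n)`. -/
def suspSetoid (V : Type u) (n : ℕ) : Setoid (V × Fin (n + 1)) where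
  r a b := a = b ∨ (a.2 = 0 ∧ b.2 = 0) ∨ (a.2 = Fin.last n ∧ b.2 = Fin.last n)
  iseqv := by
    refine ⟨fun a => Or.inl rfl, ?_, ?_⟩
    · rintro a b (h | h | h)
      · exact Or.inl h.symm
      · exact Or.inr (Or.inl ⟨h.2, h.1⟩)
      · exact Or.inr (Or.inr ⟨h.2, h.1⟩)
    · rintro a b c (h | h | h) (h' | h' | h')
      · exact Or.inl (h.trans h')
      · exact Or.inr (Or.inl ⟨by rw [h]; exact h'.1, h'.2⟩)
      · exact Or.inr (Or.inr ⟨by rw [h]; exact h'.1, h'.2⟩)
      · exact Or.inr (Or.inl ⟨h.1, by rw [← h']; exact h.2⟩)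
      · exact Or.inr (Or.inl ⟨h.1, h'.2⟩)
      · exact Or.inr (Or.inl ⟨h.1, by rw [h'.2, ← h'.1]; exact h.2⟩)
      · exact Or.inr (Or.inr ⟨h.1, by rw [← h']; exact h.2⟩)
      · exact Or.inr (Or.inr ⟨h.1, by rw [h'.2, ← h'.1]; exact h.2⟩)
      · exact Or.inr (Or.inr ⟨h.1, h'.2⟩)

/-- The `n`-suspension `Σ_n X = (X □ I_n)/∼`; here `I_n = pathGraph (n+1)`. -/
def Susp {V : Type u} (X : SimpleGraph V) (n : ℕ) : SimpleGraph (Quotient (suspSetoid V n)) :=
  quotGraph (X □ pathGraph (n + 1)) (suspSetoid V n)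

/-- The collapse map `Σ_{n+1} X → Σ_n X`, `[x, j] ↦ [x, max (j - 1) 0]`: it collapses the levels
`0` and `1` to the pole `0`. -/
def collapse (V : Type u) (n : ℕ) :
    Quotient (suspSetoid V (n + 1)) → Quotient (suspSetoid V n) :=
  Quotient.map (fun a => (a.1, ⟨a.2.val - 1, by omega⟩)) (by
    rintro a b (h | h | h)
    · rw [h]
    · refine Or.inr (Or.inl ⟨?_, ?_⟩)
      · ext; simp [h.1]
      · ext; simp [h.2]
    · refine Or.inr (Or.inr ⟨?_, ?_⟩)
      · ext; simp [h.1]
      · ext; simp [h.2])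

/-- A finitely supported graph map `ℤ^k → G`: equal to `x₀` outside a finite box. -/
structure AMap (k : ℕ) {V : Type u} (G : SimpleGraph V) (x₀ : V) where
  /-- the underlying function -/
  toFun : (Fin k → ℤ) → V
  /-- it is a graph map -/
  isMap : IsGraphMap (grid (Fin k)) G toFun
  /-- it equals `x₀` outside a finite box -/
  bounded : ∃ N : ℕ, ∀ z : Fin k → ℤ, (∃ i, (N : ℤ) < |z i|) → toFun z = x₀

/-- The homotopy relation between finitely supported graph maps: there is a graph map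
`H : ℤ^k □ I_m → G` with ends `f` and `g`, equal to `x₀` outside `B × {0, …, m}` for one finite
box `B`. -/
def Homotopic {k : ℕ} {V : Type u} {G : SimpleGraph V} {x₀ : V} (f g : AMap k G x₀) : Prop :=
  ∃ (m : ℕ) (H : (Fin k → ℤ) × Fin (m + 1) → V),
    IsGraphMap (grid (Fin k) □ pathGraph (m + 1)) G H ∧
    (∀ z, H (z, 0) = f.toFun z) ∧ (∀ z, H (z, Fin.last m) = g.toFun z) ∧
    ∃ N : ℕ, ∀ (z : Fin k → ℤ) (t : Fin (m + 1)), (∃ i, (N : ℤ) < |z i|) → H (z, t) = x₀

end Pool.Agent.Helper71.AHtpy
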