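import Mathlib
import Pool.Agent.Helper71.SuspDefs

namespace Pool.Agent.Helper71.AHtpy

open SimpleGraph

universe u v w

variable {V : Type u} {W : Type v}

theorem Near.refl (G : SimpleGraph V) (a : V) : Near G a a := Or.inl rfl

theorem Near.symm {G : SimpleGraph V} {a b : V} (h : Near G a b) : Near G b a := by
  rcases h with h | h
  · exact Or.inl h.symm
  · exact Or.inr h.symm

theorem IsGraphMap.near {G : SimpleGraph V} {H : SimpleGraph W} {f : V → W}
    (hf : IsGraphMap G H f) {a b : V} (h : Near G a b) : Near H (f a) (f b) := by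
  rcases h with h | h
  · rw [h]; exact Near.refl _ _
  · exact hf a b h

theorem IsGraphMap.comp {U : Type w} {G : SimpleGraph V} {H : SimpleGraph W} {K : SimpleGraph U}
    {f : V → W} {g : W → U} (hg : IsGraphMap H K g) (hf : IsGraphMap G H f) :
    IsGraphMap G K (g ∘ f) := fun a b h => hg.near (hf a b h)

section grid

variable {ι : Type w} [Fintype ι]

theorem grid_adj_iff {x y : ι → ℤ} :
    (grid ι).Adj x y ↔ ∃ i, (y i = x i + 1 ∨ x i = y i + 1) ∧ ∀ j, j ≠ i → x j = y j := by
  classical
  constructor
  · intro h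
    have h : ∑ i, |x i - y i| = 1 := h
    have hex : ∃ i, x i ≠ y i := by
      by_contra hcon
      push Not at hcon
      have : ∑ i, |x i - y i| = 0 := Finset.sum_eq_zero (fun i _ => by simp [hcon i])
      omega
    obtain ⟨i, hi⟩ := hex
    have h1 : 1 ≤ |x i - y i| := Int.one_le_abs (sub_ne_zero.mpr hi)
    have hsplit := Finset.add_sum_erase Finset.univ (fun i => |x i - y i|) (Finset.mem_univ i)
    have hnn : 0 ≤ ∑ j ∈ Finset.univ.erase i, |x j - y j| :=
      Finset.sum_nonneg (fun j _ => abs_nonneg _)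
    have h0 : ∑ j ∈ Finset.univ.erase i, |x j - y j| = 0 := by omega
    have hxi : |x i - y i| = 1 := by omega
    refine ⟨i, ?_, ?_⟩
    · rcases (abs_eq (by norm_num : (0:ℤ) ≤ 1)).mp hxi with h | h <;> omega
    · intro j hj
      have := (Finset.sum_eq_zero_iff_of_nonneg (fun j _ => abs_nonneg _)).mp h0 j
        (Finset.mem_erase.mpr ⟨hj, Finset.mem_univ j⟩)
      have := abs_eq_zero.mp this
      omega
  · rintro ⟨i, hi, hj⟩
    show ∑ i, |x i - y i| = 1
    rw [Finset.sum_eq_single i]
    · rcases hi with h | h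
      · rw [h]; simp
      · rw [h]; simp
    · intro j _ hji
      rw [hj j hji]; simp
    · simp

/-- A map defined on `ℤ^ι` is a graph map as soon as it respects the edges `z, z + e_i`. -/
theorem isGraphMap_grid {G : SimpleGraph V} {f : (ι → ℤ) → V}
    (h : ∀ (x y : ι → ℤ) (i : ι), y i = x i + 1 → (∀ j, j ≠ i → x j = y j) →
      Near G (f x) (f y)) : IsGraphMap (grid ι) G f := by
  intro x y hxy
  obtain ⟨i, hi | hi, hj⟩ := grid_adj_iff.mp hxy
  · exact h x y i hi hj
  · exact (h y x i hi (fun j hji => (hj j hji).symm)).symm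

theorem near_grid_of {x y : ι → ℤ} (i : ι) (hi : |x i - y i| ≤ 1)
    (hj : ∀ j, j ≠ i → x j = y j) : Near (grid ι) x y := by
  by_cases h : x i = y i
  · left
    funext j
    by_cases hji : j = i
    · rw [hji]; exact h
    · exact hj j hji
  · right
    rw [grid_adj_iff]
    refine ⟨i, ?_, hj⟩
    rw [abs_le] at hi
    omega

/-- The `ℓ¹` Lipschitz bound. -/
theorem lipschitz_grid (u : (ι → ℤ) → ℤ)
    (hu : ∀ x y, (grid ι).Adj x y → u x ≤ u y + 1) (x y : ι → ℤ) :
    u x ≤ u y + ∑ i, |x i - y i| := by
  classical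
  obtain ⟨d, hd⟩ : ∃ d : ℕ, ∑ i, |x i - y i| = (d : ℤ) :=
    ⟨(∑ i, |x i - y i|).toNat, (Int.toNat_of_nonneg
      (Finset.sum_nonneg (fun j _ => abs_nonneg _))).symm⟩
  induction d generalizing x with
  | zero =>
    have : x = y := by
      funext i
      have := (Finset.sum_eq_zero_iff_of_nonneg (fun j _ => abs_nonneg (x j - y j))).mp
        (by simpa using hd) i (Finset.mem_univ i)
      have := abs_eq_zero.mp this
      omega
    rw [this]; simp
  | succ d ih =>
    have hex : ∃ i, x i ≠ y i := by
      by_contra hcon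
      push Not at hcon
      have : ∑ i, |x i - y i| = 0 := Finset.sum_eq_zero (fun i _ => by simp [hcon i])
      omega
    obtain ⟨i, hi⟩ := hex
    obtain ⟨c, hc1, hc2⟩ : ∃ c : ℤ, |x i - c| = 1 ∧ |x i - y i| = |c - y i| + 1 := by
      rcases lt_or_gt_of_ne hi with h | h
      · refine ⟨x i + 1, by simp, ?_⟩
        rw [abs_of_neg (by omega), abs_of_nonpos (by omega)]
        omega
      · refine ⟨x i - 1, by simp, ?_⟩
        rw [abs_of_pos (by omega), abs_of_nonneg (by omega)]
        omega
    set x' := Function.update x i c with hx'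
    have hx'i : x' i = c := by simp [hx']
    have hx'j : ∀ j, j ≠ i → x' j = x j := fun j hj => by simp [hx', hj]
    have hadj : (grid ι).Adj x x' := by
      rw [grid_adj_iff]
      refine ⟨i, ?_, fun j hj => (hx'j j hj).symm⟩
      rw [hx'i]
      rcases (abs_eq (by norm_num : (0:ℤ) ≤ 1)).mp hc1 with h | h <;> omega
    have hsum : ∑ j, |x j - y j| = ∑ j, |x' j - y j| + 1 := by
      rw [← Finset.add_sum_erase Finset.univ (fun i => |x i - y i|) (Finset.mem_univ i),
        ← Finset.add_sum_erase Finset.univ (fun i => |x' i - y i|) (Finset.mem_univ i)]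
      rw [hx'i, hc2]
      have : ∑ j ∈ Finset.univ.erase i, |x j - y j| = ∑ j ∈ Finset.univ.erase i, |x' j - y j| :=
        Finset.sum_congr rfl (fun j hj => by rw [hx'j j (Finset.ne_of_mem_erase hj)])
      rw [this]; ring
    have hd' : ∑ j, |x' j - y j| = (d : ℤ) := by push_cast at hd; omega
    have := ih x' hd'
    have := hu x x' hadj
    omega

end grid

section homotopy

variable {k : ℕ} {G : SimpleGraph V} {x₀ : V}

@[ext] theorem AMap.ext {f g : AMap k G x₀} (h : ∀ z, f.toFun z = g.toFun z) : f = g := by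
  cases f; cases g
  congr
  funext z
  exact h z

/-- One-step homotopies. -/
def Step (f g : AMap k G x₀) : Prop := ∀ z, Near G (f.toFun z) (g.toFun z)

theorem Step.symm {f g : AMap k G x₀} (h : Step f g) : Step g f := fun z => (h z).symm

theorem homotopic_of_reflTransGen {f g : AMap k G x₀}
    (h : Relation.ReflTransGen Step f g) : Homotopic f g := by
  induction h with
  | refl =>
    obtain ⟨N, hN⟩ := f.bounded
    refine ⟨0, fun p => f.toFun p.1, ?_, fun z => rfl, fun z => rfl, N, fun z t hz => hN z hz⟩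
    rintro ⟨z, s⟩ ⟨z', s'⟩ h
    rw [boxProd_adj] at h
    rcases h with ⟨h, _⟩ | ⟨_, h⟩
    · exact f.isMap _ _ h
    · simp only at h ⊢
      rw [h]; exact Near.refl _ _
  | @tail g h' _ hst ih =>
    obtain ⟨m, H, hH, h0, hm, N, hN⟩ := ih
    obtain ⟨N', hN'⟩ := h'.bounded
    have hlast : ∀ z, ∀ (t : Fin (m + 1)), t.val = m → H (z, t) = g.toFun z := by
      intro z t ht
      have : t = Fin.last m := by ext; simpa using ht
      rw [this]; exact hm z
    refine ⟨m + 1, fun p => if h : p.2.val ≤ m then H (p.1, ⟨p.2.val, by omega⟩)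
      else h'.toFun p.1, ?_, ?_, ?_, max N N', ?_⟩
    · rintro ⟨z, s⟩ ⟨z', s'⟩ hadj
      rw [boxProd_adj] at hadj
      simp only at hadj ⊢
      rcases hadj with ⟨hz, hs⟩ | ⟨hs, hz⟩
      · subst hs
        split_ifs with hsm
        · apply hH
          rw [boxProd_adj]
          exact Or.inl ⟨hz, rfl⟩
        · exact h'.isMap _ _ hz
      · subst hz
        rw [pathGraph_adj] at hs
        split_ifs with h1 h2 h2
        · apply hH
          rw [boxProd_adj]
          refine Or.inr ⟨?_, rfl⟩
          rw [pathGraph_adj]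
          exact hs
        · rw [hlast z ⟨s.val, by omega⟩ (by simp only; omega)]
          exact hst z
        · rw [hlast z ⟨s'.val, by omega⟩ (by simp only; omega)]
          exact (hst z).symm
        · exact Near.refl _ _
    · intro z
      simp only [Fin.val_zero, zero_le, ↓reduceDIte]
      exact h0 z
    · intro z
      have : ¬ ((Fin.last (m+1)).val ≤ m) := by simp
      simp only [this, ↓reduceDIte]
    · intro z t ⟨i, hi⟩
      simp only
      split_ifs with h1
      · exact hN _ _ ⟨i, lt_of_le_of_lt (by push_cast; exact le_max_left _ _) hi⟩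
      · exact hN' _ ⟨i, lt_of_le_of_lt (by push_cast; exact le_max_right _ _) hi⟩

theorem reflTransGen_of_homotopic {f g : AMap k G x₀} (h : Homotopic f g) :
    Relation.ReflTransGen Step f g := by
  obtain ⟨m, H, hH, h0, hm, N, hN⟩ := h
  let F : Fin (m + 1) → AMap k G x₀ := fun t =>
    ⟨fun z => H (z, t), fun a b hab => hH _ _ (by rw [boxProd_adj]; exact Or.inl ⟨hab, rfl⟩),
      N, fun z hz => hN z t hz⟩
  have key : ∀ t : ℕ, ∀ ht : t < m + 1, Relation.ReflTransGen Step (F 0) (F ⟨t, ht⟩) := by
    intro t
    induction t with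
    | zero => intro ht; exact Relation.ReflTransGen.refl
    | succ t ih =>
      intro ht
      refine (ih (by omega)).tail ?_
      intro z
      apply hH
      rw [boxProd_adj]
      refine Or.inr ⟨?_, rfl⟩
      rw [pathGraph_adj]
      left; simp
  have hf : F 0 = f := AMap.ext h0
  have hg : F ⟨m, by omega⟩ = g := AMap.ext hm
  rw [← hf, ← hg]
  exact key m (by omega)

theorem homotopic_iff {f g : AMap k G x₀} :
    Homotopic f g ↔ Relation.ReflTransGen Step f g :=
  ⟨reflTransGen_of_homotopic, homotopic_of_reflTransGen⟩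

theorem Step.homotopic {f g : AMap k G x₀} (h : Step f g) : Homotopic f g :=
  homotopic_iff.mpr (Relation.ReflTransGen.single h)

theorem Homotopic.refl (f : AMap k G x₀) : Homotopic f f :=
  homotopic_iff.mpr Relation.ReflTransGen.refl

theorem Homotopic.trans {f g h : AMap k G x₀} (h₁ : Homotopic f g) (h₂ : Homotopic g h) :
    Homotopic f h :=
  homotopic_iff.mpr ((homotopic_iff.mp h₁).trans (homotopic_iff.mp h₂))

theorem Homotopic.symm {f g : AMap k G x₀} (h : Homotopic f g) : Homotopic g f := by
  rw [homotopic_iff] at h ⊢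
  induction h with
  | refl => exact Relation.ReflTransGen.refl
  | tail _ hst ih => exact (Relation.ReflTransGen.single hst.symm).trans ih

end homotopy

end Pool.Agent.Helper71.AHtpy
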