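import Mathlib
import Pool.Agent.Helper71.SuspDefs
import Pool.Agent.Helper71.SuspHtpy

/-!
The sets `A_k(G, x₀)` of homotopy classes, `A_0`, the maps induced by graph maps and the
concatenation product on `A_k`, `k ≥ 1`.
-/

namespace Pool.Agent.Helper71.AHtpy

open SimpleGraph

universe u v w

variable {V : Type u} {W : Type v}

/-- Homotopy as a setoid (it is an equivalence relation). -/
def htpySetoid (k : ℕ) (G : SimpleGraph V) (x₀ : V) : Setoid (AMap k G x₀) :=
  ⟨Homotopic, ⟨Homotopic.refl, Homotopic.symm, Homotopic.trans⟩⟩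

/-- `A_k(G, x₀)`: homotopy classes of finitely supported graph maps `ℤ^k → G`. -/
def AGrp (k : ℕ) (G : SimpleGraph V) (x₀ : V) : Type u := Quotient (htpySetoid k G x₀)

/-- Composition of a finitely supported graph map with a graph map. -/
def AMap.push {k : ℕ} {G : SimpleGraph V} {H : SimpleGraph W} {f : V → W}
    (hf : IsGraphMap G H f) {x₀ : V} (φ : AMap k G x₀) : AMap k H (f x₀) where
  toFun := fun z => f (φ.toFun z)
  isMap := hf.comp φ.isMap
  bounded := by
    obtain ⟨N, hN⟩ := φ.bounded
    exact ⟨N, fun z hz => by rw [hN z hz]⟩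

theorem AMap.push_step {k : ℕ} {G : SimpleGraph V} {H : SimpleGraph W} {f : V → W}
    (hf : IsGraphMap G H f) {x₀ : V} {φ ψ : AMap k G x₀} (h : Step φ ψ) :
    Step (φ.push hf) (ψ.push hf) := fun z => hf.near (h z)

theorem AMap.push_homotopic {k : ℕ} {G : SimpleGraph V} {H : SimpleGraph W} {f : V → W}
    (hf : IsGraphMap G H f) {x₀ : V} {φ ψ : AMap k G x₀} (h : Homotopic φ ψ) :
    Homotopic (φ.push hf) (ψ.push hf) := by
  rw [homotopic_iff] at h ⊢
  induction h with
  | refl => exact Relation.ReflTransGen.refl
  | tail _ hst ih => exact ih.tail (AMap.push_step hf hst)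

/-- The map `A_k(G, x₀) → A_k(H, f x₀)` induced by a graph map `f : G → H`. -/
def AGrp.map (k : ℕ) {G : SimpleGraph V} {H : SimpleGraph W} {f : V → W}
    (hf : IsGraphMap G H f) (x₀ : V) : AGrp k G x₀ → AGrp k H (f x₀) :=
  Quotient.map (AMap.push hf) (fun _ _ h => AMap.push_homotopic hf h)

/-- The map `A_0(G) → A_0(H)` on connected components induced by a graph map. -/
def A0map {G : SimpleGraph V} {H : SimpleGraph W} {f : V → W} (hf : IsGraphMap G H f) :
    G.ConnectedComponent → H.ConnectedComponent :=
  Quot.map f (by
    intro a b hab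
    obtain ⟨p⟩ := hab
    induction p with
    | nil => exact Reachable.refl _
    | cons h _ ih =>
      rcases hf _ _ h with h' | h'
      · rw [h']; exact ih
      · exact h'.reachable.trans ih)

/-- The juxtaposition of `f` and `g` in the first coordinate: a copy of `f` shifted by `-L` on the
half space `z 0 ≤ 0` and a copy of `g` shifted by `L` on `z 0 > 0`. -/
def concatFun {j : ℕ} (L : ℕ) (f g : (Fin (j + 1) → ℤ) → V) (z : Fin (j + 1) → ℤ) : V :=
  if z 0 ≤ 0 then f (Function.update z 0 (z 0 + L)) else g (Function.update z 0 (z 0 - L))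

section concat

variable {j : ℕ} {G : SimpleGraph V} {x₀ : V}

/-- `L` is large enough for the juxtaposition of `f` and `g`. -/
def Good (L : ℕ) (f g : AMap (j + 1) G x₀) : Prop :=
  ∃ N : ℕ, N + 2 ≤ L ∧ ∀ z : Fin (j + 1) → ℤ, (N : ℤ) < |z 0| →
    f.toFun z = x₀ ∧ g.toFun z = x₀

theorem exists_good (f g : AMap (j + 1) G x₀) : ∃ L, Good L f g := by
  obtain ⟨N, hN⟩ := f.bounded
  obtain ⟨N', hN'⟩ := g.bounded
  refine ⟨N + N' + 2, N + N', le_rfl, fun z hz => ⟨hN z ⟨0, ?_⟩, hN' z ⟨0, ?_⟩⟩⟩
  · push_cast at hz; omega
  · push_cast at hz; omega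

theorem Good.mono {L L' : ℕ} {f g : AMap (j + 1) G x₀} (h : Good L f g) (hL : L ≤ L') :
    Good L' f g := by
  obtain ⟨N, h1, h2⟩ := h
  exact ⟨N, h1.trans hL, h2⟩

theorem near_update_grid {ι : Type w} [Fintype ι] [DecidableEq ι] (z z' : ι → ℤ) (i : ι)
    (c c' : ℤ) (hc : |c - c'| ≤ 1) (h : ∀ j, j ≠ i → z j = z' j) :
    Near (grid ι) (Function.update z i c) (Function.update z' i c') := by
  apply near_grid_of i
  · simpa using hc
  · intro j hj; simp [hj, h j hj]

/-- Juxtaposition of two finitely supported graph maps. -/
def concatL (L : ℕ) (f g : AMap (j + 1) G x₀) (hL : Good L f g) : AMap (j + 1) G x₀ where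
  toFun := concatFun L f.toFun g.toFun
  isMap := by
    obtain ⟨N, hNL, hN⟩ := hL
    apply isGraphMap_grid
    intro x y i hi hj
    unfold concatFun
    by_cases hi0 : i = 0
    · subst hi0
      split_ifs with h1 h2 h2
      · apply f.isMap.near
        exact near_update_grid _ _ _ _ _ (by rw [hi]; simp) hj
      · have e1 : f.toFun (Function.update x 0 (x 0 + L)) = x₀ :=
          (hN _ (by simp only [Function.update_self]; rw [abs_of_nonneg] <;> omega)).1
        have e2 : g.toFun (Function.update y 0 (y 0 - L)) = x₀ :=
          (hN _ (by simp only [Function.update_self]; rw [abs_of_nonpos] <;> omega)).2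
        rw [e1, e2]; exact Near.refl _ _
      · omega
      · apply g.isMap.near
        exact near_update_grid _ _ _ _ _ (by rw [hi]; simp) hj
    · have h0 : x 0 = y 0 := hj 0 (Ne.symm hi0)
      rw [h0]
      have hup : ∀ c : ℤ, Near (grid (Fin (j+1))) (Function.update x 0 c)
          (Function.update y 0 c) := by
        intro c
        apply near_grid_of i
        · simp [hi0, hi]
        · intro j' hj'
          by_cases hj0 : j' = 0
          · subst hj0; simp
          · simp [hj0, hj j' hj']
      split_ifs with h1
      · exact f.isMap.near (hup _)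
      · exact g.isMap.near (hup _)
  bounded := by
    obtain ⟨N, hN⟩ := f.bounded
    obtain ⟨N', hN'⟩ := g.bounded
    refine ⟨N + N' + L, ?_⟩
    rintro z ⟨i, hi⟩
    unfold concatFun
    push_cast at hi
    by_cases hi0 : i = 0
    · subst hi0
      split_ifs with h1
      · apply hN
        refine ⟨0, ?_⟩
        simp only [Function.update_self]
        rw [abs_of_nonpos h1] at hi
        rw [abs_of_nonpos (by omega)]
        omega
      · apply hN'
        refine ⟨0, ?_⟩
        simp only [Function.update_self]
        rw [abs_of_pos (by omega)] at hi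
        rw [abs_of_nonneg (by omega)]
        omega
    · split_ifs with h1
      · apply hN
        refine ⟨i, ?_⟩
        simp only [Function.update_of_ne hi0]
        omega
      · apply hN'
        refine ⟨i, ?_⟩
        simp only [Function.update_of_ne hi0]
        omega

theorem concatL_step_succ {L : ℕ} {f g : AMap (j + 1) G x₀} (h : Good L f g)
    (h' : Good (L + 1) f g) : Step (concatL L f g h) (concatL (L + 1) f g h') := by
  intro z
  show Near G (concatFun L f.toFun g.toFun z) (concatFun (L + 1) f.toFun g.toFun z)
  unfold concatFun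
  split_ifs with h1
  · apply f.isMap.near
    exact near_update_grid _ _ _ _ _ (by push_cast; ring_nf; simp) (fun _ _ => rfl)
  · apply g.isMap.near
    exact near_update_grid _ _ _ _ _ (by push_cast; ring_nf; simp) (fun _ _ => rfl)

theorem concatL_homotopic_of_le {L L' : ℕ} {f g : AMap (j + 1) G x₀} (h : Good L f g)
    (h' : Good L' f g) (hle : L ≤ L') : Homotopic (concatL L f g h) (concatL L' f g h') := by
  obtain ⟨d, rfl⟩ := Nat.exists_eq_add_of_le hle
  clear hle
  induction d with
  | zero => exact Homotopic.refl _
  | succ d ih =>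
    have hd : Good (L + d) f g := h.mono (by omega)
    exact (ih hd).trans (concatL_step_succ hd h').homotopic

theorem concatL_homotopic {L L' : ℕ} {f g : AMap (j + 1) G x₀} (h : Good L f g)
    (h' : Good L' f g) : Homotopic (concatL L f g h) (concatL L' f g h') := by
  rcases le_total L L' with hle | hle
  · exact concatL_homotopic_of_le h h' hle
  · exact (concatL_homotopic_of_le h' h hle).symm

/-- Concatenation in the first coordinate. -/
noncomputable def concat (f g : AMap (j + 1) G x₀) : AMap (j + 1) G x₀ :=
  concatL (exists_good f g).choose f g (exists_good f g).choose_spec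

theorem concat_homotopic_concatL {L : ℕ} {f g : AMap (j + 1) G x₀} (h : Good L f g) :
    Homotopic (concat f g) (concatL L f g h) := concatL_homotopic _ _

theorem concat_step {f f' g g' : AMap (j + 1) G x₀} (hf : Step f f') (hg : Step g g') :
    Homotopic (concat f g) (concat f' g') := by
  obtain ⟨L, hL⟩ := exists_good f g
  obtain ⟨L', hL'⟩ := exists_good f' g'
  have h1 : Good (max L L') f g := hL.mono (le_max_left _ _)
  have h2 : Good (max L L') f' g' := hL'.mono (le_max_right _ _)
  refine (concat_homotopic_concatL h1).trans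
    (Homotopic.trans (Step.homotopic ?_) (concat_homotopic_concatL h2).symm)
  intro z
  show Near G (concatFun _ f.toFun g.toFun z) (concatFun _ f'.toFun g'.toFun z)
  unfold concatFun
  split_ifs with h
  · exact hf _
  · exact hg _

theorem concat_homotopic {f f' g g' : AMap (j + 1) G x₀} (hf : Homotopic f f')
    (hg : Homotopic g g') : Homotopic (concat f g) (concat f' g') := by
  have h1 : Homotopic (concat f g) (concat f' g) := by
    rw [homotopic_iff] at hf
    induction hf with
    | refl => exact Homotopic.refl _
    | tail _ hst ih => exact ih.trans (concat_step hst (fun z => Near.refl _ _))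
  have h2 : Homotopic (concat f' g) (concat f' g') := by
    rw [homotopic_iff] at hg
    induction hg with
    | refl => exact Homotopic.refl _
    | tail _ hst ih => exact ih.trans (concat_step (fun z => Near.refl _ _) hst)
  exact h1.trans h2

/-- The product on `A_{j+1}(G, x₀)`: concatenation in the first coordinate. -/
noncomputable def AGrp.mul (a b : AGrp (j + 1) G x₀) : AGrp (j + 1) G x₀ :=
  Quotient.map₂ concat (fun _ _ hf _ _ hg => concat_homotopic hf hg) a b

theorem AGrp.map_mul {H : SimpleGraph W} {f : V → W} (hf : IsGraphMap G H f)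
    (a b : AGrp (j + 1) G x₀) :
    AGrp.map (j + 1) hf x₀ (AGrp.mul a b) =
      AGrp.mul (AGrp.map (j + 1) hf x₀ a) (AGrp.map (j + 1) hf x₀ b) := by
  induction a using Quotient.inductionOn with | _ φ =>
  induction b using Quotient.inductionOn with | _ ψ =>
  apply Quotient.sound
  obtain ⟨N, hNL, hN⟩ := (exists_good φ ψ).choose_spec
  have hG : Good (exists_good φ ψ).choose (φ.push hf) (ψ.push hf) := by
    refine ⟨N, hNL, fun z hz => ⟨?_, ?_⟩⟩
    · show f (φ.toFun z) = f x₀
      rw [(hN z hz).1]
    · show f (ψ.toFun z) = f x₀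
      rw [(hN z hz).2]
  have e : (concat φ ψ).push hf = concatL _ (φ.push hf) (ψ.push hf) hG := by
    apply AMap.ext
    intro z
    show f (concatFun _ φ.toFun ψ.toFun z) = concatFun _ _ _ z
    unfold concatFun
    split_ifs <;> rfl
  show Homotopic ((concat φ ψ).push hf) (concat (φ.push hf) (ψ.push hf))
  rw [e]
  exact (concat_homotopic_concatL hG).symm

end concat

end Pool.Agent.Helper71.AHtpy
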