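import Mathlib
import Pool.Agent.Helper71.SuspDefs
import Pool.Agent.Helper71.SuspHtpy

/-!
Points, levels and labels in `Σ_n X`, and the lift of a graph map `ℤ^ι → Σ_n X`, `|ι| ≤ n`,
to `Σ_{n+1} X` after halving.
-/

namespace Pool.Agent.Helper71.AHtpy

open SimpleGraph

universe u v w

variable {V : Type u}

/-- The vertex `[x, min l n]` of `Σ_n X`. -/
def pt (n : ℕ) (x : V) (l : ℕ) : Quotient (suspSetoid V n) :=
  Quotient.mk (suspSetoid V n) (x, ⟨min l n, by omega⟩)

/-- The level. -/
def lev {n : ℕ} (q : Quotient (suspSetoid V n)) : ℕ :=
  Quotient.lift (fun a : V × Fin (n + 1) => a.2.val) (by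
    rintro a b (h | h | h)
    · rw [h]
    · rw [h.1, h.2]
    · rw [h.1, h.2]) q

/-- A label. -/
noncomputable def lab {n : ℕ} (q : Quotient (suspSetoid V n)) : V := (Quotient.out q).1

theorem lev_pt (n : ℕ) (x : V) (l : ℕ) : lev (pt n x l) = min l n := rfl

theorem lev_le {n : ℕ} (q : Quotient (suspSetoid V n)) : lev q ≤ n := by
  induction q using Quotient.inductionOn with | _ a =>
  show a.2.val ≤ n
  omega

theorem pt_lab_lev {n : ℕ} (q : Quotient (suspSetoid V n)) : pt n (lab q) (lev q) = q := by
  have h1 : lev q = (Quotient.out q).2.val := by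
    conv_lhs => rw [← Quotient.out_eq q]
    rfl
  unfold pt lab
  conv_rhs => rw [← Quotient.out_eq q]
  congr 1
  ext
  · rfl
  · simp only [h1]
    omega

theorem exists_pt {n : ℕ} (q : Quotient (suspSetoid V n)) :
    ∃ x l, l ≤ n ∧ q = pt n x l := ⟨lab q, lev q, lev_le q, (pt_lab_lev q).symm⟩

theorem pt_eq_iff {n : ℕ} {x y : V} {l m : ℕ} (hl : l ≤ n) (hm : m ≤ n) :
    pt n x l = pt n y m ↔ l = m ∧ (l = 0 ∨ l = n ∨ x = y) := by
  unfold pt
  rw [Quotient.eq]
  constructor
  · rintro (h | h | h)
    · have h1 := congrArg Prod.fst h
      have h2 := congrArg (fun a => a.2.val) h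
      simp only at h1 h2
      exact ⟨by omega, Or.inr (Or.inr h1)⟩
    · have h1 := congrArg Fin.val h.1
      have h2 := congrArg Fin.val h.2
      simp only [Fin.val_zero] at h1 h2
      exact ⟨by omega, by omega⟩
    · have h1 := congrArg Fin.val h.1
      have h2 := congrArg Fin.val h.2
      simp only [Fin.val_last] at h1 h2
      exact ⟨by omega, by omega⟩
  · rintro ⟨rfl, h | h | h⟩
    · refine Or.inr (Or.inl ⟨?_, ?_⟩) <;> (ext; simp [h])
    · refine Or.inr (Or.inr ⟨?_, ?_⟩) <;> (ext; simp [h])
    · left; rw [h]

theorem lab_eq {n : ℕ} {q : Quotient (suspSetoid V n)} {x : V} {l : ℕ} (h : q = pt n x l)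
    (h0 : 0 < l) (hl : l < n) : lab q = x := by
  have h1 := pt_lab_lev q
  have h2 : lev q = l := by rw [h, lev_pt]; omega
  rw [h2] at h1
  have h3 : pt n (lab q) l = pt n x l := h1.trans h
  rw [pt_eq_iff (by omega) (by omega)] at h3
  rcases h3.2 with h | h | h
  · omega
  · omega
  · exact h

/-- The nearness relation in terms of labels and levels. -/
def R (X : SimpleGraph V) (n : ℕ) (x : V) (l : ℕ) (y : V) (m : ℕ) : Prop :=
  (l ≤ m + 1 ∧ m ≤ l + 1) ∧
    (l = 0 ∨ m = 0 ∨ l = n ∨ m = n ∨ x = y ∨ (l = m ∧ X.Adj x y))

theorem near_pt_iff {X : SimpleGraph V} {n : ℕ} {x y : V} {l m : ℕ} (hl : l ≤ n) (hm : m ≤ n) :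
    Near (Susp X n) (pt n x l) (pt n y m) ↔ R X n x l y m := by
  constructor
  · rintro (h | h)
    · rw [pt_eq_iff hl hm] at h
      obtain ⟨rfl, h⟩ := h
      exact ⟨by omega, by tauto⟩
    · obtain ⟨hne, ⟨x', s⟩, ⟨y', t⟩, ha, hb, hadj⟩ := h
      rw [boxProd_adj] at hadj
      have hs : Quotient.mk (suspSetoid V n) (x', s) = pt n x' s.val := by
        unfold pt; congr 1; ext
        · rfl
        · simp only; omega
      have ht : Quotient.mk (suspSetoid V n) (y', t) = pt n y' t.val := by
        unfold pt; congr 1; ext
        · rfl
        · simp only; omega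
      rw [hs, pt_eq_iff (by omega) hl] at ha
      rw [ht, pt_eq_iff (by omega) hm] at hb
      obtain ⟨ha1, ha2⟩ := ha
      obtain ⟨hb1, hb2⟩ := hb
      simp only at hadj
      rcases hadj with ⟨h1, h2⟩ | ⟨h1, h2⟩
      · have h2' : s.val = t.val := by rw [h2]
        refine ⟨by omega, ?_⟩
        rcases ha2 with h | h | h
        · left; omega
        · right; right; left; omega
        · rcases hb2 with h' | h' | h'
          · left; omega
          · right; right; left; omega
          · subst h; subst h'
            right; right; right; right; right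
            exact ⟨by omega, h1⟩
      · rw [pathGraph_adj] at h1
        refine ⟨by omega, ?_⟩
        rcases ha2 with h | h | h
        · left; omega
        · right; right; left; omega
        · rcases hb2 with h' | h' | h'
          · right; left; omega
          · right; right; right; left; omega
          · subst h; subst h'
            right; right; right; right; left
            exact h2
  · rintro ⟨hlm, h⟩
    by_cases heq : l = m
    · subst heq
      by_cases hpole : l = 0 ∨ l = n ∨ x = y
      · left
        rw [pt_eq_iff hl hm]
        exact ⟨rfl, hpole⟩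
      · push Not at hpole
        obtain ⟨h0, hn, hxy⟩ := hpole
        right
        have hX : X.Adj x y := by
          rcases h with h | h | h | h | h | h
          · exact absurd h h0
          · exact absurd h h0
          · exact absurd h hn
          · exact absurd h hn
          · exact absurd h hxy
          · exact h.2
        refine ⟨?_, (x, ⟨min l n, by omega⟩), (y, ⟨min l n, by omega⟩), rfl, rfl, ?_⟩
        · intro he
          rw [pt_eq_iff hl hm] at he
          tauto
        · rw [boxProd_adj]
          exact Or.inl ⟨hX, rfl⟩
    · right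
      have hne : pt n x l ≠ pt n y m := by
        intro he
        rw [pt_eq_iff hl hm] at he
        exact heq he.1
      have hcommon : ∃ c : V, pt n c l = pt n x l ∧ pt n c m = pt n y m := by
        rcases h with h | h | h | h | h | h
        · exact ⟨y, (pt_eq_iff hl hl).mpr ⟨rfl, Or.inl h⟩, rfl⟩
        · exact ⟨x, rfl, (pt_eq_iff hm hm).mpr ⟨rfl, Or.inl h⟩⟩
        · exact ⟨y, (pt_eq_iff hl hl).mpr ⟨rfl, Or.inr (Or.inl h)⟩, rfl⟩
        · exact ⟨x, rfl, (pt_eq_iff hm hm).mpr ⟨rfl, Or.inr (Or.inl h)⟩⟩
        · exact ⟨x, rfl, by rw [h]⟩
        · exact absurd h.1 heq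
      obtain ⟨c, hc1, hc2⟩ := hcommon
      refine ⟨hne, (c, ⟨min l n, by omega⟩), (c, ⟨min m n, by omega⟩), hc1, hc2, ?_⟩
      rw [boxProd_adj]
      refine Or.inr ⟨?_, rfl⟩
      rw [pathGraph_adj]
      simp only
      omega

theorem collapse_pt {n : ℕ} (x : V) {l : ℕ} (hl : l ≤ n + 1) :
    collapse V n (pt (n + 1) x l) = pt n x (l - 1) := by
  unfold collapse pt
  rw [Quotient.map_mk]
  congr 1
  ext
  · rfl
  · simp only; omega

theorem collapse_isGraphMap (X : SimpleGraph V) (n : ℕ) :
    IsGraphMap (Susp X (n + 1)) (Susp X n) (collapse V n) := by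
  intro a b hab
  obtain ⟨x, l, hl, rfl⟩ := exists_pt a
  obtain ⟨y, m, hm, rfl⟩ := exists_pt b
  have h := (near_pt_iff hl hm).mp (Or.inr hab)
  rw [collapse_pt x hl, collapse_pt y hm, near_pt_iff (by omega) (by omega)]
  obtain ⟨h1, h2⟩ := h
  refine ⟨by omega, ?_⟩
  rcases h2 with h | h | h | h | h | h
  · left; omega
  · right; left; omega
  · right; right; left; omega
  · right; right; right; left; omega
  · right; right; right; right; left; exact h
  · right; right; right; right; right; exact ⟨by omega, h.2⟩

section lift

variable {ι : Type w} [Fintype ι] [DecidableEq ι] {X : SimpleGraph V} {n : ℕ}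

/-- The block of `z`. -/
def blk (z : ι → ℤ) : ι → ℤ := fun i => z i / 2

/-- `w` is a corner of the unit cube around `z`. -/
def Corner (z w : ι → ℤ) : Prop := ∀ i, 2 * w i - 1 ≤ z i ∧ z i ≤ 2 * w i + 2

/-- The unit cube around `z` meets the pole `0`. -/
def NearZ (F : (ι → ℤ) → Quotient (suspSetoid V n)) (z : ι → ℤ) : Prop :=
  ∃ w, lev (F w) = 0 ∧ Corner z w

/-- The label used at points of the pole `n` whose unit cube meets the pole `0`. -/
def GoodLab (F : (ι → ℤ) → Quotient (suspSetoid V n)) (z : ι → ℤ) (x : V) : Prop :=
  ∃ w, lev (F w) = 0 ∧ Corner z w ∧ ∀ i, F (Function.update (blk z) i (w i)) = pt n x (n - 1)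

open Classical in
/-- The lift. -/
noncomputable def lift (F : (ι → ℤ) → Quotient (suspSetoid V n)) (z : ι → ℤ) :
    Quotient (suspSetoid V (n + 1)) :=
  if lev (F (blk z)) = 0 then pt (n + 1) (lab (F (blk z))) 0
  else if NearZ F z then
    if lev (F (blk z)) = n then
      pt (n + 1) (if h : ∃ x, GoodLab F z x then h.choose else lab (F (blk z))) n
    else pt (n + 1) (lab (F (blk z))) (lev (F (blk z)))
  else pt (n + 1) (lab (F (blk z))) (lev (F (blk z)) + 1)

omit [DecidableEq ι] in
theorem lev_lip {F : (ι → ℤ) → Quotient (suspSetoid V n)} (hF : IsGraphMap (grid ι) (Susp X n) F)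
    (x y : ι → ℤ) : (lev (F x) : ℤ) ≤ lev (F y) + ∑ i, |x i - y i| := by
  apply lipschitz_grid (fun x => (lev (F x) : ℤ))
  intro a b hab
  have h := hF a b hab
  rw [← pt_lab_lev (F a), ← pt_lab_lev (F b), near_pt_iff (lev_le _) (lev_le _)] at h
  have := h.1.1
  omega

omit [DecidableEq ι] in
theorem near_F {F : (ι → ℤ) → Quotient (suspSetoid V n)}
    (hF : IsGraphMap (grid ι) (Susp X n) F) {a b : ι → ℤ} (h : Near (grid ι) a b) :
    R X n (lab (F a)) (lev (F a)) (lab (F b)) (lev (F b)) := by
  have h := hF.near h
  rwa [← pt_lab_lev (F a), ← pt_lab_lev (F b), near_pt_iff (lev_le _) (lev_le _)] at h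

/-- Geometry of a unit cube with a vertex `b` in the pole `n` and a vertex `w` in the pole `0`. -/
theorem tight {F : (ι → ℤ) → Quotient (suspSetoid V n)} (hF : IsGraphMap (grid ι) (Susp X n) F)
    (hn : 3 ≤ n) (hcard : Fintype.card ι ≤ n) {b w : ι → ℤ} (hb : lev (F b) = n)
    (hw : lev (F w) = 0) (hbw : ∀ i, |b i - w i| ≤ 1) :
    Fintype.card ι = n ∧ (∀ i, b i ≠ w i) ∧
      ∃ x, ∀ i, F (Function.update b i (w i)) = pt n x (n - 1) := by
  have hsum : ∑ i, |b i - w i| ≤ ∑ _i : ι, (1 : ℤ) := Finset.sum_le_sum (fun i _ => hbw i)
  have hlip := lev_lip hF b w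
  rw [hb, hw] at hlip
  have hone : ∑ _i : ι, (1 : ℤ) = Fintype.card ι := by simp
  have hc : Fintype.card ι = n := by push_cast at hlip; omega
  have heq : ∑ i, |b i - w i| = ∑ _i : ι, (1 : ℤ) := by push_cast at hlip; omega
  have hall : ∀ i, |b i - w i| = 1 := by
    intro i
    exact (Finset.sum_eq_sum_iff_of_le (fun i _ => hbw i)).mp heq i (Finset.mem_univ i)
  have hne : ∀ i, b i ≠ w i := by
    intro i h
    have := hall i
    rw [h] at this
    simp at this
  refine ⟨hc, hne, ?_⟩
  -- sums after an update
  have hupd : ∀ (c : ι → ℤ) (i : ι), |c i - w i| = 1 →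
      ∑ j, |Function.update c i (w i) j - w j| = ∑ j, |c j - w j| - 1 := by
    intro c i hci
    rw [← Finset.add_sum_erase Finset.univ (fun j => |c j - w j|) (Finset.mem_univ i),
      ← Finset.add_sum_erase Finset.univ (fun j => |Function.update c i (w i) j - w j|)
        (Finset.mem_univ i), hci]
    have : ∑ j ∈ Finset.univ.erase i, |Function.update c i (w i) j - w j| =
        ∑ j ∈ Finset.univ.erase i, |c j - w j| :=
      Finset.sum_congr rfl (fun j hj => by rw [Function.update_of_ne (Finset.ne_of_mem_erase hj)])
    rw [this]; simp
  have hsumn : ∑ i, |b i - w i| = (n : ℤ) := by rw [heq, hone, hc]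
  have hnear : ∀ (c : ι → ℤ) (i : ι), |c i - w i| = 1 →
      Near (grid ι) c (Function.update c i (w i)) := by
    intro c i hci
    apply near_grid_of i
    · simp [hci]
    · intro j hj; simp [hj]
  have hlev1 : ∀ i, lev (F (Function.update b i (w i))) = n - 1 := by
    intro i
    have h1 := lev_lip hF (Function.update b i (w i)) w
    rw [hupd b i (hall i), hsumn, hw] at h1
    have h2 := (near_F hF (hnear b i (hall i))).1
    rw [hb] at h2
    push_cast at h1
    omega
  have hlev2 : ∀ i j, i ≠ j →
      lev (F (Function.update (Function.update b i (w i)) j (w j))) = n - 2 := by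
    intro i j hij
    have hj1 : |Function.update b i (w i) j - w j| = 1 := by
      rw [Function.update_of_ne (Ne.symm hij)]; exact hall j
    have h1 := lev_lip hF (Function.update (Function.update b i (w i)) j (w j)) w
    rw [hupd _ j hj1, hupd b i (hall i), hsumn, hw] at h1
    have h2 := (near_F hF (hnear (Function.update b i (w i)) j hj1)).1
    rw [hlev1 i] at h2
    push_cast at h1
    omega
  have hlabs : ∀ i j, i ≠ j → lab (F (Function.update b i (w i))) =
      lab (F (Function.update (Function.update b i (w i)) j (w j))) := by
    intro i j hij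
    have hj1 : |Function.update b i (w i) j - w j| = 1 := by
      rw [Function.update_of_ne (Ne.symm hij)]; exact hall j
    have h2 := (near_F hF (hnear (Function.update b i (w i)) j hj1)).2
    rw [hlev1 i, hlev2 i j hij] at h2
    rcases h2 with h | h | h | h | h | h
    · omega
    · omega
    · omega
    · omega
    · exact h
    · omega
  have hι : Nonempty ι := by
    rw [← Fintype.card_pos_iff]; omega
  obtain ⟨i₀⟩ := hι
  refine ⟨lab (F (Function.update b i₀ (w i₀))), fun i => ?_⟩
  have hpt := pt_lab_lev (F (Function.update b i (w i)))
  rw [hlev1 i] at hpt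
  rw [← hpt]
  by_cases hi : i = i₀
  · rw [hi]
  · congr 1
    rw [hlabs i i₀ hi, hlabs i₀ i (Ne.symm hi), Function.update_comm hi]

omit [Fintype ι] [DecidableEq ι] in
theorem corner_blk (z : ι → ℤ) : Corner z (blk z) := by
  intro i
  unfold blk
  omega

omit [Fintype ι] [DecidableEq ι] in
theorem corner_near {z w : ι → ℤ} (h : Corner z w) (i : ι) : |blk z i - w i| ≤ 1 := by
  have := h i
  unfold blk
  rw [abs_le]
  omega

/-- The label of the lift at points of the pole `n` close to the pole `0`. -/
theorem lift_pole {F : (ι → ℤ) → Quotient (suspSetoid V n)}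
    (hF : IsGraphMap (grid ι) (Susp X n) F) (hn : 3 ≤ n) (hcard : Fintype.card ι ≤ n)
    {z : ι → ℤ} (hb : lev (F (blk z)) = n) (hN : NearZ F z) :
    ∃ x w, lift F z = pt (n + 1) x n ∧ lev (F w) = 0 ∧ Corner z w ∧ (∀ i, blk z i ≠ w i) ∧
      Fintype.card ι = n ∧ ∀ i, F (Function.update (blk z) i (w i)) = pt n x (n - 1) := by
  have hex : ∃ x, GoodLab F z x := by
    obtain ⟨w, hw, hcw⟩ := hN
    obtain ⟨_, _, x, hx⟩ := tight hF hn hcard hb hw (corner_near hcw)
    exact ⟨x, w, hw, hcw, hx⟩
  obtain ⟨w, hw, hcw, hx⟩ := hex.choose_spec
  obtain ⟨hc, hne, _⟩ := tight hF hn hcard hb hw (corner_near hcw)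
  refine ⟨hex.choose, w, ?_, hw, hcw, hne, hc, hx⟩
  unfold lift
  rw [if_neg (by omega), if_pos hN, if_pos hb, dif_pos hex]

/-- The lift is a graph map. -/
theorem lift_isGraphMap {F : (ι → ℤ) → Quotient (suspSetoid V n)}
    (hF : IsGraphMap (grid ι) (Susp X n) F) (hn : 3 ≤ n) (hcard : Fintype.card ι ≤ n) :
    IsGraphMap (grid ι) (Susp X (n + 1)) (lift F) := by
  apply isGraphMap_grid
  intro z z' i hi hj
  by_cases hpar : z i % 2 = 0
  · -- same block
    have hblk : blk z' = blk z := by
      funext j
      unfold blk
      by_cases hji : j = i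
      · subst hji; omega
      · rw [hj j hji]
    by_cases h0 : lev (F (blk z)) = 0
    · have h0' : lev (F (blk z')) = 0 := by rw [hblk]; exact h0
      left
      unfold lift
      rw [if_pos h0, if_pos h0', hblk]
    · have h0' : ¬ lev (F (blk z')) = 0 := by rw [hblk]; exact h0
      by_cases hb : lev (F (blk z)) = n
      · have hb' : lev (F (blk z')) = n := by rw [hblk]; exact hb
        by_cases hN : NearZ F z
        · obtain ⟨x, w, hx, hw, hcw, hne, hc, hlab⟩ := lift_pole hF hn hcard hb hN
          by_cases hN' : NearZ F z'
          · obtain ⟨x', w', hx', hw', hcw', hne', _, hlab'⟩ := lift_pole hF hn hcard hb' hN'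
            left
            rw [hx, hx']
            have : ∃ j, j ≠ i := by
              have : 1 < Fintype.card ι := by omega
              rw [Fintype.one_lt_card_iff] at this
              obtain ⟨a, b, hab⟩ := this
              by_cases ha : a = i
              · exact ⟨b, fun hb => hab (by rw [ha, hb])⟩
              · exact ⟨a, ha⟩
            obtain ⟨j, hji⟩ := this
            have hww : w j = w' j := by
              have h1 := hcw j
              have h2 := hcw' j
              have h3 := hne j
              have h4 := hne' j
              rw [hblk] at h4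
              unfold blk at h3 h4
              have h5 := hj j hji
              omega
            have e1 := hlab j
            have e2 := hlab' j
            rw [hblk, ← hww, e1, pt_eq_iff (by omega) (by omega)] at e2
            have hxx : x = x' := by
              rcases e2.2 with h | h | h
              · omega
              · omega
              · exact h
            rw [hxx]
          · rw [hx]
            unfold lift
            rw [if_neg h0', if_neg hN', hb', near_pt_iff (by omega) (by omega)]
            exact ⟨by omega, by right; right; right; left; rfl⟩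
        · by_cases hN' : NearZ F z'
          · obtain ⟨x', w', hx', hw', hcw', hne', _, hlab'⟩ := lift_pole hF hn hcard hb' hN'
            rw [hx']
            unfold lift
            rw [if_neg h0, if_neg hN, hb, near_pt_iff (by omega) (by omega)]
            exact ⟨by omega, by right; right; left; rfl⟩
          · left
            unfold lift
            rw [if_neg h0, if_neg hN, if_neg h0', if_neg hN', hblk]
      · have hb' : ¬ lev (F (blk z')) = n := by rw [hblk]; exact hb
        have hle := lev_le (F (blk z))
        unfold lift
        rw [if_neg h0, if_neg h0', if_neg hb, if_neg hb', hblk]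
        split_ifs
        · exact Near.refl _ _
        · rw [near_pt_iff (by omega) (by omega)]
          exact ⟨by omega, by right; right; right; right; left; rfl⟩
        · rw [near_pt_iff (by omega) (by omega)]
          exact ⟨by omega, by right; right; right; right; left; rfl⟩
        · exact Near.refl _ _
  · -- different blocks
    have hblki : blk z' i = blk z i + 1 := by unfold blk; omega
    have hblkj : ∀ j, j ≠ i → blk z j = blk z' j := by
      intro j hji; unfold blk; rw [hj j hji]
    have hcor : ∀ w, Corner z w ↔ Corner z' w := by
      intro w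
      constructor
      · intro h j
        have := h j
        by_cases hji : j = i
        · subst hji; omega
        · rw [← hj j hji]; exact this
      · intro h j
        have := h j
        by_cases hji : j = i
        · subst hji; omega
        · rw [hj j hji]; exact this
    have hNN : NearZ F z ↔ NearZ F z' := by
      unfold NearZ
      constructor
      · rintro ⟨w, h1, h2⟩; exact ⟨w, h1, (hcor w).mp h2⟩
      · rintro ⟨w, h1, h2⟩; exact ⟨w, h1, (hcor w).mpr h2⟩
    have hnear : Near (grid ι) (blk z) (blk z') := by
      apply near_grid_of i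
      · rw [hblki]; simp
      · exact hblkj
    have hR := near_F hF hnear
    have hwi : ∀ w, Corner z w → w i = blk z i ∨ w i = blk z' i := by
      intro w hw
      have := hw i
      rw [hblki]
      unfold blk
      omega
    have hle := lev_le (F (blk z))
    have hle' := lev_le (F (blk z'))
    by_cases h0 : lev (F (blk z)) = 0
    · have hN : NearZ F z := ⟨blk z, h0, corner_blk z⟩
      have hN' : NearZ F z' := hNN.mp hN
      by_cases h0' : lev (F (blk z')) = 0
      · unfold lift
        rw [if_pos h0, if_pos h0', near_pt_iff (by omega) (by omega)]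
        exact ⟨by omega, Or.inl rfl⟩
      · unfold lift
        rw [if_pos h0, if_neg h0', if_pos hN', if_neg (by have := hR.1; omega),
          near_pt_iff (by omega) (by omega)]
        exact ⟨by have := hR.1; omega, Or.inl rfl⟩
    · by_cases h0' : lev (F (blk z')) = 0
      · have hN' : NearZ F z' := ⟨blk z', h0', corner_blk z'⟩
        have hN : NearZ F z := hNN.mpr hN'
        unfold lift
        rw [if_neg h0, if_pos hN, if_neg (by have := hR.1; omega), if_pos h0',
          near_pt_iff (by omega) (by omega)]
        exact ⟨by have := hR.1; omega, Or.inr (Or.inl rfl)⟩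
      · by_cases hN : NearZ F z
        · have hN' : NearZ F z' := hNN.mp hN
          by_cases hb : lev (F (blk z)) = n
          · obtain ⟨x, w, hx, hw, hcw, hne, hc, hlab⟩ := lift_pole hF hn hcard hb hN
            have hwi' : w i = blk z' i := by
              rcases hwi w hcw with h | h
              · exact absurd h.symm (hne i)
              · exact h
            have hupd : Function.update (blk z) i (w i) = blk z' := by
              funext j
              by_cases hji : j = i
              · subst hji; simp [hwi']
              · simp [hji, hblkj j hji]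
            have hl := hlab i
            rw [hupd] at hl
            have hlev' : lev (F (blk z')) = n - 1 := by rw [hl, lev_pt]; omega
            have hlab' : lab (F (blk z')) = x := lab_eq hl (by omega) (by omega)
            rw [hx]
            unfold lift
            rw [if_neg h0', if_pos hN', if_neg (by omega), hlev', hlab',
              near_pt_iff (by omega) (by omega)]
            exact ⟨by omega, by right; right; right; right; left; rfl⟩
          · by_cases hb' : lev (F (blk z')) = n
            · obtain ⟨x, w, hx, hw, hcw, hne, hc, hlab⟩ := lift_pole hF hn hcard hb' hN'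
              have hwi' : w i = blk z i := by
                rcases hwi w ((hcor w).mpr hcw) with h | h
                · exact h
                · exact absurd h.symm (hne i)
              have hupd : Function.update (blk z') i (w i) = blk z := by
                funext j
                by_cases hji : j = i
                · subst hji; simp [hwi']
                · simp [hji, hblkj j hji]
              have hl := hlab i
              rw [hupd] at hl
              have hlev' : lev (F (blk z)) = n - 1 := by rw [hl, lev_pt]; omega
              have hlab' : lab (F (blk z)) = x := lab_eq hl (by omega) (by omega)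
              rw [hx]
              unfold lift
              rw [if_neg h0, if_pos hN, if_neg (by omega), hlev', hlab',
                near_pt_iff (by omega) (by omega)]
              exact ⟨by omega, by right; right; right; right; left; rfl⟩
            · unfold lift
              rw [if_neg h0, if_neg h0', if_pos hN, if_pos hN', if_neg hb, if_neg hb',
                near_pt_iff (by omega) (by omega)]
              obtain ⟨h1, h2⟩ := hR
              refine ⟨h1, ?_⟩
              rcases h2 with h | h | h | h | h | h
              · exact absurd h h0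
              · exact absurd h h0'
              · exact absurd h hb
              · exact absurd h hb'
              · right; right; right; right; left; exact h
              · right; right; right; right; right; exact h
        · have hN' : ¬ NearZ F z' := fun h => hN (hNN.mpr h)
          unfold lift
          rw [if_neg h0, if_neg h0', if_neg hN, if_neg hN', near_pt_iff (by omega) (by omega)]
          obtain ⟨h1, h2⟩ := hR
          refine ⟨by omega, ?_⟩
          rcases h2 with h | h | h | h | h | h
          · exact absurd h h0
          · exact absurd h h0'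
          · right; right; left; omega
          · right; right; right; left; omega
          · right; right; right; right; left; exact h
          · right; right; right; right; right; exact ⟨by omega, h.2⟩

/-- The lift is close to every point over the value at the block. -/
theorem near_lift {F : (ι → ℤ) → Quotient (suspSetoid V n)}
    (hF : IsGraphMap (grid ι) (Susp X n) F) (hn : 3 ≤ n) (hcard : Fintype.card ι ≤ n)
    (z : ι → ℤ) (y : Quotient (suspSetoid V (n + 1))) (hy : collapse V n y = F (blk z)) :
    Near (Susp X (n + 1)) (lift F z) y := by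
  obtain ⟨x, l, hl, rfl⟩ := exists_pt y
  rw [collapse_pt x hl] at hy
  have hlev : lev (F (blk z)) = l - 1 := by rw [← hy, lev_pt]; omega
  have hlab : 0 < lev (F (blk z)) → lev (F (blk z)) < n → lab (F (blk z)) = x := by
    intro h1 h2
    exact lab_eq hy.symm (by omega) (by omega)
  by_cases h0 : lev (F (blk z)) = 0
  · unfold lift
    rw [if_pos h0, near_pt_iff (by omega) hl]
    exact ⟨by omega, Or.inl rfl⟩
  · by_cases hN : NearZ F z
    · by_cases hb : lev (F (blk z)) = n
      · obtain ⟨x', w, hx, _⟩ := lift_pole hF hn hcard hb hN
        rw [hx, near_pt_iff (by omega) hl]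
        exact ⟨by omega, by right; right; right; left; omega⟩
      · have hle := lev_le (F (blk z))
        unfold lift
        rw [if_neg h0, if_pos hN, if_neg hb, near_pt_iff (by omega) hl,
          hlab (by omega) (by omega)]
        exact ⟨by omega, by right; right; right; right; left; rfl⟩
    · have hle := lev_le (F (blk z))
      unfold lift
      rw [if_neg h0, if_neg hN, near_pt_iff (by omega) hl]
      refine ⟨by omega, ?_⟩
      by_cases hb : lev (F (blk z)) = n
      · right; right; left; omega
      · rw [hlab (by omega) (by omega)]
        right; right; right; right; left; rfl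

/-- The lift is a lift up to one step. -/
theorem collapse_lift {F : (ι → ℤ) → Quotient (suspSetoid V n)}
    (hF : IsGraphMap (grid ι) (Susp X n) F) (hn : 3 ≤ n) (hcard : Fintype.card ι ≤ n)
    (z : ι → ℤ) : Near (Susp X n) (collapse V n (lift F z)) (F (blk z)) := by
  have hle := lev_le (F (blk z))
  have h := near_lift hF hn hcard z (pt (n + 1) (lab (F (blk z))) (lev (F (blk z)) + 1)) (by
    rw [collapse_pt _ (by omega)]
    simp only [Nat.add_sub_cancel]
    exact pt_lab_lev _)
  have h' := (collapse_isGraphMap X n).near h
  rw [collapse_pt _ (by omega : lev (F (blk z)) + 1 ≤ n + 1)] at h'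
  simp only [Nat.add_sub_cancel] at h'
  rwa [pt_lab_lev] at h'

end lift

end Pool.Agent.Helper71.AHtpy
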