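import Mathlib
import Pool.Agent.Helper71.SuspDefs
import Pool.Agent.Helper71.SuspHtpy

/-!
Refinement does not change the homotopy class: `f ≃ f ∘ (z ↦ z / 2)`.
-/

namespace Pool.Agent.Helper71.AHtpy

open SimpleGraph

universe u v w

variable {V : Type u} {k : ℕ} {G : SimpleGraph V} {x₀ : V}

/-- Modify one coordinate by a `1`-Lipschitz map. -/
def AMap.coord (f : AMap k G x₀) (i : Fin k) (s : ℤ → ℤ) (hs : ∀ x, |s (x + 1) - s x| ≤ 1)
    (hb : ∀ N : ℕ, ∃ M : ℕ, ∀ x : ℤ, (M : ℤ) < |x| → (N : ℤ) < |s x|) : AMap k G x₀ where
  toFun z := f.toFun (Function.update z i (s (z i)))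
  isMap := by
    apply isGraphMap_grid
    intro x y j hj hne
    apply f.isMap.near
    by_cases hji : j = i
    · subst hji
      apply near_grid_of j
      · simp only [Function.update_self]
        rw [hj, abs_sub_comm]; exact hs _
      · intro l hl
        simp [hl, hne l hl]
    · apply near_grid_of j
      · simp [hji, hj]
      · intro l hl
        by_cases hli : l = i
        · subst hli
          simp [hne l hl]
        · simp [hli, hne l hl]
  bounded := by
    obtain ⟨N, hN⟩ := f.bounded
    obtain ⟨M, hM⟩ := hb N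
    refine ⟨max N M, ?_⟩
    rintro z ⟨j, hj⟩
    push_cast at hj
    apply hN
    by_cases hji : j = i
    · subst hji
      exact ⟨j, by simpa using hM _ (lt_of_le_of_lt (le_max_right _ _) hj)⟩
    · exact ⟨j, by simpa [hji] using lt_of_le_of_lt (le_max_left _ _) hj⟩

/-- The intermediate reparametrizations between the identity and halving. -/
def shr (t : ℕ) (x : ℤ) : ℤ := if 0 ≤ x then max (x - t) (x / 2) else min (x + t) (x / 2)

theorem shr_lip (t : ℕ) (x : ℤ) : |shr t (x + 1) - shr t x| ≤ 1 := by
  unfold shr
  rw [abs_le]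
  split_ifs <;> omega

theorem shr_succ (t : ℕ) (x : ℤ) : |shr t x - shr (t + 1) x| ≤ 1 := by
  unfold shr
  rw [abs_le]
  push_cast
  split_ifs <;> omega

theorem shr_zero (x : ℤ) : shr 0 x = x := by
  unfold shr
  split_ifs <;> omega

theorem shr_big (t N : ℕ) (x : ℤ) (h : 2 * (N : ℤ) + 2 < |x|) : (N : ℤ) < |shr t x| := by
  unfold shr
  split_ifs with hx
  · rw [abs_of_nonneg hx] at h
    rw [abs_of_nonneg (by omega)]
    omega
  · rw [abs_of_neg (by omega)] at h
    rw [abs_of_nonpos (by omega)]
    omega

theorem half_lip (x : ℤ) : |(x + 1) / 2 - x / 2| ≤ 1 := by rw [abs_le]; omega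

theorem half_big (N : ℕ) (x : ℤ) (h : 2 * (N : ℤ) + 2 < |x|) : (N : ℤ) < |x / 2| := by
  rcases le_or_gt 0 x with hx | hx
  · rw [abs_of_nonneg hx] at h
    rw [abs_of_nonneg (by omega)]
    omega
  · rw [abs_of_neg hx] at h
    rw [abs_of_nonpos (by omega)]
    omega

/-- Halving one coordinate. -/
def AMap.half (f : AMap k G x₀) (i : Fin k) : AMap k G x₀ :=
  f.coord i (fun x => x / 2) half_lip
    (fun N => ⟨2 * N + 2, fun x hx => half_big N x (by push_cast at hx; exact hx)⟩)

theorem half_homotopic (f : AMap k G x₀) (i : Fin k) : Homotopic f (f.half i) := by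
  let F : ℕ → AMap k G x₀ := fun t => f.coord i (shr t) (shr_lip t)
    (fun N => ⟨2 * N + 2, fun x hx => shr_big t N x (by push_cast at hx; exact hx)⟩)
  have h0 : F 0 = f := by
    apply AMap.ext
    intro z
    show f.toFun (Function.update z i (shr 0 (z i))) = f.toFun z
    rw [shr_zero, Function.update_eq_self]
  have hstep : ∀ t, Step (F t) (F (t + 1)) := by
    intro t z
    show Near G (f.toFun (Function.update z i (shr t (z i))))
      (f.toFun (Function.update z i (shr (t+1) (z i))))
    apply f.isMap.near
    apply near_grid_of i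
    · simpa using shr_succ t (z i)
    · intro l hl; simp [hl]
  have hch : ∀ t, Homotopic (F 0) (F t) := by
    intro t
    induction t with
    | zero => exact Homotopic.refl _
    | succ t ih => exact ih.trans (hstep t).homotopic
  obtain ⟨N, hN⟩ := f.bounded
  have hT : F (N + 1) = f.half i := by
    apply AMap.ext
    intro z
    show f.toFun (Function.update z i (shr (N + 1) (z i))) =
      f.toFun (Function.update z i (z i / 2))
    by_cases h : shr (N + 1) (z i) = z i / 2
    · rw [h]
    · rw [hN _ ⟨i, ?_⟩, hN _ ⟨i, ?_⟩]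
      · simp only [Function.update_self]
        unfold shr at h
        push_cast at h
        split_ifs at h with h1
        · rw [abs_of_nonneg (by omega)]; omega
        · rw [abs_of_nonpos (by omega)]; omega
      · simp only [Function.update_self]
        unfold shr at h ⊢
        push_cast at h ⊢
        split_ifs at h with h1
        · rw [if_pos h1, abs_of_nonneg (by omega)]; omega
        · rw [if_neg h1, abs_of_nonpos (by omega)]; omega
  have := hch (N + 1)
  rw [h0, hT] at this
  exact this

/-- Halving the coordinates in `s`. -/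
theorem exists_halve (f : AMap k G x₀) (s : Finset (Fin k)) :
    ∃ g : AMap k G x₀, Homotopic f g ∧
      ∀ z, g.toFun z = f.toFun (fun i => if i ∈ s then z i / 2 else z i) := by
  induction s using Finset.induction_on with
  | empty => exact ⟨f, Homotopic.refl _, fun z => by simp⟩
  | insert a s ha ih =>
    obtain ⟨g, hg, hgz⟩ := ih
    refine ⟨g.half a, hg.trans (half_homotopic g a), ?_⟩
    intro z
    show g.toFun (Function.update z a (z a / 2)) = _
    rw [hgz]
    congr 1
    funext i
    by_cases hia : i = a
    · subst hia; simp [ha]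
    · simp [hia]

/-- The halved map, as a finitely supported graph map. -/
theorem exists_halved (f : AMap k G x₀) :
    ∃ g : AMap k G x₀, Homotopic f g ∧ ∀ z, g.toFun z = f.toFun (fun i => z i / 2) := by
  obtain ⟨g, hg, h⟩ := exists_halve f Finset.univ
  exact ⟨g, hg, fun z => by rw [h]; simp⟩

end Pool.Agent.Helper71.AHtpy
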