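import Mathlib
import Pool.Agent.Helper71.SuspDefs
import Pool.Agent.Helper71.SuspHtpy
import Pool.Agent.Helper71.SuspGroup
import Pool.Agent.Helper71.SuspStretch
import Pool.Agent.Helper71.SuspLift

/-!
The collapse map `Σ_{n+1} X → Σ_n X` is bijective on `A_k` for `k < n` and surjective on `A_n`.
-/

namespace Pool.Agent.Helper71.AHtpy

open SimpleGraph

universe u v w

variable {V : Type u}

section truncate

variable {k : ℕ} {G : SimpleGraph V} {v : V}

open Classical in
/-- Replace the values of a graph map outside a box by `v`. -/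
noncomputable def trunc (f : (Fin k → ℤ) → V) (hf : IsGraphMap (grid (Fin k)) G f) (N : ℕ)
    (h : ∀ z : Fin k → ℤ, (∃ i, (N : ℤ) < |z i|) → Near G (f z) v) : AMap k G v where
  toFun z := if ∃ i, ((N + 1 : ℕ) : ℤ) < |z i| then v else f z
  isMap := by
    apply isGraphMap_grid
    intro x y i hi hj
    have hclose : ∀ j, |x j - y j| ≤ 1 := by
      intro j
      by_cases hji : j = i
      · subst hji; rw [hi]; simp
      · rw [hj j hji]; simp
    have habs : ∀ j, |x j| ≤ |y j| + 1 ∧ |y j| ≤ |x j| + 1 := by
      intro j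
      have := hclose j
      have h1 := abs_abs_sub_abs_le (x j) (y j)
      have h2 : |(|x j| - |y j|)| ≤ 1 := h1.trans this
      rw [abs_le] at h2
      omega
    split_ifs with h1 h2 h2
    · exact Near.refl _ _
    · obtain ⟨j, hj'⟩ := h1
      exact (h y ⟨j, by have := habs j; push_cast at hj'; omega⟩).symm
    · obtain ⟨j, hj'⟩ := h2
      exact h x ⟨j, by have := habs j; push_cast at hj'; omega⟩
    · exact hf.near (near_grid_of i (hclose i) hj)
  bounded := ⟨N + 1, fun z hz => by rw [if_pos hz]⟩

open Classical in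
theorem trunc_toFun (f : (Fin k → ℤ) → V) (hf : IsGraphMap (grid (Fin k)) G f) (N : ℕ)
    (h : ∀ z : Fin k → ℤ, (∃ i, (N : ℤ) < |z i|) → Near G (f z) v) (z : Fin k → ℤ) :
    (trunc f hf N h).toFun z = if ∃ i, ((N + 1 : ℕ) : ℤ) < |z i| then v else f z := rfl

end truncate

section surj

variable {X : SimpleGraph V} {n k : ℕ}

theorem surj (hn : 3 ≤ n) (hk : k ≤ n) (v : Quotient (suspSetoid V (n + 1))) :
    Function.Surjective (AGrp.map k (collapse_isGraphMap X n) v) := by
  classical
  intro a
  induction a using Quotient.inductionOn with | _ f =>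
  obtain ⟨N, hN⟩ := f.bounded
  have hcard : Fintype.card (Fin k) ≤ n := by simpa using hk
  have hb : ∀ z : Fin k → ℤ, (∃ i, ((2 * N + 2 : ℕ) : ℤ) < |z i|) →
      f.toFun (blk z) = collapse V n v := by
    rintro z ⟨i, hi⟩
    apply hN
    exact ⟨i, half_big N (z i) (by push_cast at hi; exact hi)⟩
  let g : AMap k (Susp X (n + 1)) v := trunc (lift f.toFun) (lift_isGraphMap f.isMap hn hcard)
    (2 * N + 2) (fun z hz => near_lift f.isMap hn hcard z v (hb z hz).symm)
  refine ⟨Quotient.mk _ g, ?_⟩
  apply Quotient.sound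
  obtain ⟨h, hfh, hh⟩ := exists_halved f
  refine Homotopic.trans (Step.homotopic ?_) hfh.symm
  intro z
  show Near (Susp X n) (collapse V n (g.toFun z)) (h.toFun z)
  rw [hh]
  show Near (Susp X n) (collapse V n (g.toFun z)) (f.toFun (blk z))
  show Near (Susp X n) (collapse V n (if ∃ i, ((2 * N + 2 + 1 : ℕ) : ℤ) < |z i| then v
    else lift f.toFun z)) (f.toFun (blk z))
  split_ifs with hz
  · obtain ⟨i, hi⟩ := hz
    rw [hb z ⟨i, by push_cast at hi ⊢; omega⟩]
    exact Near.refl _ _
  · exact collapse_lift f.isMap hn hcard z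

/-- Insert a time coordinate. -/
def comb (z : Fin k → ℤ) (t : ℤ) : Option (Fin k) → ℤ := fun o => o.elim t z

/-- Clamp an integer to `{0, …, m}`. -/
def clamp (m : ℕ) (t : ℤ) : Fin (m + 1) := ⟨min t.toNat m, by omega⟩

theorem inj (hn : 3 ≤ n) (hk : k + 1 ≤ n) (v : Quotient (suspSetoid V (n + 1))) :
    Function.Injective (AGrp.map k (collapse_isGraphMap X n) v) := by
  classical
  intro a b hab
  induction a using Quotient.inductionOn with | _ f₀ =>
  induction b using Quotient.inductionOn with | _ f₁ =>
  have hab : Homotopic (f₀.push (collapse_isGraphMap X n)) (f₁.push (collapse_isGraphMap X n)) :=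
    Quotient.exact hab
  apply Quotient.sound
  show Homotopic f₀ f₁
  obtain ⟨m, H, hH, h0, hm, N₂, hN₂⟩ := hab
  obtain ⟨N₀, hN₀⟩ := f₀.bounded
  obtain ⟨N₁, hN₁⟩ := f₁.bounded
  obtain ⟨N, hNN⟩ : ∃ N : ℕ, N₀ ≤ N ∧ N₁ ≤ N ∧ N₂ ≤ N := ⟨N₀ + N₁ + N₂, by omega, by omega, by omega⟩
  let F : (Option (Fin k) → ℤ) → Quotient (suspSetoid V n) := fun z =>
    H (fun i => z (some i), clamp m (z none))
  have hcard : Fintype.card (Option (Fin k)) ≤ n := by simpa using hk
  have hF : IsGraphMap (grid (Option (Fin k))) (Susp X n) F := by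
    apply isGraphMap_grid
    intro x y i hi hj
    cases i with
    | none =>
      have e : (fun i => x (some i)) = (fun i => y (some i)) := by
        funext j; exact hj (some j) (by simp)
      show Near (Susp X n) (H (fun i => x (some i), clamp m (x none)))
        (H (fun i => y (some i), clamp m (y none)))
      rw [e]
      by_cases hc : clamp m (x none) = clamp m (y none)
      · rw [hc]; exact Near.refl _ _
      · apply hH
        rw [boxProd_adj]
        refine Or.inr ⟨?_, rfl⟩
        rw [pathGraph_adj]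
        have hc' : (clamp m (x none)).val ≠ (clamp m (y none)).val := fun h => hc (Fin.ext h)
        unfold clamp at hc' ⊢
        simp only at hc' ⊢
        omega
    | some j =>
      have e : x none = y none := hj none (by simp)
      show Near (Susp X n) (H (fun i => x (some i), clamp m (x none)))
        (H (fun i => y (some i), clamp m (y none)))
      rw [e]
      apply hH
      rw [boxProd_adj]
      refine Or.inl ⟨?_, rfl⟩
      rw [grid_adj_iff]
      exact ⟨j, Or.inl hi, fun l hl => hj (some l) (by simpa using hl)⟩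
  have hbk : ∀ (z : Fin k → ℤ) (t : ℤ), (fun i => blk (comb z t) (some i)) = blk z := by
    intro z t; rfl
  have hFb : ∀ (z : Fin k → ℤ) (t : ℤ), F (blk (comb z t)) = H (blk z, clamp m (t / 2)) := by
    intro z t; rfl
  have hb : ∀ z : Fin k → ℤ, (∃ i, ((2 * N + 2 : ℕ) : ℤ) < |z i|) →
      ∀ N' : ℕ, N' ≤ N → ∃ i, (N' : ℤ) < |blk z i| := by
    rintro z ⟨i, hi⟩ N' hN'
    refine ⟨i, ?_⟩
    have := half_big N (z i) (by push_cast at hi; exact hi)
    have h2 : (N' : ℤ) ≤ N := by exact_mod_cast hN'
    exact lt_of_le_of_lt h2 this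
  have hcombnear : ∀ (x y : Fin k → ℤ) (s t : ℤ) , (grid (Fin k)).Adj x y → s = t →
      Near (grid (Option (Fin k))) (comb x s) (comb y t) := by
    intro x y s t hxy hst
    obtain ⟨i, hi, hj⟩ := grid_adj_iff.mp hxy
    subst hst
    right
    rw [grid_adj_iff]
    refine ⟨some i, hi, ?_⟩
    intro j hji
    cases j with
    | none => rfl
    | some l => exact hj l (by simpa using hji)
  have hlift := lift_isGraphMap hF hn hcard
  have hnear : ∀ (t : ℤ) (z : Fin k → ℤ), (∃ i, ((2 * N + 2 : ℕ) : ℤ) < |z i|) →
      Near (Susp X (n + 1)) (lift F (comb z t)) v := by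
    intro t z hz
    apply near_lift hF hn hcard
    rw [hFb]
    exact (hN₂ _ _ (hb z hz N₂ hNN.2.2)).symm
  let G : ℤ → AMap k (Susp X (n + 1)) v := fun t => trunc (fun z => lift F (comb z t))
    (fun a b hab => hlift.near (hcombnear a b t t hab rfl)) (2 * N + 2) (hnear t)
  have hstep : ∀ t, Step (G t) (G (t + 1)) := by
    intro t z
    show Near _ (if ∃ i, ((2 * N + 2 + 1 : ℕ) : ℤ) < |z i| then v else lift F (comb z t))
      (if ∃ i, ((2 * N + 2 + 1 : ℕ) : ℤ) < |z i| then v else lift F (comb z (t + 1)))
    split_ifs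
    · exact Near.refl _ _
    · apply hlift
      rw [grid_adj_iff]
      refine ⟨none, Or.inl rfl, ?_⟩
      intro j hj
      cases j with
      | none => exact absurd rfl hj
      | some l => rfl
  have hchain : ∀ d : ℕ, Homotopic (G 0) (G d) := by
    intro d
    induction d with
    | zero => exact Homotopic.refl _
    | succ d ih =>
      have := (hstep d).homotopic
      push_cast
      exact ih.trans this
  obtain ⟨g₀, hg₀, hg₀z⟩ := exists_halved f₀
  obtain ⟨g₁, hg₁, hg₁z⟩ := exists_halved f₁
  have hend0 : Step (G 0) g₀ := by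
    intro z
    rw [hg₀z]
    show Near _ (if ∃ i, ((2 * N + 2 + 1 : ℕ) : ℤ) < |z i| then v else lift F (comb z 0))
      (f₀.toFun (blk z))
    split_ifs with hz
    · rw [hN₀ (blk z) (hb z (by obtain ⟨i, hi⟩ := hz; exact ⟨i, by push_cast at hi ⊢; omega⟩)
        N₀ hNN.1)]
      exact Near.refl _ _
    · apply near_lift hF hn hcard
      rw [hFb]
      have : clamp m (0 / 2) = 0 := by ext; simp [clamp]
      rw [this, h0]
      rfl
  have hend1 : Step (G (2 * m : ℕ)) g₁ := by
    intro z
    rw [hg₁z]
    show Near _ (if ∃ i, ((2 * N + 2 + 1 : ℕ) : ℤ) < |z i| then v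
      else lift F (comb z (2 * m : ℕ))) (f₁.toFun (blk z))
    split_ifs with hz
    · rw [hN₁ (blk z) (hb z (by obtain ⟨i, hi⟩ := hz; exact ⟨i, by push_cast at hi ⊢; omega⟩)
        N₁ hNN.2.1)]
      exact Near.refl _ _
    · apply near_lift hF hn hcard
      rw [hFb]
      have : clamp m (((2 * m : ℕ) : ℤ) / 2) = Fin.last m := by
        ext
        unfold clamp
        simp only [Fin.val_last]
        omega
      rw [this, hm]
      rfl
  exact hg₀.trans (hend0.symm.homotopic.trans
    ((hchain (2 * m)).trans (hend1.homotopic.trans hg₁.symm)))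

end surj

section components

variable {X : SimpleGraph V} {n : ℕ}

theorem near_reachable {G : SimpleGraph V} {a b : V} (h : Near G a b) : G.Reachable a b := by
  rcases h with h | h
  · rw [h]
  · exact h.reachable

theorem reachable_zero (x y : V) (l : ℕ) (hl : l ≤ n) :
    (Susp X n).Reachable (pt n x l) (pt n y 0) := by
  induction l with
  | zero =>
    rw [(pt_eq_iff hl hl).mpr ⟨rfl, Or.inl rfl⟩]
  | succ l ih =>
    refine (near_reachable ?_).trans (ih (by omega))
    rw [near_pt_iff (by omega) (by omega)]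
    exact ⟨by omega, by right; right; right; right; left; rfl⟩

theorem susp_reachable (a b : Quotient (suspSetoid V n)) : (Susp X n).Reachable a b := by
  obtain ⟨x, l, hl, rfl⟩ := exists_pt a
  obtain ⟨y, m, hm, rfl⟩ := exists_pt b
  exact (reachable_zero x x l hl).trans (reachable_zero y x m hm).symm

theorem collapse_surjective (V : Type u) (n : ℕ) : Function.Surjective (collapse V n) := by
  intro b
  obtain ⟨y, m, hm, rfl⟩ := exists_pt b
  exact ⟨pt (n + 1) y (m + 1), by rw [collapse_pt _ (by omega)]; simp⟩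

theorem A0_bijective (X : SimpleGraph V) (n : ℕ) :
    Function.Bijective (A0map (collapse_isGraphMap X n)) := by
  constructor
  · intro a b _
    induction a using Quot.inductionOn with | _ a =>
    induction b using Quot.inductionOn with | _ b =>
    exact Quot.sound (susp_reachable a b)
  · intro b
    induction b using Quot.inductionOn with | _ b =>
    obtain ⟨a, rfl⟩ := collapse_surjective V n b
    exact ⟨Quot.mk _ a, rfl⟩

end components

end Pool.Agent.Helper71.AHtpy
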