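import Mathlib

/-!
# Regular tetrahedra inscribed in a surface in every orientation: normal form

Helper file for `MP_db6300_gt`.
-/

namespace Pool.Agent.Helper71.Tet

open Matrix

/-- The four vertices `(±1, ±1, ±1)` of the standard regular tetrahedron. -/
def sg : Fin 4 → Fin 3 → ℝ :=
  ![![1, 1, 1], ![1, -1, -1], ![-1, 1, -1], ![-1, -1, 1]]

/-- the quarter turn about the third axis -/
def Q0 : Matrix (Fin 3) (Fin 3) ℝ := !![0, -1, 0; 1, 0, 0; 0, 0, 1]

theorem Q0_orth : Q0 * Q0ᵀ = 1 := by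
  ext i j
  fin_cases i <;> fin_cases j <;> simp [Q0, Matrix.mul_apply, Fin.sum_univ_three]

theorem Q0_det : Q0.det = 1 := by
  simp [Q0, Matrix.det_fin_three]

/-- the permutation with `Q0 s_i = - s_{π i}` -/
def pm : Fin 4 → Fin 4 := ![1, 3, 0, 2]

theorem Q0_sg (i : Fin 4) : Q0 *ᵥ sg i = - sg (pm i) := by
  ext k
  fin_cases i <;> fin_cases k <;>
    simp [Q0, sg, pm, Matrix.mulVec, dotProduct, Fin.sum_univ_three]

theorem pm_surj (j : Fin 4) : ∃ i, pm i = j := by
  fin_cases j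
  · exact ⟨2, rfl⟩
  · exact ⟨0, rfl⟩
  · exact ⟨3, rfl⟩
  · exact ⟨1, rfl⟩

theorem mem_SO {R : Matrix (Fin 3) (Fin 3) ℝ} (h1 : R * Rᵀ = 1) (h2 : R.det = 1) :
    R ∈ Matrix.specialOrthogonalGroup (Fin 3) ℝ := by
  rw [Matrix.mem_specialOrthogonalGroup_iff]
  exact ⟨by rw [Matrix.mem_orthogonalGroup_iff]; exact h1, h2⟩

/-- The normal form: a set which admits the tetrahedron in every orientation admits
`λ M s_i + t` for every orthogonal `M`. -/
theorem normal_form (v : Fin 4 → Fin 3 → ℝ) (a : ℝ) (ha : 0 < a)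
    (hv : ∀ i j, i ≠ j → (v i - v j) ⬝ᵥ (v i - v j) = a ^ 2)
    (X : Set (Fin 3 → ℝ))
    (hX : ∀ R ∈ Matrix.specialOrthogonalGroup (Fin 3) ℝ, ∃ t, ∀ i, R *ᵥ v i + t ∈ X) :
    ∃ l : ℝ, 0 < l ∧ l ^ 2 = a ^ 2 / 8 ∧
      ∀ M : Matrix (Fin 3) (Fin 3) ℝ, M * Mᵀ = 1 → ∃ t, ∀ i, l • (M *ᵥ sg i) + t ∈ X := by
  have h8 : (0:ℝ) < Real.sqrt 8 := Real.sqrt_pos.mpr (by norm_num)
  have h8' : Real.sqrt 8 ^ 2 = 8 := Real.sq_sqrt (by norm_num)
  obtain ⟨l, hlpos, hl2⟩ : ∃ l : ℝ, 0 < l ∧ l ^ 2 = a ^ 2 / 8 :=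
    ⟨a / Real.sqrt 8, div_pos ha h8, by rw [div_pow, h8']⟩
  refine ⟨l, hlpos, hl2, ?_⟩
  -- the frame of the tetrahedron
  have hl0 : l ≠ 0 := ne_of_gt hlpos
  set E : Matrix (Fin 3) (Fin 3) ℝ := Matrix.of fun k =>
    ![(v 0 k + v 1 k - v 2 k - v 3 k) / (4 * l), (v 0 k - v 1 k + v 2 k - v 3 k) / (4 * l),
      (v 0 k - v 1 k - v 2 k + v 3 k) / (4 * l)] with hE
  have hE0 : ∀ k, E k 0 = (v 0 k + v 1 k - v 2 k - v 3 k) / (4 * l) := fun k => rfl
  have hE1 : ∀ k, E k 1 = (v 0 k - v 1 k + v 2 k - v 3 k) / (4 * l) := fun k => rfl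
  have hE2 : ∀ k, E k 2 = (v 0 k - v 1 k - v 2 k + v 3 k) / (4 * l) := fun k => rfl
  set g : Fin 3 → ℝ := fun k => (v 0 k + v 1 k + v 2 k + v 3 k) / 4 with hg
  have hEs : ∀ i, v i = l • (E *ᵥ sg i) + g := by
    intro i
    ext k
    simp only [Pi.add_apply, Pi.smul_apply, smul_eq_mul, Matrix.mulVec, dotProduct,
      Fin.sum_univ_three, hE0, hE1, hE2, hg]
    fin_cases i <;> simp [sg] <;> field_simp <;> ring
  have h01 := hv 0 1 (by decide)
  have h02 := hv 0 2 (by decide)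
  have h03 := hv 0 3 (by decide)
  have h12 := hv 1 2 (by decide)
  have h13 := hv 1 3 (by decide)
  have h23 := hv 2 3 (by decide)
  simp only [dotProduct, Fin.sum_univ_three, Pi.sub_apply] at h01 h02 h03 h12 h13 h23
  have hEE : Eᵀ * E = 1 := by
    have key : ∀ i j, (16 * l ^ 2) * (Eᵀ * E) i j
        = (16 * l ^ 2) * (1 : Matrix (Fin 3) (Fin 3) ℝ) i j := by
      intro i j
      have hsub : ∀ x y : ℝ, 16 * l ^ 2 * (x / (4 * l) * (y / (4 * l))) = x * y := by
        intro x y; field_simp; ring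
      simp only [Matrix.mul_apply, Matrix.transpose_apply, Fin.sum_univ_three, mul_add]
      fin_cases i <;> fin_cases j <;>
        simp only [Fin.zero_eta, Fin.mk_one, Fin.reduceFinMk, hE0, hE1, hE2, hsub,
          Matrix.one_apply_eq, Matrix.one_apply_ne, ne_eq, Fin.isValue, zero_ne_one, one_ne_zero,
          not_false_eq_true, Fin.reduceEq]
      · linear_combination (-1) * h01 + (-1) * h23 + h02 + h03 + h12 + h13 - 16 * hl2
      · linear_combination h03 - h12
      · linear_combination h02 - h13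
      · linear_combination h03 - h12
      · linear_combination (-1) * h02 + (-1) * h13 + h01 + h03 + h12 + h23 - 16 * hl2
      · linear_combination h01 - h23
      · linear_combination h02 - h13
      · linear_combination h01 - h23
      · linear_combination (-1) * h03 + (-1) * h12 + h01 + h02 + h13 + h23 - 16 * hl2
    ext i j
    have := key i j
    exact mul_left_cancel₀ (by positivity) this
  have hEE' : E * Eᵀ = 1 := mul_eq_one_comm.mp hEE
  have hdetE : E.det = 1 ∨ E.det = -1 := by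
    have : E.det * E.det = 1 := by
      have := congrArg Matrix.det hEE'
      rwa [Matrix.det_mul, Matrix.det_transpose, Matrix.det_one] at this
    exact mul_self_eq_one_iff.mp this
  -- first case
  have case1 : ∀ M : Matrix (Fin 3) (Fin 3) ℝ, M * Mᵀ = 1 → M.det * E.det = 1 →
      ∃ t, ∀ i, l • (M *ᵥ sg i) + t ∈ X := by
    intro M hM hdet
    have hR : M * Eᵀ ∈ Matrix.specialOrthogonalGroup (Fin 3) ℝ := by
      apply mem_SO
      · rw [Matrix.transpose_mul, Matrix.transpose_transpose, Matrix.mul_assoc,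
          ← Matrix.mul_assoc Eᵀ, hEE, Matrix.one_mul, hM]
      · rw [Matrix.det_mul, Matrix.det_transpose, hdet]
    obtain ⟨t, ht⟩ := hX _ hR
    refine ⟨(M * Eᵀ) *ᵥ g + t, fun i => ?_⟩
    have := ht i
    rw [hEs i, Matrix.mulVec_add, Matrix.mulVec_smul, Matrix.mulVec_mulVec, Matrix.mul_assoc, hEE,
      Matrix.mul_one, add_assoc] at this
    exact this
  intro M hM
  have hdetM : M.det = 1 ∨ M.det = -1 := by
    have : M.det * M.det = 1 := by
      have := congrArg Matrix.det hM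
      rwa [Matrix.det_mul, Matrix.det_transpose, Matrix.det_one] at this
    exact mul_self_eq_one_iff.mp this
  by_cases hsame : M.det * E.det = 1
  · exact case1 M hM hsame
  · have hneg : M.det * E.det = -1 := by
      rcases hdetM with h | h <;> rcases hdetE with h' | h' <;> rw [h, h'] at hsame ⊢ <;>
        first
        | (norm_num; done)
        | exact absurd (by norm_num) hsame
    have hM' : (-(M * Q0)) * (-(M * Q0))ᵀ = 1 := by
      rw [Matrix.transpose_neg, Matrix.neg_mul, Matrix.mul_neg, neg_neg, Matrix.transpose_mul,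
        Matrix.mul_assoc, ← Matrix.mul_assoc Q0, Q0_orth, Matrix.one_mul, hM]
    have hd' : (-(M * Q0)).det * E.det = 1 := by
      rw [Matrix.det_neg, Matrix.det_mul, Q0_det]
      simp only [Fintype.card_fin]
      linarith [hneg]
    obtain ⟨t, ht⟩ := case1 _ hM' hd'
    refine ⟨t, fun j => ?_⟩
    obtain ⟨i, rfl⟩ := pm_surj j
    have := ht i
    rw [Matrix.neg_mulVec, ← Matrix.mulVec_mulVec, Q0_sg, Matrix.mulVec_neg, neg_neg] at this
    exact this


/-- Every position of the tetrahedron is `l M s_i + p` with `M` orthogonal. -/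
theorem frame (v : Fin 4 → Fin 3 → ℝ) (a : ℝ) (ha : 0 < a)
    (hv : ∀ i j, i ≠ j → (v i - v j) ⬝ᵥ (v i - v j) = a ^ 2) :
    ∃ l : ℝ, 0 < l ∧ l ^ 2 = a ^ 2 / 8 ∧
      ∀ R ∈ Matrix.specialOrthogonalGroup (Fin 3) ℝ, ∀ t : Fin 3 → ℝ,
        ∃ (M : Matrix (Fin 3) (Fin 3) ℝ) (p : Fin 3 → ℝ), M * Mᵀ = 1 ∧
          ∀ i, R *ᵥ v i + t = l • (M *ᵥ sg i) + p := by
  have h8 : (0:ℝ) < Real.sqrt 8 := Real.sqrt_pos.mpr (by norm_num)
  have h8' : Real.sqrt 8 ^ 2 = 8 := Real.sq_sqrt (by norm_num)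
  obtain ⟨l, hlpos, hl2⟩ : ∃ l : ℝ, 0 < l ∧ l ^ 2 = a ^ 2 / 8 :=
    ⟨a / Real.sqrt 8, div_pos ha h8, by rw [div_pow, h8']⟩
  refine ⟨l, hlpos, hl2, ?_⟩
  -- the frame of the tetrahedron
  have hl0 : l ≠ 0 := ne_of_gt hlpos
  set E : Matrix (Fin 3) (Fin 3) ℝ := Matrix.of fun k =>
    ![(v 0 k + v 1 k - v 2 k - v 3 k) / (4 * l), (v 0 k - v 1 k + v 2 k - v 3 k) / (4 * l),
      (v 0 k - v 1 k - v 2 k + v 3 k) / (4 * l)] with hE
  have hE0 : ∀ k, E k 0 = (v 0 k + v 1 k - v 2 k - v 3 k) / (4 * l) := fun k => rfl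
  have hE1 : ∀ k, E k 1 = (v 0 k - v 1 k + v 2 k - v 3 k) / (4 * l) := fun k => rfl
  have hE2 : ∀ k, E k 2 = (v 0 k - v 1 k - v 2 k + v 3 k) / (4 * l) := fun k => rfl
  set g : Fin 3 → ℝ := fun k => (v 0 k + v 1 k + v 2 k + v 3 k) / 4 with hg
  have hEs : ∀ i, v i = l • (E *ᵥ sg i) + g := by
    intro i
    ext k
    simp only [Pi.add_apply, Pi.smul_apply, smul_eq_mul, Matrix.mulVec, dotProduct,
      Fin.sum_univ_three, hE0, hE1, hE2, hg]
    fin_cases i <;> simp [sg] <;> field_simp <;> ring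
  have h01 := hv 0 1 (by decide)
  have h02 := hv 0 2 (by decide)
  have h03 := hv 0 3 (by decide)
  have h12 := hv 1 2 (by decide)
  have h13 := hv 1 3 (by decide)
  have h23 := hv 2 3 (by decide)
  simp only [dotProduct, Fin.sum_univ_three, Pi.sub_apply] at h01 h02 h03 h12 h13 h23
  have hEE : Eᵀ * E = 1 := by
    have key : ∀ i j, (16 * l ^ 2) * (Eᵀ * E) i j
        = (16 * l ^ 2) * (1 : Matrix (Fin 3) (Fin 3) ℝ) i j := by
      intro i j
      have hsub : ∀ x y : ℝ, 16 * l ^ 2 * (x / (4 * l) * (y / (4 * l))) = x * y := by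
        intro x y; field_simp; ring
      simp only [Matrix.mul_apply, Matrix.transpose_apply, Fin.sum_univ_three, mul_add]
      fin_cases i <;> fin_cases j <;>
        simp only [Fin.zero_eta, Fin.mk_one, Fin.reduceFinMk, hE0, hE1, hE2, hsub,
          Matrix.one_apply_eq, Matrix.one_apply_ne, ne_eq, Fin.isValue, zero_ne_one, one_ne_zero,
          not_false_eq_true, Fin.reduceEq]
      · linear_combination (-1) * h01 + (-1) * h23 + h02 + h03 + h12 + h13 - 16 * hl2
      · linear_combination h03 - h12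
      · linear_combination h02 - h13
      · linear_combination h03 - h12
      · linear_combination (-1) * h02 + (-1) * h13 + h01 + h03 + h12 + h23 - 16 * hl2
      · linear_combination h01 - h23
      · linear_combination h02 - h13
      · linear_combination h01 - h23
      · linear_combination (-1) * h03 + (-1) * h12 + h01 + h02 + h13 + h23 - 16 * hl2
    ext i j
    have := key i j
    exact mul_left_cancel₀ (by positivity) this
  have hEE' : E * Eᵀ = 1 := mul_eq_one_comm.mp hEE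
  intro R hR t
  rw [Matrix.mem_specialOrthogonalGroup_iff, Matrix.mem_orthogonalGroup_iff] at hR
  have hR1 : R * Rᵀ = 1 := hR.1
  refine ⟨R * E, R *ᵥ g + t, ?_, fun i => ?_⟩
  · rw [Matrix.transpose_mul, Matrix.mul_assoc, ← Matrix.mul_assoc E, hEE', Matrix.one_mul, hR1]
  · rw [hEs i, Matrix.mulVec_add, Matrix.mulVec_smul, Matrix.mulVec_mulVec, add_assoc]

end Pool.Agent.Helper71.Tet
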