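import Mathlib
import Pool.Agent.Helper71.TetBase

namespace Pool.Agent.Helper71.Tet

open Matrix

/-- the frame with first two tetrahedral directions `p`, `q` -/
noncomputable def fr (p q : Fin 3 → ℝ) : Matrix (Fin 3) (Fin 3) ℝ :=
  Matrix.of fun k => ![(p k + q k) / 2, (p k - q k + (p ⨯₃ q) k) / 4, (p k - q k - (p ⨯₃ q) k) / 4]

theorem fr_sg0 (p q : Fin 3 → ℝ) : fr p q *ᵥ sg 0 = p := by
  ext k
  simp only [fr, Matrix.mulVec, dotProduct, Fin.sum_univ_three, Matrix.of_apply, sg,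
    Matrix.cons_val_zero, Matrix.cons_val_one, Matrix.cons_val]
  ring

theorem fr_sg1 (p q : Fin 3 → ℝ) : fr p q *ᵥ sg 1 = q := by
  ext k
  simp only [fr, Matrix.mulVec, dotProduct, Fin.sum_univ_three, Matrix.of_apply, sg,
    Matrix.cons_val_zero, Matrix.cons_val_one, Matrix.cons_val]
  ring

theorem fr_orth (p q : Fin 3 → ℝ) (hp : p ⬝ᵥ p = 3) (hq : q ⬝ᵥ q = 3) (hpq : p ⬝ᵥ q = -1) :
    fr p q * (fr p q)ᵀ = 1 := by
  apply mul_eq_one_comm.mp
  simp only [dotProduct, Fin.sum_univ_three] at hp hq hpq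
  ext i j
  simp only [Matrix.mul_apply, Matrix.transpose_apply, Fin.sum_univ_three, fr, Matrix.of_apply,
    cross_apply]
  fin_cases i <;> fin_cases j <;>
    simp only [Fin.zero_eta, Fin.mk_one, Fin.reduceFinMk, Fin.isValue, Matrix.cons_val_zero,
      Matrix.cons_val_one, Matrix.cons_val, Matrix.one_apply_eq]
  · linear_combination (1/4) * hp + (1/4) * hq + (1/2) * hpq
  · rw [Matrix.one_apply_ne (by decide)]
    linear_combination (1/8) * hp - (1/8) * hq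
  · rw [Matrix.one_apply_ne (by decide)]
    linear_combination (1/8) * hp - (1/8) * hq
  · rw [Matrix.one_apply_ne (by decide)]
    linear_combination (1/8) * hp - (1/8) * hq
  · linear_combination (1/16) * (1 + (q 0 * q 0 + q 1 * q 1 + q 2 * q 2)) * hp + (1/4) * hq - (1/16) * (1 + (p 0 * q 0 + p 1 * q 1 + p 2 * q 2)) * hpq
  · rw [Matrix.one_apply_ne (by decide)]
    linear_combination (1/16) * (1 - (q 0 * q 0 + q 1 * q 1 + q 2 * q 2)) * hp - (1/8) * hq + (1/16) * ((p 0 * q 0 + p 1 * q 1 + p 2 * q 2) - 3) * hpq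
  · rw [Matrix.one_apply_ne (by decide)]
    linear_combination (1/8) * hp - (1/8) * hq
  · rw [Matrix.one_apply_ne (by decide)]
    linear_combination (1/16) * (1 - (q 0 * q 0 + q 1 * q 1 + q 2 * q 2)) * hp - (1/8) * hq + (1/16) * ((p 0 * q 0 + p 1 * q 1 + p 2 * q 2) - 3) * hpq
  · linear_combination (1/16) * (1 + (q 0 * q 0 + q 1 * q 1 + q 2 * q 2)) * hp + (1/4) * hq - (1/16) * (1 + (p 0 * q 0 + p 1 * q 1 + p 2 * q 2)) * hpq

/-- the pair of antipodal points `t ± l p` lies in `X` -/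
def Dp (X : Set (Fin 3 → ℝ)) (l : ℝ) (t p : Fin 3 → ℝ) : Prop :=
  l • p + t ∈ X ∧ -(l • p) + t ∈ X

theorem sg_sq (i : Fin 4) : sg i ⬝ᵥ sg i = 3 := by
  fin_cases i <;> simp [sg, dotProduct, Fin.sum_univ_three] <;> norm_num

theorem orth_sq (M : Matrix (Fin 3) (Fin 3) ℝ) (hM : M * Mᵀ = 1) (i : Fin 4) :
    (M *ᵥ sg i) ⬝ᵥ (M *ᵥ sg i) = 3 := by
  have hM' : Mᵀ * M = 1 := mul_eq_one_comm.mp hM
  rw [Matrix.dotProduct_mulVec, ← Matrix.mulVec_transpose, Matrix.mulVec_mulVec, hM',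
    Matrix.one_mulVec, sg_sq]

theorem dot_self_nonneg' (x : Fin 3 → ℝ) : 0 ≤ x ⬝ᵥ x := by
  simp only [dotProduct, Fin.sum_univ_three]
  nlinarith [mul_self_nonneg (x 0), mul_self_nonneg (x 1), mul_self_nonneg (x 2)]

theorem eq_of_dot_self (x : Fin 3 → ℝ) (h : x ⬝ᵥ x ≤ 0) : x = 0 := by
  simp only [dotProduct, Fin.sum_univ_three] at h
  ext k
  have h0 := mul_self_nonneg (x 0)
  have h1 := mul_self_nonneg (x 1)
  have h2 := mul_self_nonneg (x 2)
  have e0 : x 0 = 0 := mul_self_eq_zero.mp (by linarith)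
  have e1 : x 1 = 0 := mul_self_eq_zero.mp (by linarith)
  have e2 : x 2 = 0 := mul_self_eq_zero.mp (by linarith)
  fin_cases k
  · exact e0
  · exact e1
  · exact e2

section
set_option linter.unusedSectionVars false
variable {X : Set (Fin 3 → ℝ)} {l : ℝ} (hl : 0 < l)
  (hX : ∀ x ∈ X, ∀ y ∈ X, (x - y) ⬝ᵥ (x - y) ≤ 12 * l ^ 2)
include hl hX

theorem antipode {M : Matrix (Fin 3) (Fin 3) ℝ} (hM : M * Mᵀ = 1) {t t' : Fin 3 → ℝ}
    (h : ∀ i, l • (M *ᵥ sg i) + t ∈ X) (h' : ∀ i, l • ((-M) *ᵥ sg i) + t' ∈ X) : t = t' := by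
  have hsum : ∀ k, (M *ᵥ sg 0) k + (M *ᵥ sg 1) k + (M *ᵥ sg 2) k + (M *ᵥ sg 3) k = 0 := by
    intro k
    simp only [Matrix.mulVec, dotProduct, Fin.sum_univ_three, sg, Matrix.cons_val_zero,
      Matrix.cons_val_one, Matrix.cons_val]
    ring
  have key : ∀ i, (t - t') ⬝ᵥ (t - t') + 4 * l * ((M *ᵥ sg i) ⬝ᵥ (t - t')) ≤ 0 := by
    intro i
    have h1 := hX _ (h i) _ (h' i)
    have h2 := orth_sq M hM i
    rw [Matrix.neg_mulVec] at h1
    simp only [dotProduct, Fin.sum_univ_three, Pi.add_apply, Pi.sub_apply, Pi.smul_apply,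
      Pi.neg_apply, smul_eq_mul] at h1 h2 ⊢
    nlinarith [h1, h2]
  have k0 := key 0
  have k1 := key 1
  have k2 := key 2
  have k3 := key 3
  have s0 := hsum 0
  have s1 := hsum 1
  have s2 := hsum 2
  have : (t - t') ⬝ᵥ (t - t') ≤ 0 := by
    simp only [dotProduct, Fin.sum_univ_three, Pi.sub_apply] at k0 k1 k2 k3 ⊢
    have e : l * ((t 0 - t' 0) * ((M *ᵥ sg 0) 0 + (M *ᵥ sg 1) 0 + (M *ᵥ sg 2) 0 + (M *ᵥ sg 3) 0)
      + (t 1 - t' 1) * ((M *ᵥ sg 0) 1 + (M *ᵥ sg 1) 1 + (M *ᵥ sg 2) 1 + (M *ᵥ sg 3) 1)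
      + (t 2 - t' 2) * ((M *ᵥ sg 0) 2 + (M *ᵥ sg 1) 2 + (M *ᵥ sg 2) 2 + (M *ᵥ sg 3) 2)) = 0 := by
      rw [s0, s1, s2]; ring
    linarith
  exact sub_eq_zero.mp (eq_of_dot_self _ this)

theorem share {t t' p : Fin 3 → ℝ} (hp : p ⬝ᵥ p = 3) (h : Dp X l t p) (h' : Dp X l t' p) :
    t = t' := by
  have h1 := hX _ h.1 _ h'.2
  have h2 := hX _ h'.1 _ h.2
  have : (t - t') ⬝ᵥ (t - t') ≤ 0 := by
    simp only [dotProduct, Fin.sum_univ_three, Pi.add_apply, Pi.sub_apply, Pi.smul_apply,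
      Pi.neg_apply, smul_eq_mul] at h1 h2 hp ⊢
    nlinarith [h1, h2, hp]
  exact sub_eq_zero.mp (eq_of_dot_self _ this)

theorem exists_center
    (hM : ∀ M : Matrix (Fin 3) (Fin 3) ℝ, M * Mᵀ = 1 → ∃ t, ∀ i, l • (M *ᵥ sg i) + t ∈ X) :
    ∃ c, ∀ p : Fin 3 → ℝ, p ⬝ᵥ p = 3 → l • p + c ∈ X := by
  have hD : ∀ M : Matrix (Fin 3) (Fin 3) ℝ, M * Mᵀ = 1 → ∃ t, ∀ i, Dp X l t (M *ᵥ sg i) := by
    intro M h1
    obtain ⟨t, ht⟩ := hM M h1
    have h2 : (-M) * (-M)ᵀ = 1 := by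
      rw [Matrix.transpose_neg, Matrix.neg_mul, Matrix.mul_neg, neg_neg, h1]
    obtain ⟨t', ht'⟩ := hM (-M) h2
    have := antipode hl hX h1 ht ht'
    subst this
    refine ⟨t, fun i => ⟨ht i, ?_⟩⟩
    have := ht' i
    rwa [Matrix.neg_mulVec, smul_neg] at this
  obtain ⟨c, hc⟩ := hD 1 (by simp)
  simp only [Matrix.one_mulVec] at hc
  -- the case of a nonnegative scalar product with `s_0`
  have main : ∀ p : Fin 3 → ℝ, p ⬝ᵥ p = 3 → 0 ≤ p ⬝ᵥ sg 0 → Dp X l c p := by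
    intro p hp hd
    set s : Fin 3 → ℝ := sg 0 with hs
    have hss : s ⬝ᵥ s = 3 := sg_sq 0
    by_cases h3 : p ⬝ᵥ s = 3
    · have : p = s := by
        apply sub_eq_zero.mp
        apply eq_of_dot_self
        simp only [dotProduct, Fin.sum_univ_three, Pi.sub_apply] at hp hss h3 ⊢
        nlinarith
      rw [this]
      exact hc 0
    · set d : ℝ := p ⬝ᵥ s with hdd
      have hlt : d < 3 := by
        have : 0 ≤ (p - s) ⬝ᵥ (p - s) := dot_self_nonneg' _
        have e : (p - s) ⬝ᵥ (p - s) = 6 - 2 * d := by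
          rw [hdd]
          simp only [dotProduct, Fin.sum_univ_three, Pi.sub_apply] at hp hss ⊢
          linear_combination hp + hss
        rw [e] at this
        exact lt_of_le_of_ne (by linarith) h3
      have hpos : 0 < (3 + d) * (9 - d ^ 2) := by
        have : 0 < 9 - d ^ 2 := by nlinarith
        positivity
      set y : ℝ := Real.sqrt ((7 + 3 * d) / ((3 + d) * (9 - d ^ 2))) with hy
      have hy2 : y ^ 2 = (7 + 3 * d) / ((3 + d) * (9 - d ^ 2)) :=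
        Real.sq_sqrt (by positivity)
      set w : Fin 3 → ℝ := (-(1 / (3 + d))) • (p + s) + y • (p ⨯₃ s) with hw
      have h3d : (3 + d) ≠ 0 := by positivity
      have hcr : (p ⨯₃ s) ⬝ᵥ (p ⨯₃ s) = 9 - d ^ 2 := by
        rw [cross_dot_cross, hp, hss, dotProduct_comm s p, ← hdd]; ring
      have hcp : (p ⨯₃ s) ⬝ᵥ p = 0 := by rw [dotProduct_comm, dot_self_cross]
      have hcs : (p ⨯₃ s) ⬝ᵥ s = 0 := by rw [dotProduct_comm, dot_cross_self]
      have hwp : w ⬝ᵥ p = -1 := by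
        rw [hw, add_dotProduct, smul_dotProduct, smul_dotProduct, add_dotProduct, hp,
          dotProduct_comm s p, ← hdd, hcp, smul_eq_mul, smul_eq_mul]
        field_simp
        ring
      have hws : w ⬝ᵥ s = -1 := by
        rw [hw, add_dotProduct, smul_dotProduct, smul_dotProduct, add_dotProduct, hss,
          ← hdd, hcs, smul_eq_mul, smul_eq_mul]
        field_simp
        ring
      have hww : w ⬝ᵥ w = 3 := by
        have hwc : w ⬝ᵥ (p ⨯₃ s) = y * (9 - d ^ 2) := by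
          rw [hw, add_dotProduct, smul_dotProduct, smul_dotProduct, add_dotProduct,
            dotProduct_comm p, dotProduct_comm s, hcp, hcs, hcr, smul_eq_mul, smul_eq_mul]
          ring
        have : w ⬝ᵥ w = (-(1 / (3 + d))) * (w ⬝ᵥ p + w ⬝ᵥ s) + y * (w ⬝ᵥ (p ⨯₃ s)) := by
          nth_rewrite 2 [hw]
          rw [dotProduct_add, dotProduct_smul, dotProduct_smul, dotProduct_add, smul_eq_mul,
            smul_eq_mul]
        rw [this, hwp, hws, hwc]
        have h9 : (9 - d ^ 2) ≠ 0 := by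
          intro h0; rw [h0] at hpos; simp at hpos
        have : y * (y * (9 - d ^ 2)) = (7 + 3 * d) / (3 + d) := by
          rw [← mul_assoc, ← pow_two, hy2]
          field_simp
        rw [this]
        field_simp
        ring
      have hpw : p ⬝ᵥ w = -1 := by rw [dotProduct_comm]; exact hwp
      have hsw : s ⬝ᵥ w = -1 := by rw [dotProduct_comm]; exact hws
      obtain ⟨t1, ht1⟩ := hD _ (fr_orth p w hp hww hpw)
      obtain ⟨t2, ht2⟩ := hD _ (fr_orth s w hss hww hsw)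
      have a1 := ht1 0
      have a2 := ht1 1
      have b1 := ht2 0
      have b2 := ht2 1
      rw [fr_sg0] at a1 b1
      rw [fr_sg1] at a2 b2
      have e1 : t1 = t2 := share hl hX hww a2 b2
      have e2 : t2 = c := share hl hX hss b1 (hc 0)
      rw [e1, e2] at a1
      exact a1
  refine ⟨c, fun p hp => ?_⟩
  by_cases hd : 0 ≤ p ⬝ᵥ sg 0
  · exact (main p hp hd).1
  · have hp' : (-p) ⬝ᵥ (-p) = 3 := by rw [neg_dotProduct, dotProduct_neg, neg_neg, hp]
    have := (main (-p) hp' (by rw [neg_dotProduct]; linarith)).2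
    rwa [smul_neg, neg_neg] at this

theorem sphere_bound {c : Fin 3 → ℝ} (hc : ∀ p : Fin 3 → ℝ, p ⬝ᵥ p = 3 → l • p + c ∈ X)
    {x : Fin 3 → ℝ} (hx : x ∈ X) : (x - c) ⬝ᵥ (x - c) ≤ 3 * l ^ 2 := by
  by_contra hcon
  push Not at hcon
  set z := x - c with hz
  set r := Real.sqrt (z ⬝ᵥ z) with hr
  have hr2 : r ^ 2 = z ⬝ᵥ z := Real.sq_sqrt (dot_self_nonneg' z)
  have hzz : 0 < z ⬝ᵥ z := by nlinarith [sq_nonneg l]
  have hrpos : 0 < r := Real.sqrt_pos.mpr hzz
  have h3 : Real.sqrt 3 ^ 2 = 3 := Real.sq_sqrt (by norm_num)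
  have h3pos : 0 < Real.sqrt 3 := Real.sqrt_pos.mpr (by norm_num)
  have hp : ((-(Real.sqrt 3 / r)) • z) ⬝ᵥ ((-(Real.sqrt 3 / r)) • z) = 3 := by
    rw [smul_dotProduct, dotProduct_smul, smul_eq_mul, smul_eq_mul, ← hr2]
    field_simp
    exact h3
  have h1 := hX _ hx _ (hc _ hp)
  have e : x - (l • ((-(Real.sqrt 3 / r)) • z) + c) = (1 + l * (Real.sqrt 3 / r)) • z := by
    rw [hz, add_smul, one_smul, smul_smul, mul_neg, neg_smul]
    abel
  rw [e, smul_dotProduct, dotProduct_smul, smul_eq_mul, smul_eq_mul, ← hr2] at h1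
  have h4 : (1 + l * (Real.sqrt 3 / r)) * ((1 + l * (Real.sqrt 3 / r)) * r ^ 2)
      = (r + l * Real.sqrt 3) ^ 2 := by
    field_simp
  rw [h4] at h1
  have h5 : (l * Real.sqrt 3) ^ 2 < r ^ 2 := by
    rw [mul_pow, h3, hr2]; linarith
  have h6 : l * Real.sqrt 3 < r := lt_of_pow_lt_pow_left₀ 2 hrpos.le h5
  have h7 : (2 * (l * Real.sqrt 3)) ^ 2 = 12 * l ^ 2 := by
    rw [mul_pow, mul_pow, h3]; ring
  have h8 : 2 * (l * Real.sqrt 3) < r + l * Real.sqrt 3 := by linarith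
  have h9 : (2 * (l * Real.sqrt 3)) ^ 2 < (r + l * Real.sqrt 3) ^ 2 :=
    pow_lt_pow_left₀ h8 (by positivity) two_ne_zero
  linarith

end

/-- The diameter theorem. -/
theorem diam_core (v : Fin 4 → Fin 3 → ℝ) (a : ℝ) (ha : 0 < a)
    (hv : ∀ i j, i ≠ j → (v i - v j) ⬝ᵥ (v i - v j) = a ^ 2)
    (K : Set (Fin 3 → ℝ)) (hconv : Convex ℝ K) (hcl : IsClosed K)
    (hadm : ∀ R ∈ Matrix.specialOrthogonalGroup (Fin 3) ℝ, ∃ t : Fin 3 → ℝ, ∀ i,
      R *ᵥ v i + t ∈ frontier K)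
    (hdiam : ∀ x ∈ frontier K, ∀ y ∈ frontier K, (x - y) ⬝ᵥ (x - y) ≤ 3 * a ^ 2 / 2) :
    ∃ c : Fin 3 → ℝ, frontier K = {x | (x - c) ⬝ᵥ (x - c) = 3 * a ^ 2 / 8} := by
  obtain ⟨l, hl, hl2, hM⟩ := normal_form v a ha hv _ hadm
  have ha2 : a ^ 2 = 8 * l ^ 2 := by rw [hl2]; ring
  have hX : ∀ x ∈ frontier K, ∀ y ∈ frontier K, (x - y) ⬝ᵥ (x - y) ≤ 12 * l ^ 2 := by
    intro x hx y hy
    have := hdiam x hx y hy
    rw [ha2] at this
    linarith
  obtain ⟨c, hc⟩ := exists_center hl hX hM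
  have hfK : frontier K ⊆ K := hcl.frontier_subset
  refine ⟨c, ?_⟩
  have e38 : 3 * a ^ 2 / 8 = 3 * l ^ 2 := by rw [ha2]; ring
  rw [e38]
  have h3 : Real.sqrt 3 ^ 2 = 3 := Real.sq_sqrt (by norm_num)
  have h3pos : 0 < Real.sqrt 3 := Real.sqrt_pos.mpr (by norm_num)
  -- every vector is a nonnegative multiple of `l p`
  have hpolar : ∀ z : Fin 3 → ℝ, ∃ (p : Fin 3 → ℝ) (θ : ℝ), p ⬝ᵥ p = 3 ∧ 0 ≤ θ ∧
      z = θ • (l • p) ∧ z ⬝ᵥ z = θ ^ 2 * (3 * l ^ 2) := by
    intro z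
    by_cases hz : z ⬝ᵥ z = 0
    · refine ⟨sg 0, 0, sg_sq 0, le_refl _, ?_, ?_⟩
      · rw [zero_smul]; exact eq_of_dot_self z (le_of_eq hz)
      · rw [hz]; ring
    · have hzz : 0 < z ⬝ᵥ z := lt_of_le_of_ne (dot_self_nonneg' z) (Ne.symm hz)
      set r := Real.sqrt (z ⬝ᵥ z) with hr
      have hr2 : r ^ 2 = z ⬝ᵥ z := Real.sq_sqrt hzz.le
      have hrpos : 0 < r := Real.sqrt_pos.mpr hzz
      refine ⟨(Real.sqrt 3 / r) • z, r / (l * Real.sqrt 3), ?_, by positivity, ?_, ?_⟩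
      · rw [smul_dotProduct, dotProduct_smul, smul_eq_mul, smul_eq_mul, ← hr2]
        field_simp
        exact h3
      · rw [smul_smul, smul_smul]
        rw [show r / (l * Real.sqrt 3) * l * (Real.sqrt 3 / r) = 1 by field_simp, one_smul]
      · rw [← hr2, div_pow, mul_pow, h3]
        field_simp
  ext x
  simp only [Set.mem_ofPred_eq]
  constructor
  · intro hx
    refine le_antisymm (sphere_bound hl hX hc hx) ?_
    by_contra hlt
    push Not at hlt
    -- the open ball is inside `K`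
    have hball : {y : Fin 3 → ℝ | (y - c) ⬝ᵥ (y - c) < 3 * l ^ 2} ⊆ K := by
      intro y hy
      simp only [Set.mem_ofPred_eq] at hy
      obtain ⟨p, θ, hp, hθ, hz, hzz⟩ := hpolar (y - c)
      have hl2' : 0 < 3 * l ^ 2 := by positivity
      have hθ1 : θ ≤ 1 := by
        by_contra h
        push Not at h
        rw [hzz] at hy
        have h1 : 1 < θ ^ 2 := by nlinarith
        nlinarith
      have hp' : (-p) ⬝ᵥ (-p) = 3 := by rw [neg_dotProduct, dotProduct_neg, neg_neg, hp]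
      have k1 := hfK (hc p hp)
      have k2 := hfK (hc (-p) hp')
      have := hconv k1 k2 (show (0:ℝ) ≤ (1 + θ) / 2 by positivity)
        (show (0:ℝ) ≤ (1 - θ) / 2 by linarith) (by ring)
      have e : ((1 + θ) / 2) • (l • p + c) + ((1 - θ) / 2) • (l • (-p) + c) = y := by
        have : y = θ • (l • p) + c := by rw [← hz]; simp
        rw [this]
        ext k
        simp only [Pi.add_apply, Pi.smul_apply, smul_eq_mul, Pi.neg_apply]
        ring
      rwa [e] at this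
    have hopen : IsOpen {y : Fin 3 → ℝ | (y - c) ⬝ᵥ (y - c) < 3 * l ^ 2} := by
      apply isOpen_lt
      · simp only [dotProduct, Fin.sum_univ_three, Pi.sub_apply]
        fun_prop
      · exact continuous_const
    have hint : x ∈ interior K := interior_maximal hball hopen hlt
    exact hx.2 hint
  · intro hx
    obtain ⟨p, θ, hp, hθ, hz, hzz⟩ := hpolar (x - c)
    have hl2' : 0 < 3 * l ^ 2 := by positivity
    have hθ1 : θ = 1 := by
      rw [hx] at hzz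
      have : θ ^ 2 = 1 := by
        have : (3 * l ^ 2) * (θ ^ 2 - 1) = 0 := by linarith
        have := (mul_eq_zero.mp this).resolve_left (ne_of_gt hl2')
        linarith
      nlinarith
    have := hc p hp
    rw [hθ1, one_smul] at hz
    rwa [← hz, sub_add_cancel] at this

end Pool.Agent.Helper71.Tet
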