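import Mathlib
import Pool.Agent.Helper71.TetDiam

namespace Pool.Agent.Helper71.Tet

open Matrix

theorem cs (x y : Fin 3 → ℝ) : (x ⬝ᵥ y) ^ 2 ≤ (x ⬝ᵥ x) * (y ⬝ᵥ y) := by
  simp only [dotProduct, Fin.sum_univ_three]
  nlinarith [sq_nonneg (x 0 * y 1 - x 1 * y 0), sq_nonneg (x 0 * y 2 - x 2 * y 0),
    sq_nonneg (x 1 * y 2 - x 2 * y 1)]

theorem sum_sg (M : Matrix (Fin 3) (Fin 3) ℝ) (k : Fin 3) :
    (M *ᵥ sg 0) k + (M *ᵥ sg 1) k + (M *ᵥ sg 2) k + (M *ᵥ sg 3) k = 0 := by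
  simp only [Matrix.mulVec, dotProduct, Fin.sum_univ_three, sg, Matrix.cons_val_zero,
    Matrix.cons_val_one, Matrix.cons_val]
  ring

/-- the four directions form a tight frame -/
theorem tight (M : Matrix (Fin 3) (Fin 3) ℝ) (hM : M * Mᵀ = 1) (e : Fin 3 → ℝ) :
    (e ⬝ᵥ (M *ᵥ sg 0)) ^ 2 + (e ⬝ᵥ (M *ᵥ sg 1)) ^ 2 + (e ⬝ᵥ (M *ᵥ sg 2)) ^ 2
      + (e ⬝ᵥ (M *ᵥ sg 3)) ^ 2 = 4 * (e ⬝ᵥ e) := by
  have h : ∀ i, e ⬝ᵥ (M *ᵥ sg i) = (Mᵀ *ᵥ e) ⬝ᵥ sg i := by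
    intro i
    rw [Matrix.dotProduct_mulVec, Matrix.mulVec_transpose]
  have h2 : e ⬝ᵥ e = (Mᵀ *ᵥ e) ⬝ᵥ (Mᵀ *ᵥ e) := by
    rw [Matrix.dotProduct_mulVec, ← Matrix.mulVec_transpose, Matrix.transpose_transpose,
      Matrix.mulVec_mulVec, hM, Matrix.one_mulVec]
  rw [h, h, h, h, h2]
  set w := Mᵀ *ᵥ e
  simp only [dotProduct, Fin.sum_univ_three, sg, Matrix.cons_val_zero,
    Matrix.cons_val_one, Matrix.cons_val]
  ring

/-- A ball of radius `ρ` rolls freely inside `K`, and the tetrahedron with circumradius `ρ` is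
inscribed: then `K` is a ball. -/
theorem roll_core (v : Fin 4 → Fin 3 → ℝ) (a : ℝ) (ha : 0 < a)
    (hv : ∀ i j, i ≠ j → (v i - v j) ⬝ᵥ (v i - v j) = a ^ 2)
    (K : Set (Fin 3 → ℝ)) (hconv : Convex ℝ K) (hcomp : IsCompact K)
    (hroll : ∀ x ∈ frontier K, ∃ c : Fin 3 → ℝ, (x - c) ⬝ᵥ (x - c) = 3 * a ^ 2 / 8 ∧
      {y : Fin 3 → ℝ | (y - c) ⬝ᵥ (y - c) ≤ 3 * a ^ 2 / 8} ⊆ K)
    (R : Matrix (Fin 3) (Fin 3) ℝ) (hR : R ∈ Matrix.specialOrthogonalGroup (Fin 3) ℝ)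
    (t : Fin 3 → ℝ) (hpl : ∀ i, R *ᵥ v i + t ∈ frontier K) :
    ∃ c : Fin 3 → ℝ, frontier K = {x | (x - c) ⬝ᵥ (x - c) = 3 * a ^ 2 / 8} := by
  obtain ⟨l, hl, hl2, hfr⟩ := frame v a ha hv
  obtain ⟨M, p, hM, hMp⟩ := hfr R hR t
  have e38 : 3 * a ^ 2 / 8 = 3 * l ^ 2 := by rw [hl2]; ring
  rw [e38] at hroll ⊢
  have hl2' : 0 < 3 * l ^ 2 := by positivity
  have hcl : IsClosed K := hcomp.isClosed
  -- the inner parallel body
  set K' : Set (Fin 3 → ℝ) := {c | {y : Fin 3 → ℝ | (y - c) ⬝ᵥ (y - c) ≤ 3 * l ^ 2} ⊆ K} with hK'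
  have hK'mem : ∀ c, c ∈ K' ↔ ∀ w : Fin 3 → ℝ, w ⬝ᵥ w ≤ 3 * l ^ 2 → c + w ∈ K := by
    intro c
    constructor
    · intro h w hw
      apply h
      simp only [Set.mem_ofPred_eq, add_sub_cancel_left]
      exact hw
    · intro h y hy
      have := h (y - c) hy
      rwa [add_sub_cancel] at this
  have hK'K : K' ⊆ K := by
    intro c hc
    have := (hK'mem c).mp hc 0 (by rw [zero_dotProduct]; positivity)
    rwa [add_zero] at this
  have hK'closed : IsClosed K' := by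
    have : K' = ⋂ w : {w : Fin 3 → ℝ // w ⬝ᵥ w ≤ 3 * l ^ 2}, (fun c : Fin 3 → ℝ => c + w.1) ⁻¹' K := by
      ext c
      rw [hK'mem, Set.mem_iInter]
      constructor
      · intro h w; exact h w.1 w.2
      · intro h w hw; exact h ⟨w, hw⟩
    rw [this]
    exact isClosed_iInter fun w => hcl.preimage (by fun_prop)
  have hK'compact : IsCompact K' := hcomp.of_isClosed_subset hK'closed hK'K
  have hK'conv : ∀ c ∈ K', ∀ d ∈ K', ∀ ε : ℝ, 0 ≤ ε → ε ≤ 1 → c + ε • (d - c) ∈ K' := by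
    intro c hc d hd ε h0 h1
    rw [hK'mem] at hc hd ⊢
    intro w hw
    have := hconv (hc w hw) (hd w hw) (show (0:ℝ) ≤ 1 - ε by linarith) h0 (by ring)
    have e : (1 - ε) • (c + w) + ε • (d + w) = c + ε • (d - c) + w := by
      ext k
      simp only [Pi.add_apply, Pi.smul_apply, Pi.sub_apply, smul_eq_mul]
      ring
    rwa [e] at this
  -- boundary points are at distance at least `ρ` from `K'`
  have hfar : ∀ x ∈ frontier K, ∀ c ∈ K', 3 * l ^ 2 ≤ (x - c) ⬝ᵥ (x - c) := by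
    intro x hx c hc
    by_contra hlt
    push Not at hlt
    have hopen : IsOpen {y : Fin 3 → ℝ | (y - c) ⬝ᵥ (y - c) < 3 * l ^ 2} := by
      apply isOpen_lt
      · simp only [dotProduct, Fin.sum_univ_three, Pi.sub_apply]
        fun_prop
      · exact continuous_const
    have hsub : {y : Fin 3 → ℝ | (y - c) ⬝ᵥ (y - c) < 3 * l ^ 2} ⊆ K := by
      intro y hy
      exact hc (le_of_lt (show (y - c) ⬝ᵥ (y - c) < 3 * l ^ 2 from hy))
    exact hx.2 (interior_maximal hsub hopen hlt)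
  -- the vertices
  set ξ : Fin 4 → Fin 3 → ℝ := fun i => l • (M *ᵥ sg i) with hξ
  have hx : ∀ i, ξ i + p ∈ frontier K := fun i => by
    have := hpl i
    rwa [hMp i] at this
  have hξξ : ∀ i, ξ i ⬝ᵥ ξ i = 3 * l ^ 2 := by
    intro i
    simp only [hξ]
    rw [smul_dotProduct, dotProduct_smul, smul_eq_mul, smul_eq_mul, orth_sq M hM]
    ring
  have hsum : ∀ k, ξ 0 k + ξ 1 k + ξ 2 k + ξ 3 k = 0 := by
    intro k
    simp only [hξ, Pi.smul_apply, smul_eq_mul]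
    linear_combination l * sum_sg M k
  have hsumdot : ∀ e : Fin 3 → ℝ, e ⬝ᵥ ξ 0 + e ⬝ᵥ ξ 1 + e ⬝ᵥ ξ 2 + e ⬝ᵥ ξ 3 = 0 := by
    intro e
    simp only [dotProduct, Fin.sum_univ_three]
    linear_combination e 0 * hsum 0 + e 1 * hsum 1 + e 2 * hsum 2
  have htight : ∀ e : Fin 3 → ℝ, (e ⬝ᵥ ξ 0) ^ 2 + (e ⬝ᵥ ξ 1) ^ 2 + (e ⬝ᵥ ξ 2) ^ 2 + (e ⬝ᵥ ξ 3) ^ 2
      = 4 * l ^ 2 * (e ⬝ᵥ e) := by
    intro e
    simp only [hξ, dotProduct_smul, smul_eq_mul]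
    linear_combination l ^ 2 * tight M hM e
  -- nearest point of `K'`
  have hK'ne : K'.Nonempty := by
    obtain ⟨c, _, hc⟩ := hroll _ (hx 0)
    exact ⟨c, hc⟩
  have hcont : Continuous fun c : Fin 3 → ℝ => (p - c) ⬝ᵥ (p - c) := by
    simp only [dotProduct, Fin.sum_univ_three, Pi.sub_apply]
    fun_prop
  obtain ⟨c₀, hc₀, hmin⟩ := hK'compact.exists_isMinOn hK'ne hcont.continuousOn
  have hvar : ∀ y ∈ K', (p - c₀) ⬝ᵥ (y - c₀) ≤ 0 := by
    intro y hy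
    by_contra hpos
    push Not at hpos
    set A := (p - c₀) ⬝ᵥ (y - c₀) with hA
    set B := (y - c₀) ⬝ᵥ (y - c₀) with hB
    have hB0 : 0 ≤ B := dot_self_nonneg' _
    -- choose `ε = min 1 (A / (B + 1))`
    set ε := min 1 (A / (B + 1)) with hε
    have hε0 : 0 < ε := lt_min one_pos (by positivity)
    have hε1 : ε ≤ 1 := min_le_left _ _
    have hε2 : ε * (B + 1) ≤ A := by
      have : ε ≤ A / (B + 1) := min_le_right _ _
      rwa [le_div_iff₀ (by positivity)] at this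
    have h1 := hmin (hK'conv c₀ hc₀ y hy ε hε0.le hε1)
    simp only [Set.mem_ofPred_eq] at h1
    have e : (p - (c₀ + ε • (y - c₀))) ⬝ᵥ (p - (c₀ + ε • (y - c₀)))
        = (p - c₀) ⬝ᵥ (p - c₀) - 2 * ε * A + ε ^ 2 * B := by
      rw [hA, hB]
      simp only [dotProduct, Fin.sum_univ_three, Pi.sub_apply, Pi.add_apply, Pi.smul_apply,
        smul_eq_mul]
      ring
    rw [e] at h1
    nlinarith
  set e : Fin 3 → ℝ := p - c₀ with he
  have hee : 0 ≤ e ⬝ᵥ e := dot_self_nonneg' e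
  -- inequality (1)
  have i1 : ∀ i, 0 ≤ e ⬝ᵥ e + 2 * (e ⬝ᵥ ξ i) := by
    intro i
    have := hfar _ (hx i) c₀ hc₀
    have e1 : (ξ i + p - c₀) ⬝ᵥ (ξ i + p - c₀) = ξ i ⬝ᵥ ξ i + 2 * (e ⬝ᵥ ξ i) + e ⬝ᵥ e := by
      rw [he]
      simp only [dotProduct, Fin.sum_univ_three, Pi.sub_apply, Pi.add_apply]
      ring
    rw [e1, hξξ] at this
    linarith
  set η := Real.sqrt (e ⬝ᵥ e) with hη
  have hη2 : η ^ 2 = e ⬝ᵥ e := Real.sq_sqrt hee
  have hη0 : 0 ≤ η := Real.sqrt_nonneg _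
  have h3 : Real.sqrt 3 ^ 2 = 3 := Real.sq_sqrt (by norm_num)
  have h3pos : 0 < Real.sqrt 3 := Real.sqrt_pos.mpr (by norm_num)
  set ρ := l * Real.sqrt 3 with hρ
  have hρ2 : ρ ^ 2 = 3 * l ^ 2 := by rw [hρ, mul_pow, h3]; ring
  have hρ0 : 0 < ρ := by positivity
  -- inequality (2)
  have i2 : ∀ i, e ⬝ᵥ e + e ⬝ᵥ ξ i ≤ η * ρ := by
    intro i
    obtain ⟨c, hc1, hc2⟩ := hroll _ (hx i)
    have hcK' : c ∈ K' := hc2
    have hv1 := hvar c hcK'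
    have hcs := cs e (ξ i + p - c)
    rw [hc1, ← hη2, ← hρ2, ← mul_pow] at hcs
    have h5 : e ⬝ᵥ (ξ i + p - c) ≤ η * ρ := abs_le_of_sq_le_sq' hcs (by positivity) |>.2
    have h6 : e ⬝ᵥ (ξ i + p - c) = e ⬝ᵥ e + e ⬝ᵥ ξ i - e ⬝ᵥ (c - c₀) := by
      rw [he]
      simp only [dotProduct, Fin.sum_univ_three, Pi.sub_apply, Pi.add_apply]
      ring
    rw [h6] at h5
    linarith
  -- the centre lies in `K'`
  have hη00 : η = 0 := by
    by_contra hne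
    have hηpos : 0 < η := lt_of_le_of_ne hη0 (Ne.symm hne)
    have q : ∀ i, 0 ≤ (e ⬝ᵥ e + 2 * (e ⬝ᵥ ξ i)) * (η * ρ - e ⬝ᵥ e - e ⬝ᵥ ξ i) := fun i =>
      mul_nonneg (i1 i) (by linarith [i2 i])
    have q0 := q 0
    have q1 := q 1
    have q2 := q 2
    have q3 := q 3
    have hs := hsumdot e
    have ht := htight e
    have htot : 0 ≤ 4 * (e ⬝ᵥ e) * (η * ρ - e ⬝ᵥ e) - 2 * (4 * l ^ 2 * (e ⬝ᵥ e)) := by
      have : 4 * (e ⬝ᵥ e) * (η * ρ - e ⬝ᵥ e) - 2 * (4 * l ^ 2 * (e ⬝ᵥ e))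
          = (e ⬝ᵥ e + 2 * (e ⬝ᵥ ξ 0)) * (η * ρ - e ⬝ᵥ e - e ⬝ᵥ ξ 0)
          + (e ⬝ᵥ e + 2 * (e ⬝ᵥ ξ 1)) * (η * ρ - e ⬝ᵥ e - e ⬝ᵥ ξ 1)
          + (e ⬝ᵥ e + 2 * (e ⬝ᵥ ξ 2)) * (η * ρ - e ⬝ᵥ e - e ⬝ᵥ ξ 2)
          + (e ⬝ᵥ e + 2 * (e ⬝ᵥ ξ 3)) * (η * ρ - e ⬝ᵥ e - e ⬝ᵥ ξ 3) := by
        linear_combination 2 * ht - (2 * (η * ρ - e ⬝ᵥ e) - e ⬝ᵥ e) * hs
      rw [this]
      linarith
    rw [← hη2] at htot
    have h7 : 0 ≤ η ^ 2 * (4 * (η * ρ - η ^ 2) - 8 * l ^ 2) := by linarith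
    have h8 : 0 ≤ 4 * (η * ρ - η ^ 2) - 8 * l ^ 2 := by
      by_contra hneg
      push Not at hneg
      have : η ^ 2 * (4 * (η * ρ - η ^ 2) - 8 * l ^ 2) < 0 :=
        mul_neg_of_pos_of_neg (by positivity) hneg
      linarith
    nlinarith [sq_nonneg (2 * η - ρ)]
  have hp : p = c₀ := by
    apply sub_eq_zero.mp
    apply eq_of_dot_self
    rw [← he, ← hη2, hη00]
    norm_num
  have hpK' : p ∈ K' := hp ▸ hc₀
  -- `K'` is the single point `p`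
  have hsingle : ∀ y ∈ K', y = p := by
    intro y hy
    have h1 : ∀ i, ξ i ⬝ᵥ (y - p) ≤ 0 := by
      intro i
      by_contra hpos
      push Not at hpos
      set A := ξ i ⬝ᵥ (y - p) with hA
      set B := (y - p) ⬝ᵥ (y - p) with hB
      have hB0 : 0 ≤ B := dot_self_nonneg' _
      set ε := min 1 (A / (B + 1)) with hε
      have hε0 : 0 < ε := lt_min one_pos (by positivity)
      have hε1 : ε ≤ 1 := min_le_left _ _
      have hε2 : ε * (B + 1) ≤ A := by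
        have : ε ≤ A / (B + 1) := min_le_right _ _
        rwa [le_div_iff₀ (by positivity)] at this
      have h2 := hfar _ (hx i) _ (hK'conv p hpK' y hy ε hε0.le hε1)
      have e1 : (ξ i + p - (p + ε • (y - p))) ⬝ᵥ (ξ i + p - (p + ε • (y - p)))
          = ξ i ⬝ᵥ ξ i - 2 * ε * A + ε ^ 2 * B := by
        rw [hA, hB]
        simp only [dotProduct, Fin.sum_univ_three, Pi.sub_apply, Pi.add_apply, Pi.smul_apply,
          smul_eq_mul]
        ring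
      rw [e1, hξξ] at h2
      nlinarith
    have hs : ξ 0 ⬝ᵥ (y - p) + ξ 1 ⬝ᵥ (y - p) + ξ 2 ⬝ᵥ (y - p) + ξ 3 ⬝ᵥ (y - p) = 0 := by
      have := hsumdot (y - p)
      rwa [dotProduct_comm _ (ξ 0), dotProduct_comm _ (ξ 1), dotProduct_comm _ (ξ 2),
        dotProduct_comm _ (ξ 3)] at this
    have ht := htight (y - p)
    rw [dotProduct_comm _ (ξ 0), dotProduct_comm _ (ξ 1), dotProduct_comm _ (ξ 2),
        dotProduct_comm _ (ξ 3)] at ht
    have z0 : ξ 0 ⬝ᵥ (y - p) = 0 := by linarith [h1 0, h1 1, h1 2, h1 3]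
    have z1 : ξ 1 ⬝ᵥ (y - p) = 0 := by linarith [h1 0, h1 1, h1 2, h1 3]
    have z2 : ξ 2 ⬝ᵥ (y - p) = 0 := by linarith [h1 0, h1 1, h1 2, h1 3]
    have z3 : ξ 3 ⬝ᵥ (y - p) = 0 := by linarith [h1 0, h1 1, h1 2, h1 3]
    rw [z0, z1, z2, z3] at ht
    apply sub_eq_zero.mp
    apply eq_of_dot_self
    have : 4 * l ^ 2 * ((y - p) ⬝ᵥ (y - p)) = 0 := by linarith
    have := (mul_eq_zero.mp this).resolve_left (by positivity)
    exact le_of_eq this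
  refine ⟨p, ?_⟩
  have hsub : ∀ x ∈ frontier K, (x - p) ⬝ᵥ (x - p) = 3 * l ^ 2 := by
    intro x hxf
    obtain ⟨c, hc1, hc2⟩ := hroll x hxf
    have : c = p := hsingle c hc2
    rwa [this] at hc1
  -- `K` is contained in the ball
  have hcont2 : Continuous fun z : Fin 3 → ℝ => (z - p) ⬝ᵥ (z - p) := by
    simp only [dotProduct, Fin.sum_univ_three, Pi.sub_apply]
    fun_prop
  have hKball : ∀ z ∈ K, (z - p) ⬝ᵥ (z - p) ≤ 3 * l ^ 2 := by
    obtain ⟨z₀, hz₀, hmax⟩ := hcomp.exists_isMaxOn ⟨p, hK'K hpK'⟩ hcont2.continuousOn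
    have hmax' : ∀ z ∈ K, (z - p) ⬝ᵥ (z - p) ≤ (z₀ - p) ⬝ᵥ (z₀ - p) := fun z hz => hmax hz
    by_cases hzero : (z₀ - p) ⬝ᵥ (z₀ - p) ≤ 3 * l ^ 2
    · intro z hz
      exact (hmax' z hz).trans hzero
    · push Not at hzero
      have hnotint : z₀ ∉ interior K := by
        intro hint
        have hc : Filter.Tendsto (fun ε : ℝ => z₀ + ε • (z₀ - p)) (nhds 0) (nhds z₀) := by
          have : Continuous (fun ε : ℝ => z₀ + ε • (z₀ - p)) := by fun_prop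
          simpa using this.tendsto 0
        have hev := hc.eventually (mem_interior_iff_mem_nhds.mp hint)
        have := (hev.filter_mono (nhdsWithin_le_nhds (s := Set.Ioi (0:ℝ)))).and self_mem_nhdsWithin
        obtain ⟨ε, h1, h2⟩ := this.exists
        have h2' : 0 < ε := h2
        have h3 := hmax' _ h1
        have e1 : (z₀ + ε • (z₀ - p) - p) ⬝ᵥ (z₀ + ε • (z₀ - p) - p)
            = (1 + ε) ^ 2 * ((z₀ - p) ⬝ᵥ (z₀ - p)) := by
          simp only [dotProduct, Fin.sum_univ_three, Pi.sub_apply, Pi.add_apply, Pi.smul_apply,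
            smul_eq_mul]
          ring
        rw [e1] at h3
        have h4 : 1 < (1 + ε) ^ 2 := by nlinarith
        have h5 := mul_lt_mul_of_pos_right h4 (lt_trans hl2' hzero)
        linarith
      have := hsub z₀ ⟨subset_closure hz₀, hnotint⟩
      linarith
  ext x
  simp only [Set.mem_ofPred_eq]
  constructor
  · exact hsub x
  · intro hxs
    have hxK : x ∈ K := by
      have := (hK'mem p).mp hpK' (x - p) (le_of_eq hxs)
      rwa [add_sub_cancel] at this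
    refine ⟨subset_closure hxK, ?_⟩
    intro hint
    have hc : Filter.Tendsto (fun ε : ℝ => x + ε • (x - p)) (nhds 0) (nhds x) := by
      have : Continuous (fun ε : ℝ => x + ε • (x - p)) := by fun_prop
      simpa using this.tendsto 0
    have hev := hc.eventually (mem_interior_iff_mem_nhds.mp hint)
    have := (hev.filter_mono (nhdsWithin_le_nhds (s := Set.Ioi (0:ℝ)))).and self_mem_nhdsWithin
    obtain ⟨ε, h1, h2⟩ := this.exists
    have h2' : 0 < ε := h2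
    have h3 := hKball _ h1
    have e1 : (x + ε • (x - p) - p) ⬝ᵥ (x + ε • (x - p) - p)
        = (1 + ε) ^ 2 * ((x - p) ⬝ᵥ (x - p)) := by
      simp only [dotProduct, Fin.sum_univ_three, Pi.sub_apply, Pi.add_apply, Pi.smul_apply,
        smul_eq_mul]
      ring
    rw [e1, hxs] at h3
    have h4 : 1 < (1 + ε) ^ 2 := by nlinarith
    have h5 := mul_lt_mul_of_pos_right h4 hl2'
    linarith

end Pool.Agent.Helper71.Tet
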