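import Mathlib
import Pool.Agent.Helper71.TetRoll

namespace Pool.Agent.Results.MP_db6300_gt.RollingBall

open Matrix

theorem result (v : Fin 4 → Fin 3 → ℝ) (a : ℝ) (ha : 0 < a)
    (hv : ∀ i j, i ≠ j → (v i - v j) ⬝ᵥ (v i - v j) = a ^ 2)
    (K : Set (Fin 3 → ℝ)) (hconv : Convex ℝ K) (hcomp : IsCompact K)
    (hroll : ∀ x ∈ frontier K, ∃ c : Fin 3 → ℝ, (x - c) ⬝ᵥ (x - c) = 3 * a ^ 2 / 8 ∧
      {y : Fin 3 → ℝ | (y - c) ⬝ᵥ (y - c) ≤ 3 * a ^ 2 / 8} ⊆ K)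
    (hplacement : ∃ R ∈ Matrix.specialOrthogonalGroup (Fin 3) ℝ, ∃ t : Fin 3 → ℝ, ∀ i,
      R *ᵥ v i + t ∈ frontier K) :
    ∃ c : Fin 3 → ℝ, frontier K = {x | (x - c) ⬝ᵥ (x - c) = 3 * a ^ 2 / 8} := by
  obtain ⟨R, hR, t, ht⟩ := hplacement
  exact Pool.Agent.Helper71.Tet.roll_core v a ha hv K hconv hcomp hroll R hR t ht

end Pool.Agent.Results.MP_db6300_gt.RollingBall
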