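import Mathlib

/-!
Definitions for the problem MP_e5b41c_gt (snf-countability of `F_n(X)` and `A_n(X)`).
-/

open Filter Topology Set

universe u

namespace Pool.Agent.Helper71.Snf

/-- `X` is a `k`-space: a set `C` is closed whenever `C ∩ K` is closed in `K` for every
compact `K ⊆ X`. -/
def IsKSpace (X : Type u) [TopologicalSpace X] : Prop :=
  ∀ C : Set X, (∀ K : Set X, IsCompact K → IsClosed ((fun x : K => (x : X)) ⁻¹' C)) → IsClosed C

/-- `X` has a regular `G_δ`-diagonal: there are open sets `U m ⊆ X × X` with
`Δ = ⋂ U m = ⋂ closure (U m)`. -/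
def HasRegularGdeltaDiagonal (X : Type u) [TopologicalSpace X] : Prop :=
  ∃ U : ℕ → Set (X × X), (∀ m, IsOpen (U m)) ∧
    (⋂ m, U m) = {p : X × X | p.1 = p.2} ∧ (⋂ m, closure (U m)) = {p : X × X | p.1 = p.2}

/-- `P` is a sequential neighbourhood of `y`: every sequence converging to `y` is eventually
in `P`. -/
def IsSeqNhd {Y : Type u} [TopologicalSpace Y] (P : Set Y) (y : Y) : Prop :=
  ∀ s : ℕ → Y, Tendsto s atTop (𝓝 y) → ∃ N : ℕ, ∀ n ≥ N, s n ∈ P

/-- The family `(Q y)_y` is an sn-network of `Y`. -/
structure IsSnNetwork {Y : Type u} [TopologicalSpace Y] (Q : Y → Set (Set Y)) : Prop where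
  /-- the union of all the families covers `Y` -/
  cover : ∀ z : Y, ∃ y : Y, ∃ P ∈ Q y, z ∈ P
  /-- members of `Q y` are sequential neighbourhoods of `y` -/
  seqNhd : ∀ y : Y, ∀ P ∈ Q y, IsSeqNhd P y
  /-- `Q y` is downwards directed -/
  directed : ∀ y : Y, ∀ U ∈ Q y, ∀ V ∈ Q y, ∃ W ∈ Q y, W ⊆ U ∩ V
  /-- every open set containing `y` contains a member of `Q y` (which contains `y`) -/
  small : ∀ y : Y, ∀ U : Set Y, IsOpen U → y ∈ U → ∃ P ∈ Q y, y ∈ P ∧ P ⊆ U

/-- `Y` is snf-countable: it has an sn-network all of whose families `Q y` are countable. -/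
def SnfCountable (Y : Type u) [TopologicalSpace Y] : Prop :=
  ∃ Q : Y → Set (Set Y), IsSnNetwork Q ∧ ∀ y : Y, (Q y).Countable

/-- The free topological group `F(X)` on `X` in the sense of Markov: the free group on the set
`X`, with the finest group topology for which the inclusion of `X` is continuous. -/
def FreeTopGroup (X : Type u) : Type u := FreeGroup X

instance (X : Type u) : Group (FreeTopGroup X) := inferInstanceAs (Group (FreeGroup X))

instance (X : Type u) [TopologicalSpace X] : TopologicalSpace (FreeTopGroup X) :=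
  (GroupTopology.coinduced (FreeGroup.of : X → FreeGroup X)).toTopologicalSpace

instance (X : Type u) [TopologicalSpace X] : IsTopologicalGroup (FreeTopGroup X) :=
  (GroupTopology.coinduced (FreeGroup.of : X → FreeGroup X)).toIsTopologicalGroup

open Classical in
/-- `F_n(X)`: the elements of `F(X)` whose reduced word has length at most `n`, with the
subspace topology. -/
def FreeTopGroupLE (X : Type u) (n : ℕ) : Set (FreeTopGroup X) :=
  {w | (FreeGroup.toWord (w : FreeGroup X)).length ≤ n}

/-- The free Abelian topological group `A(X)` on `X` in the sense of Markov: the free abelian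
group on the set `X`, with the finest group topology for which the inclusion of `X` is
continuous. -/
def FreeAbTopGroup (X : Type u) : Type u := FreeAbelianGroup X

instance (X : Type u) : AddCommGroup (FreeAbTopGroup X) :=
  inferInstanceAs (AddCommGroup (FreeAbelianGroup X))

instance (X : Type u) [TopologicalSpace X] : TopologicalSpace (FreeAbTopGroup X) :=
  (AddGroupTopology.coinduced (FreeAbelianGroup.of : X → FreeAbelianGroup X)).toTopologicalSpace

instance (X : Type u) [TopologicalSpace X] : IsTopologicalAddGroup (FreeAbTopGroup X) :=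
  (AddGroupTopology.coinduced
    (FreeAbelianGroup.of : X → FreeAbelianGroup X)).toIsTopologicalAddGroup

/-- `A_n(X)`: the elements `a = ∑ c_x x` of `A(X)` of reduced length `∑ |c_x|` at most `n`, with
the subspace topology. -/
def FreeAbTopGroupLE (X : Type u) (n : ℕ) : Set (FreeAbTopGroup X) :=
  {a | ∑ x ∈ FreeAbelianGroup.support (a : FreeAbelianGroup X),
      (FreeAbelianGroup.coeff x (a : FreeAbelianGroup X)).natAbs ≤ n}

end Pool.Agent.Helper71.Snf
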