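import Mathlib
import Pool.Agent.Helper71.SnfDefs

open Filter Topology Set

universe u

namespace Pool.Agent.Helper71.Snf

/-! ### Universal properties -/

/-- any group topology making `of` continuous is coarser than the Markov topology -/
lemma markov_le {X : Type u} [tX : TopologicalSpace X] (τ : GroupTopology (FreeGroup X))
    (h : Continuous[tX, τ.toTopologicalSpace] (FreeGroup.of : X → FreeGroup X)) :
    (GroupTopology.coinduced (FreeGroup.of : X → FreeGroup X)) ≤ τ := by
  refine sInf_le ?_
  exact continuous_iff_coinduced_le.1 h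

lemma addMarkov_le {X : Type u} [tX : TopologicalSpace X]
    (τ : AddGroupTopology (FreeAbelianGroup X))
    (h : Continuous[tX, τ.toTopologicalSpace] (FreeAbelianGroup.of : X → FreeAbelianGroup X)) :
    (AddGroupTopology.coinduced (FreeAbelianGroup.of : X → FreeAbelianGroup X)) ≤ τ := by
  refine sInf_le ?_
  exact continuous_iff_coinduced_le.1 h

/-- the inclusion of generators -/
def gen {X : Type u} (x : X) : FreeTopGroup X := (FreeGroup.of x : FreeGroup X)

/-- the inclusion of generators, abelian case -/
def agen {X : Type u} (x : X) : FreeAbTopGroup X := (FreeAbelianGroup.of x : FreeAbelianGroup X)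

lemma continuous_gen {X : Type u} [TopologicalSpace X] :
    Continuous (gen : X → FreeTopGroup X) :=
  GroupTopology.coinduced_continuous (FreeGroup.of : X → FreeGroup X)

lemma continuous_agen {X : Type u} [TopologicalSpace X] :
    Continuous (agen : X → FreeAbTopGroup X) :=
  AddGroupTopology.coinduced_continuous (FreeAbelianGroup.of : X → FreeAbelianGroup X)

/-- extension of a map to a homomorphism of the free topological group -/
def glift {X : Type u} {H : Type*} [Group H] (f : X → H) : FreeTopGroup X →* H :=
  (FreeGroup.lift f : FreeGroup X →* H)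

lemma glift_gen {X : Type u} {H : Type*} [Group H] (f : X → H) (x : X) :
    glift f (gen x) = f x := FreeGroup.lift_apply_of

lemma continuous_glift {X : Type u} [tX : TopologicalSpace X] {H : Type*} [Group H]
    [tH : TopologicalSpace H] [IsTopologicalGroup H] {f : X → H} (hf : Continuous f) :
    Continuous (glift f : FreeTopGroup X → H) := by
  let τ : GroupTopology (FreeGroup X) :=
    { toTopologicalSpace := TopologicalSpace.induced (FreeGroup.lift f : FreeGroup X →* H) tH
      toIsTopologicalGroup := topologicalGroup_induced (FreeGroup.lift f : FreeGroup X →* H) }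
  have h1 : Continuous[tX, τ.toTopologicalSpace] (FreeGroup.of : X → FreeGroup X) := by
    refine continuous_induced_rng.2 ?_
    have : ((FreeGroup.lift f : FreeGroup X →* H) : FreeGroup X → H) ∘ FreeGroup.of = f := by
      funext x
      exact FreeGroup.lift_apply_of
    rw [this]
    exact hf
  have h2 := markov_le τ h1
  exact continuous_iff_le_induced.2 h2

/-- extension of a map to a homomorphism of the free abelian topological group -/
def alift {X : Type u} {H : Type*} [AddCommGroup H] (f : X → H) : FreeAbTopGroup X →+ H :=
  (FreeAbelianGroup.lift f : FreeAbelianGroup X →+ H)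

lemma alift_agen {X : Type u} {H : Type*} [AddCommGroup H] (f : X → H) (x : X) :
    alift f (agen x) = f x := FreeAbelianGroup.lift_apply_of f x

lemma continuous_alift {X : Type u} [tX : TopologicalSpace X] {H : Type*} [AddCommGroup H]
    [tH : TopologicalSpace H] [IsTopologicalAddGroup H] {f : X → H} (hf : Continuous f) :
    Continuous (alift f : FreeAbTopGroup X → H) := by
  let τ : AddGroupTopology (FreeAbelianGroup X) :=
    { toTopologicalSpace :=
        TopologicalSpace.induced (FreeAbelianGroup.lift f : FreeAbelianGroup X →+ H) tH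
      toIsTopologicalAddGroup :=
        topologicalAddGroup_induced (FreeAbelianGroup.lift f : FreeAbelianGroup X →+ H) }
  have h1 : Continuous[tX, τ.toTopologicalSpace]
      (FreeAbelianGroup.of : X → FreeAbelianGroup X) := by
    refine continuous_induced_rng.2 ?_
    have : ((FreeAbelianGroup.lift f : FreeAbelianGroup X →+ H) : FreeAbelianGroup X → H) ∘
        FreeAbelianGroup.of = f := by
      funext x
      exact FreeAbelianGroup.lift_apply_of f x
    rw [this]
    exact hf
  have h2 := addMarkov_le τ h1
  exact continuous_iff_le_induced.2 h2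

/-! ### snf-countability in terms of filters -/

/-- the filter reformulation of snf-countability at a point -/
def SnfAt {Y : Type u} [TopologicalSpace Y] (y : Y) : Prop :=
  ∃ H : Filter Y, H.IsCountablyGenerated ∧ H ≤ 𝓝 y ∧
    ∀ s : ℕ → Y, Tendsto s atTop (𝓝 y) → Tendsto s atTop H

lemma snfAt_of_snfCountable {Y : Type u} [TopologicalSpace Y] (h : SnfCountable Y) (y : Y) :
    SnfAt y := by
  obtain ⟨Q, hQ, hc⟩ := h
  refine ⟨⨅ P ∈ Q y, 𝓟 P, ?_, ?_, ?_⟩
  · exact Filter.isCountablyGenerated_biInf_principal (hc y)
  · intro U hU
    obtain ⟨V, hVU, hV, hyV⟩ := mem_nhds_iff.1 hU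
    obtain ⟨P, hP, -, hPV⟩ := hQ.small y V hV hyV
    exact mem_of_superset (mem_iInf_of_mem P (mem_iInf_of_mem hP (mem_principal_self P)))
      (hPV.trans hVU)
  · intro s hs
    simp only [tendsto_iInf, tendsto_principal]
    intro P hP
    obtain ⟨N, hN⟩ := hQ.seqNhd y P hP s hs
    exact eventually_atTop.2 ⟨N, hN⟩

lemma snfCountable_of_snfAt {Y : Type u} [TopologicalSpace Y] (h : ∀ y : Y, SnfAt y) :
    SnfCountable Y := by
  choose H hc hle hs using h
  have hb : ∀ y, ∃ B : ℕ → Set Y, (H y).HasAntitoneBasis B := by
    intro y
    have := hc y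
    exact (H y).exists_antitone_basis
  choose B hB using hb
  have hmem : ∀ y n, y ∈ B y n := by
    intro y n
    have h1 : Tendsto (fun _ : ℕ => y) atTop (H y) := hs y _ tendsto_const_nhds
    have h2 := h1.eventually ((hB y).mem n)
    obtain ⟨N, hN⟩ := eventually_atTop.1 h2
    exact hN N le_rfl
  refine ⟨fun y => range (B y), ?_, fun y => countable_range _⟩
  refine ⟨?_, ?_, ?_, ?_⟩
  · intro z
    exact ⟨z, B z 0, mem_range_self 0, hmem z 0⟩
  · rintro y _ ⟨n, rfl⟩ s hsy
    exact eventually_atTop.1 ((hs y s hsy).eventually ((hB y).mem n))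
  · rintro y _ ⟨n, rfl⟩ _ ⟨m, rfl⟩
    refine ⟨B y (max n m), mem_range_self _, subset_inter ?_ ?_⟩
    · exact (hB y).antitone (le_max_left n m)
    · exact (hB y).antitone (le_max_right n m)
  · intro y U hU hy
    have : U ∈ H y := hle y (hU.mem_nhds hy)
    obtain ⟨n, hn⟩ := (hB y).mem_iff.1 this
    exact ⟨B y n, mem_range_self n, hmem y n, hn⟩

end Pool.Agent.Helper71.Snf
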