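import Mathlib
import Pool.Agent.Helper71.SnfLemmas

open Filter Topology Set MeasureTheory

universe u

namespace Pool.Agent.Helper71.Snf

/-! ### Separation: `F(X)` and `A(X)` are Hausdorff and contain `X` as a subspace -/

section rho

variable {X : Type u} {G : Type*} [Group G]

/-- the measure of the set of parameters for which the specialised word is nontrivial -/
noncomputable def rho (φ : ℝ → X → G) (w : FreeGroup X) : ENNReal :=
  volume {t : ℝ | t ∈ Ioo (0 : ℝ) 1 ∧ FreeGroup.lift (φ t) w ≠ 1}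

lemma rho_one (φ : ℝ → X → G) : rho φ 1 = 0 := by
  have : {t : ℝ | t ∈ Ioo (0 : ℝ) 1 ∧ FreeGroup.lift (φ t) (1 : FreeGroup X) ≠ 1} = ∅ := by
    ext t
    simp
  rw [rho, this, measure_empty]

lemma rho_inv (φ : ℝ → X → G) (w : FreeGroup X) : rho φ w⁻¹ = rho φ w := by
  simp [rho]

lemma rho_mul (φ : ℝ → X → G) (w v : FreeGroup X) : rho φ (w * v) ≤ rho φ w + rho φ v := by
  refine (measure_mono ?_).trans (measure_union_le _ _)
  rintro t ⟨ht, h⟩
  by_cases h1 : FreeGroup.lift (φ t) w = 1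
  · right
    refine ⟨ht, fun h2 => h ?_⟩
    rw [map_mul, h1, h2, one_mul]
  · left
    exact ⟨ht, h1⟩

lemma rho_conj (φ : ℝ → X → G) (w v : FreeGroup X) : rho φ (w * v * w⁻¹) = rho φ v := by
  have : {t : ℝ | t ∈ Ioo (0 : ℝ) 1 ∧ FreeGroup.lift (φ t) (w * v * w⁻¹) ≠ 1} =
      {t : ℝ | t ∈ Ioo (0 : ℝ) 1 ∧ FreeGroup.lift (φ t) v ≠ 1} := by
    ext t
    simp only [map_mul, map_inv, ne_eq, mem_ofPred_eq, conj_eq_one_iff]
  rw [rho, this, rho]

/-- the group topology defined by `rho` -/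
@[instance_reducible]
noncomputable def rhoBasis (φ : ℝ → X → G) : GroupFilterBasis (FreeGroup X) where
  sets := {U | ∃ ε : ENNReal, 0 < ε ∧ U = {w | rho φ w < ε}}
  nonempty := ⟨_, 1, one_pos, rfl⟩
  inter_sets := by
    rintro _ _ ⟨ε, hε, rfl⟩ ⟨δ, hδ, rfl⟩
    refine ⟨_, ⟨min ε δ, lt_min hε hδ, rfl⟩, ?_⟩
    intro w hw
    have hw' : rho φ w < min ε δ := hw
    exact ⟨(lt_of_lt_of_le hw' (min_le_left _ _) : rho φ w < ε),
      (lt_of_lt_of_le hw' (min_le_right _ _) : rho φ w < δ)⟩
  one' := by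
    rintro _ ⟨ε, hε, rfl⟩
    show rho φ 1 < ε
    rw [rho_one]
    exact hε
  mul' := by
    rintro _ ⟨ε, hε, rfl⟩
    refine ⟨_, ⟨ε / 2, ENNReal.half_pos hε.ne', rfl⟩, ?_⟩
    rintro _ ⟨a, ha, b, hb, rfl⟩
    refine lt_of_le_of_lt (rho_mul φ a b) ?_
    calc rho φ a + rho φ b < ε / 2 + ε / 2 := ENNReal.add_lt_add ha hb
      _ = ε := ENNReal.add_halves ε
  inv' := by
    rintro _ ⟨ε, hε, rfl⟩
    refine ⟨_, ⟨ε, hε, rfl⟩, ?_⟩
    intro w hw
    show rho φ w⁻¹ < ε
    rw [rho_inv]
    exact hw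
  conj' := by
    rintro x₀ _ ⟨ε, hε, rfl⟩
    refine ⟨_, ⟨ε, hε, rfl⟩, ?_⟩
    intro w hw
    show rho φ (x₀ * w * x₀⁻¹) < ε
    rw [rho_conj]
    exact hw

end rho

/-- if the family `φ` is continuous in measure, the `rho`-balls are Markov neighbourhoods -/
lemma rho_ball_mem_nhds {X : Type u} [tX : TopologicalSpace X] {G : Type*} [Group G]
    (φ : ℝ → X → G)
    (hφ : ∀ x : X, ∀ ε : ENNReal, 0 < ε →
      ∀ᶠ y in 𝓝 x, volume {t : ℝ | t ∈ Ioo (0 : ℝ) 1 ∧ φ t x ≠ φ t y} < ε)
    {ε : ENNReal} (hε : 0 < ε) :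
    {w : FreeTopGroup X | rho φ (w : FreeGroup X) < ε} ∈ 𝓝 (1 : FreeTopGroup X) := by
  let B := rhoBasis φ
  let τ : GroupTopology (FreeGroup X) :=
    { toTopologicalSpace := B.topology
      toIsTopologicalGroup := B.isTopologicalGroup }
  have h1 : Continuous[tX, τ.toTopologicalSpace] (FreeGroup.of : X → FreeGroup X) := by
    refine (@continuous_iff_continuousAt X (FreeGroup X) tX τ.toTopologicalSpace _).2 ?_
    intro x
    refine ((B.nhds_hasBasis (FreeGroup.of x)).tendsto_right_iff).2 ?_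
    rintro _ ⟨δ, hδ, rfl⟩
    filter_upwards [hφ x δ hδ] with y hy
    refine ⟨(FreeGroup.of x)⁻¹ * FreeGroup.of y, ?_, by simp⟩
    show rho φ _ < δ
    refine lt_of_le_of_lt (measure_mono ?_) hy
    rintro t ⟨ht, h⟩
    refine ⟨ht, fun h' => h ?_⟩
    simp [h']
  have h2 := markov_le τ h1
  have h3 : {w : FreeGroup X | rho φ w < ε} ∈ @nhds _ B.topology 1 :=
    B.mem_nhds_one ⟨ε, hε, rfl⟩
  exact nhds_mono h2 h3

/-- a canonical choice function used to specialise letters -/
noncomputable def pick {X : Type u} (p : X → Prop) : FreeGroup X :=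
  open Classical in if h : ∃ a, p a then FreeGroup.of h.choose else 1

lemma lift_eq_self {X : Type u} (L : List (X × Bool)) (f : X → FreeGroup X)
    (hf : ∀ p ∈ L, f p.1 = FreeGroup.of p.1) :
    FreeGroup.lift f (FreeGroup.mk L) = FreeGroup.mk L := by
  induction L with
  | nil => rw [← FreeGroup.one_eq_mk, map_one]
  | cons a L ih =>
    have h1 : FreeGroup.mk (a :: L) = FreeGroup.mk [a] * FreeGroup.mk L := by
      rw [FreeGroup.mul_mk]; rfl
    rw [h1, map_mul, ih (fun p hp => hf p (List.mem_cons_of_mem a hp))]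
    congr 1
    have h2 := hf a (List.mem_cons_self)
    rcases a with ⟨x, b⟩
    cases b
    · simp only [FreeGroup.lift_mk, List.map_cons, List.map_nil, List.prod_cons, List.prod_nil,
        mul_one, cond_false]
      rw [h2]
      rfl
    · simp only [FreeGroup.lift_mk, List.map_cons, List.map_nil, List.prod_cons, List.prod_nil,
        mul_one, cond_true]
      rw [h2]
      rfl

instance freeTop_t2 {X : Type u} [TopologicalSpace X] [T35Space X] : T2Space (FreeTopGroup X) := by
  classical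
  refine IsTopologicalGroup.t2Space_of_one_sep ?_
  intro w hw
  -- letters of `w`
  set L := FreeGroup.toWord (w : FreeGroup X) with hL
  let s : Finset X := (L.map Prod.fst).toFinset
  have hs : ∀ p ∈ L, p.1 ∈ s := by
    intro p hp
    simp only [s, List.mem_toFinset, List.mem_map]
    exact ⟨p, hp, rfl⟩
  obtain ⟨O, hO, hdisj⟩ := s.finite_toSet.t2_separation
  have hf : ∀ a : X, ∃ f : X → unitInterval, Continuous f ∧ f a = 0 ∧ EqOn f 1 (O a)ᶜ := by
    intro a
    exact CompletelyRegularSpace.completely_regular a (O a)ᶜ (hO a).2.isClosed_compl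
      (fun h => h (hO a).1)
  choose f hfc hf0 hf1 using hf
  let p : ℝ → X → X → Prop := fun t y a => a ∈ s ∧ (f a y : ℝ) < t
  let φ : ℝ → X → FreeGroup X := fun t y => pick (p t y)
  have hφs : ∀ t ∈ Ioo (0 : ℝ) 1, ∀ a ∈ s, φ t a = FreeGroup.of a := by
    intro t ht a ha
    have hex : ∃ a', p t a a' := ⟨a, ha, by rw [hf0 a]; exact ht.1⟩
    have h1 := hex.choose_spec
    have h2 : a ∈ O hex.choose := by
      by_contra hcon
      have h3 := hf1 hex.choose (show a ∈ (O hex.choose)ᶜ from hcon)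
      have h4 := h1.2
      rw [h3] at h4
      simp only [Pi.one_apply, Set.Icc.coe_one] at h4
      linarith [ht.2]
    have h5 : hex.choose = a := by
      by_contra hne
      exact (Set.disjoint_left.1 (hdisj h1.1 ha hne)) h2 (hO a).1
    show pick (p t a) = _
    rw [pick, dif_pos hex, h5]
  have hφc : ∀ x : X, ∀ ε : ENNReal, 0 < ε →
      ∀ᶠ y in 𝓝 x, volume {t : ℝ | t ∈ Ioo (0 : ℝ) 1 ∧ φ t x ≠ φ t y} < ε := by
    intro x ε hε
    have hsub : ∀ y, {t : ℝ | t ∈ Ioo (0 : ℝ) 1 ∧ φ t x ≠ φ t y} ⊆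
        ⋃ a ∈ s, uIcc (f a x : ℝ) (f a y : ℝ) := by
      intro y t ht
      by_contra hcon
      apply ht.2
      show pick (p t x) = pick (p t y)
      congr 1
      funext a
      by_cases ha : a ∈ s
      · have h1 : t ∉ uIcc (f a x : ℝ) (f a y : ℝ) := by
          intro h
          exact hcon (mem_biUnion ha h)
        rw [mem_uIcc, not_or, not_and_or, not_and_or] at h1
        simp only [p, ha, true_and, eq_iff_iff]
        constructor
        · intro h2
          by_contra h3
          rcases h1.1 with h4 | h4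
          · exact h4 h2.le
          · exact h4 (not_lt.1 h3)
        · intro h2
          by_contra h3
          rcases h1.2 with h4 | h4
          · exact h4 h2.le
          · exact h4 (not_lt.1 h3)
      · simp only [p, ha, false_and]
    have hle : ∀ y, volume {t : ℝ | t ∈ Ioo (0 : ℝ) 1 ∧ φ t x ≠ φ t y} ≤
        ∑ a ∈ s, ENNReal.ofReal |(f a y : ℝ) - f a x| := by
      intro y
      refine (measure_mono (hsub y)).trans ?_
      refine (measure_biUnion_finset_le s _).trans ?_
      refine Finset.sum_le_sum fun a _ => ?_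
      rw [Real.volume_interval]
    have hlim : Tendsto (fun y => ∑ a ∈ s, ENNReal.ofReal |(f a y : ℝ) - f a x|) (𝓝 x)
        (𝓝 (∑ a ∈ s, ENNReal.ofReal |(f a x : ℝ) - f a x|)) := by
      refine tendsto_finsetSum s fun a _ => ?_
      refine (ENNReal.continuous_ofReal.tendsto _).comp ?_
      have hc : Continuous fun y => |(f a y : ℝ) - f a x| := by
        have := hfc a
        fun_prop
      exact hc.tendsto x
    have hzero : (∑ a ∈ s, ENNReal.ofReal |(f a x : ℝ) - f a x|) = 0 := by simp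
    rw [hzero] at hlim
    filter_upwards [hlim.eventually (gt_mem_nhds hε)] with y hy
    exact lt_of_le_of_lt (hle y) hy
  refine ⟨_, rho_ball_mem_nhds φ hφc (ε := 1) one_pos, ?_⟩
  have hset : {t : ℝ | t ∈ Ioo (0 : ℝ) 1 ∧ FreeGroup.lift (φ t) (w : FreeGroup X) ≠ 1} =
      Ioo (0 : ℝ) 1 := by
    ext t
    constructor
    · exact fun h => h.1
    · intro ht
      refine ⟨ht, ?_⟩
      have h1 : (w : FreeGroup X) = FreeGroup.mk L := by
        exact (FreeGroup.mk_toWord (x := (w : FreeGroup X))).symm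
      have h2 : FreeGroup.lift (φ t) (w : FreeGroup X) = w := by
        conv_lhs => rw [h1]
        rw [lift_eq_self L (φ t) (fun p hp => hφs t ht p.1 (hs p hp))]
        exact h1.symm
      rw [h2]
      exact hw
  intro hlt
  have hlt' : volume {t : ℝ | t ∈ Ioo (0 : ℝ) 1 ∧
      FreeGroup.lift (φ t) (w : FreeGroup X) ≠ 1} < 1 := hlt
  rw [hset, Real.volume_Ioo] at hlt'
  simp at hlt'

end Pool.Agent.Helper71.Snf
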