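import Mathlib
import Pool.Agent.Helper71.SnfSep

open Filter Topology Set

universe u

namespace Pool.Agent.Helper71.Snf

/-! ### The abstract core -/

/-- a map into a topological group through which all real functions factor is inducing -/
lemma inducing_of_ext {X : Type u} [TopologicalSpace X] [T35Space X] {G : Type*} [Group G]
    [TopologicalSpace G] {ι : X → G} (hc : Continuous ι)
    (hext : ∀ f : X → ℝ, Continuous f → ∃ F : G → ℝ, Continuous F ∧ ∀ a, F (ι a) = f a) :
    IsInducing ι := by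
  rw [isInducing_iff_nhds]
  intro x
  refine le_antisymm (hc.tendsto x).le_comap ?_
  intro U hU
  obtain ⟨V, hVU, hV, hxV⟩ := mem_nhds_iff.1 hU
  obtain ⟨f, hf, hf0, hf1⟩ := CompletelyRegularSpace.completely_regular x Vᶜ hV.isClosed_compl
    (fun h => h hxV)
  obtain ⟨F, hF, hFe⟩ := hext (fun y => (f y : ℝ)) (by fun_prop)
  refine mem_comap.2 ⟨{g | F g < 1}, ?_, ?_⟩
  · refine (isOpen_Iio.preimage hF).mem_nhds ?_
    show F (ι x) < 1
    rw [hFe, hf0]
    simp
  · intro y hy
    apply hVU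
    by_contra hcon
    have h1 : F (ι y) < 1 := hy
    rw [hFe, hf1 (show y ∈ Vᶜ from hcon)] at h1
    simp at h1

section core

variable {X : Type u} [TopologicalSpace X] {G : Type*} [Group G] [TopologicalSpace G]
  [IsTopologicalGroup G] {ι : X → G} {P : Filter G}

lemma frechet_of_seq (hι : IsInducing ι) [P.IsCountablyGenerated] (hP : P ≤ 𝓝 1)
    (hseq : ∀ u v : ℕ → X, Tendsto (fun n => (ι (u n))⁻¹ * ι (v n)) atTop (𝓝 1) →
      Tendsto (fun n => (ι (u n))⁻¹ * ι (v n)) atTop P)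
    [SequentialSpace X] : FrechetUrysohnSpace X := by
  refine ⟨fun s => closure_minimal subset_seqClosure (IsSeqClosed.isClosed ?_)⟩
  intro l p hl hlp
  obtain ⟨B, hB⟩ := P.exists_antitone_basis
  have : ∀ n, ∃ a ∈ s, (ι (l n))⁻¹ * ι a ∈ B n := by
    intro n
    obtain ⟨x, hxs, hx⟩ := hl n
    have h1 : Tendsto (fun m => (ι (l n))⁻¹ * ι (x m)) atTop (𝓝 1) := by
      have := (tendsto_const_nhds (x := (ι (l n))⁻¹)).mul ((hι.continuous.tendsto _).comp hx)
      simpa using this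
    have h2 := hseq (fun _ => l n) x h1
    obtain ⟨m, hm⟩ := (h2.eventually (hB.mem n)).exists
    exact ⟨x m, hxs m, hm⟩
  choose a has haB using this
  refine ⟨a, has, ?_⟩
  rw [hι.tendsto_nhds_iff]
  have h3 : Tendsto (fun n => (ι (l n))⁻¹ * ι (a n)) atTop P := hB.tendsto haB
  have h4 := h3.mono_right hP
  have h5 := ((hι.continuous.tendsto _).comp hlp).mul h4
  simpa [Function.comp_def] using h5

lemma nhds_eq_comap_of_frechet (hι : IsInducing ι) (hP : P ≤ 𝓝 1)
    (hseq : ∀ u v : ℕ → X, Tendsto (fun n => (ι (u n))⁻¹ * ι (v n)) atTop (𝓝 1) →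
      Tendsto (fun n => (ι (u n))⁻¹ * ι (v n)) atTop P)
    [FrechetUrysohnSpace X] (x : X) : 𝓝 x = comap (fun y => (ι x)⁻¹ * ι y) P := by
  apply le_antisymm
  · rw [← tendsto_iff_comap]
    intro U hU
    by_contra hcon
    have hcl : x ∈ closure ((fun y => (ι x)⁻¹ * ι y) ⁻¹' U)ᶜ := by
      rw [closure_compl, mem_compl_iff, mem_interior_iff_mem_nhds]
      exact hcon
    obtain ⟨y, hy, hyx⟩ := mem_closure_iff_seq_limit.1 hcl
    have h1 : Tendsto (fun m => (ι x)⁻¹ * ι (y m)) atTop (𝓝 1) := by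
      have := (tendsto_const_nhds (x := (ι x)⁻¹)).mul ((hι.continuous.tendsto _).comp hyx)
      simpa using this
    obtain ⟨m, hm⟩ := ((hseq (fun _ => x) y h1).eventually hU).exists
    exact hy m hm
  · refine (comap_mono hP).trans ?_
    rw [hι.nhds_eq_comap x]
    have h1 : (𝓝 (1 : G)) = comap (fun g => ι x * g) (𝓝 (ι x)) := by
      have := (Homeomorph.mulLeft (ι x)).isInducing.nhds_eq_comap 1
      simpa using this
    rw [h1, comap_comap]
    have h2 : (fun g => ι x * g) ∘ (fun y => (ι x)⁻¹ * ι y) = ι := by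
      funext y
      simp
    rw [h2]

/-- a sequence without cluster points has closed discrete range -/
lemma eventually_notMem_range [T1Space X] {x : ℕ → X} {y : X} (h : ¬ MapClusterPt y atTop x) :
    ∀ᶠ z in 𝓝[≠] y, z ∉ range x := by
  rw [mapClusterPt_iff_frequently] at h
  push Not at h
  obtain ⟨U, hU, hev⟩ := h
  obtain ⟨N, hN⟩ := eventually_atTop.1 hev
  have hfin : (x '' (Iio N) \ {y}).Finite := ((finite_Iio N).image x).subset sdiff_subset
  have h1 : (x '' (Iio N) \ {y})ᶜ ∈ 𝓝 y := hfin.isClosed.isOpen_compl.mem_nhds (by simp)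
  filter_upwards [nhdsWithin_le_nhds h1, nhdsWithin_le_nhds hU, self_mem_nhdsWithin]
    with z hz1 hz2 hz3
  rintro ⟨n, rfl⟩
  by_cases hn : n < N
  · exact hz1 ⟨⟨n, hn, rfl⟩, hz3⟩
  · exact hN n (not_lt.1 hn) hz2

lemma isClosed_range_of_no_cluster [T1Space X] {x : ℕ → X}
    (h : ∀ y, ¬ MapClusterPt y atTop x) : IsClosed (range x) := by
  rw [← isOpen_compl_iff, isOpen_iff_mem_nhds]
  intro y hy
  have h1 := eventually_notMem_range (h y)
  rw [eventually_nhdsWithin_iff] at h1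
  filter_upwards [h1] with z hz
  by_cases hzy : z = y
  · rw [hzy]
    exact hy
  · exact hz hzy

/-- sequences of non-isolated points have cluster points -/
lemma exists_cluster_of_not_isolated [T35Space X] (hι : IsInducing ι) [P.IsCountablyGenerated]
    (hP : P ≤ 𝓝 1)
    (hnhds : ∀ x : X, 𝓝 x = comap (fun y => (ι x)⁻¹ * ι y) P)
    (hext : ∀ f : X → ℝ, Continuous f → ∃ F : G → ℝ, Continuous F ∧ F 1 = 0 ∧
      ∀ a b, F ((ι a)⁻¹ * ι b) = f b - f a)
    (x : ℕ → X) (hx : ∀ n, ¬ IsOpen ({x n} : Set X)) : ∃ y, MapClusterPt y atTop x := by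
  by_contra hno
  push Not at hno
  obtain ⟨B, hB⟩ := P.exists_antitone_basis
  let N : ℕ → Set X := fun n => {y | (ι (x n))⁻¹ * ι y ∈ B n}
  have hN : ∀ n, N n ∈ 𝓝 (x n) := by
    intro n
    rw [hnhds (x n)]
    exact preimage_mem_comap (hB.mem n)
  -- choose nearby points
  have hex : ∀ n, ∃ y, y ∈ N n ∧ y ∉ range x := by
    intro n
    have hne : (𝓝[≠] (x n)).NeBot := by
      refine ⟨fun hbot => hx n ?_⟩
      exact (isOpen_singleton_iff_punctured_nhds (x n)).2 hbot
    have h1 : ∀ᶠ z in 𝓝[≠] (x n), z ∈ N n := nhdsWithin_le_nhds (hN n)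
    exact (h1.and (eventually_notMem_range (hno (x n)))).exists
  choose y hyN hyx using hex
  have hlim1 : Tendsto (fun n => (ι (x n))⁻¹ * ι (y n)) atTop (𝓝 1) :=
    (hB.tendsto hyN).mono_right hP
  have hyno : ∀ z, ¬ MapClusterPt z atTop y := by
    intro z hz
    obtain ⟨U, hU, hUz⟩ := mapClusterPt_iff_ultrafilter.1 hz
    apply hno z
    refine mapClusterPt_iff_ultrafilter.2 ⟨U, hU, ?_⟩
    rw [hι.tendsto_nhds_iff]
    have h1 : Tendsto (fun n => ι (y n) * ((ι (x n))⁻¹ * ι (y n))⁻¹) U (𝓝 (ι z * 1⁻¹)) :=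
      ((hι.continuous.tendsto z).comp hUz).mul ((hlim1.mono_left hU).inv)
    simpa [Function.comp_def] using h1
  have hycl : IsClosed (range y) := isClosed_range_of_no_cluster hyno
  -- bump functions
  have hbump : ∀ n, ∃ h : X → ℝ, Continuous h ∧ h (x n) = 1 ∧ (∀ z, 0 ≤ h z) ∧
      (∀ z, z ∉ N n → h z = 0) ∧ ∀ m, h (y m) = 0 := by
    intro n
    obtain ⟨f, hf, hf0, hf1⟩ := CompletelyRegularSpace.completely_regular (x n)
      (interior (N n) ∩ (range y)ᶜ)ᶜ
      (isOpen_interior.inter hycl.isOpen_compl).isClosed_compl (by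
        rw [mem_compl_iff, not_not]
        refine ⟨mem_interior_iff_mem_nhds.2 (hN n), ?_⟩
        rintro ⟨m, hm⟩
        exact hyx m ⟨n, hm.symm⟩)
    refine ⟨fun z => 1 - (f z : ℝ), by fun_prop, ?_, ?_, ?_, ?_⟩
    · simp [hf0]
    · intro z
      have := (f z).2.2
      linarith
    · intro z hz
      have h1 : z ∈ (interior (N n) ∩ (range y)ᶜ)ᶜ := fun h => hz (interior_subset h.1)
      simp [hf1 h1]
    · intro m
      have h1 : y m ∈ (interior (N n) ∩ (range y)ᶜ)ᶜ := fun h => h.2 (mem_range_self m)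
      simp [hf1 h1]
  choose h hhc hh1 hh0 hhN hhy using hbump
  -- local finiteness
  have hloc : LocallyFinite fun n => Function.support (h n) := by
    intro z
    obtain ⟨U₀, hU₀, hev⟩ : ∃ U ∈ 𝓝 z, ∀ᶠ n in atTop, x n ∉ U := by
      have := hno z
      rw [mapClusterPt_iff_frequently] at this
      push Not at this
      exact this
    have hclaim : ∀ᶠ p : ℕ × X in atTop ×ˢ 𝓝 z, p.2 ∉ N p.1 := by
      by_contra hcon
      rw [Filter.not_eventually] at hcon
      simp only [not_not] at hcon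
      set E : Filter (ℕ × X) := (atTop ×ˢ 𝓝 z) ⊓ 𝓟 {p | p.2 ∈ N p.1} with hE
      have hEne : E.NeBot := frequently_mem_iff_neBot.1 hcon
      have hE1 : Tendsto (fun p : ℕ × X => p.1) E atTop := tendsto_fst.mono_left inf_le_left
      have hE2 : Tendsto (fun p : ℕ × X => p.2) E (𝓝 z) := tendsto_snd.mono_left inf_le_left
      have hE3 : Tendsto (fun p : ℕ × X => (ι (x p.1))⁻¹ * ι p.2) E P := by
        rw [hB.tendsto_right_iff]
        intro k _
        have hk : ∀ᶠ p : ℕ × X in E, k ≤ p.1 := hE1.eventually (eventually_ge_atTop k)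
        have hm : ∀ᶠ p : ℕ × X in E, p.2 ∈ N p.1 := mem_inf_of_right (mem_principal_self _)
        filter_upwards [hk, hm] with p hp1 hp2
        exact hB.antitone hp1 hp2
      have hE4 : Tendsto (fun p : ℕ × X => ι (x p.1)) E (𝓝 (ι z)) := by
        have h1 : Tendsto (fun p : ℕ × X => ι p.2 * ((ι (x p.1))⁻¹ * ι p.2)⁻¹) E
            (𝓝 (ι z * 1⁻¹)) :=
          ((hι.continuous.tendsto z).comp hE2).mul (hE3.mono_right hP).inv
        simpa [Function.comp_def] using h1
      have hE5 : Tendsto (fun p : ℕ × X => x p.1) E (𝓝 z) := by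
        rw [hι.tendsto_nhds_iff]
        exact hE4
      have hE6 : ∀ᶠ p : ℕ × X in E, x p.1 ∈ U₀ := hE5.eventually hU₀
      have hE7 : ∀ᶠ p : ℕ × X in E, x p.1 ∉ U₀ := hE1.eventually hev
      obtain ⟨p, hp1, hp2⟩ := (hE6.and hE7).exists
      exact hp2 hp1
    obtain ⟨pa, hpa, pb, hpb, hab⟩ := eventually_prod_iff.1 hclaim
    obtain ⟨M, hM⟩ := eventually_atTop.1 hpa
    refine ⟨{w | pb w}, hpb, (finite_Iio M).subset ?_⟩
    rintro n ⟨w, hw1, hw2⟩
    by_contra hcon
    have h1 : w ∉ N n := hab (hM n (not_lt.1 hcon)) hw2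
    exact hw1 (hhN n w h1)
  have hfc : Continuous fun z => ∑ᶠ n, h n z := continuous_finsum hhc hloc
  obtain ⟨F, hF, hF1, hFe⟩ := hext _ hfc
  have hval : ∀ n, F ((ι (x n))⁻¹ * ι (y n)) ≤ -1 := by
    intro n
    rw [hFe]
    have h1 : (∑ᶠ m, h m (y n)) = 0 := finsum_eq_zero_of_forall_eq_zero fun m => hhy m n
    have h2 : h n (x n) ≤ ∑ᶠ m, h m (x n) := by
      refine single_le_finsum n ?_ (fun m => hh0 m (x n))
      exact (hloc.point_finite (x n)).subset fun m hm => hm
    rw [hh1] at h2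
    rw [h1]
    linarith
  have hlim2 : Tendsto (fun n => F ((ι (x n))⁻¹ * ι (y n))) atTop (𝓝 0) := by
    have := (hF.tendsto 1).comp hlim1
    rw [hF1] at this
    exact this
  have := le_of_tendsto hlim2 (Eventually.of_forall hval)
  linarith

end core

end Pool.Agent.Helper71.Snf
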