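import Mathlib
import Pool.Agent.Helper71.SnfCore

open Filter Topology Set

universe u

namespace Pool.Agent.Helper71.Snf

/-! ### `k`-spaces with a regular `G_δ`-diagonal are sequential -/

lemma firstCountable_of_compact_gdelta {K : Type*} [TopologicalSpace K] [CompactSpace K]
    [T2Space K] (h : ∀ x : K, ∃ O : ℕ → Set K, (∀ m, IsOpen (O m)) ∧ (⋂ m, O m) = {x}) :
    FirstCountableTopology K := by
  refine ⟨fun x => ?_⟩
  obtain ⟨O, hO, hOx⟩ := h x
  have hx : ∀ m, x ∈ O m := fun m => by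
    have : x ∈ ⋂ m, O m := by rw [hOx]; rfl
    exact mem_iInter.1 this m
  have hC : ∀ m, ∃ C ∈ 𝓝 x, IsClosed C ∧ C ⊆ O m := fun m =>
    exists_mem_nhds_isClosed_subset ((hO m).mem_nhds (hx m))
  choose C hCn hCc hCO using hC
  let V : ℕ → Set K := fun n => ⋂ m ∈ Iic n, C m
  have hVn : ∀ n, V n ∈ 𝓝 x := fun n => (biInter_mem (finite_Iic n)).2 fun m _ => hCn m
  have hVc : ∀ n, IsClosed (V n) := fun n => isClosed_biInter fun m _ => hCc m
  have hanti : Antitone V := fun n m hnm => biInter_mono (Iic_subset_Iic.2 hnm) fun _ _ => le_rfl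
  have hVx : ⋂ n, V n ⊆ {x} := by
    rw [← hOx]
    intro z hz
    refine mem_iInter.2 fun m => hCO m ?_
    exact mem_iInter₂.1 (mem_iInter.1 hz m) m (mem_Iic.2 le_rfl)
  have hb : (𝓝 x).HasBasis (fun _ : ℕ => True) V := by
    refine ⟨fun U => ⟨fun hU => ?_, fun ⟨n, _, hn⟩ => mem_of_superset (hVn n) hn⟩⟩
    obtain ⟨n, hn⟩ := exists_subset_nhds_of_compactSpace hanti.directed_ge hVc (U := U)
      (fun z hz => by rw [mem_singleton_iff.1 (hVx hz)]; exact hU)
    exact ⟨n, trivial, hn⟩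
  exact hb.isCountablyGenerated

lemma sequential_of_kSpace {X : Type u} [TopologicalSpace X] [T2Space X] (hk : IsKSpace X)
    (hG : HasRegularGdeltaDiagonal X) : SequentialSpace X := by
  refine ⟨fun s hs => hk s fun K hK => ?_⟩
  have : CompactSpace K := isCompact_iff_compactSpace.1 hK
  obtain ⟨U, hU, hUd, -⟩ := hG
  have : FirstCountableTopology K := by
    refine firstCountable_of_compact_gdelta fun x =>
      ⟨fun m => (fun y : K => ((x : X), (y : X))) ⁻¹' U m,
        fun m => (hU m).preimage (by fun_prop), ?_⟩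
    ext y
    have h1 : y ∈ (⋂ m, (fun y : K => ((x : X), (y : X))) ⁻¹' U m) ↔
        ((x : X), (y : X)) ∈ ⋂ m, U m := by
      simp only [mem_iInter, mem_preimage]
    rw [h1, hUd]
    constructor
    · intro h
      exact (Subtype.ext h).symm
    · intro h
      rw [mem_singleton_iff.1 h]
      rfl
  have hsc : IsSeqClosed ((fun x : K => (x : X)) ⁻¹' s) := fun y p hy hp =>
    hs hy ((continuous_subtype_val.tendsto p).comp hp)
  exact hsc.isClosed

/-! ### Extraction for sequences of lists -/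

section lists

variable {Z : Type*} [TopologicalSpace Z]

/-- every sequence of entries of `L (φ j)` has a convergent subsequence -/
def RelSeq (L : ℕ → List Z) : Prop :=
  ∀ φ : ℕ → ℕ, StrictMono φ → ∀ x : ℕ → Z, (∀ j, x j ∈ L (φ j)) →
    ∃ ψ : ℕ → ℕ, StrictMono ψ ∧ ∃ y, Tendsto (x ∘ ψ) atTop (𝓝 y)

lemma RelSeq.comp {L : ℕ → List Z} (h : RelSeq L) {φ : ℕ → ℕ} (hφ : StrictMono φ) :
    RelSeq (L ∘ φ) := fun φ' hφ' x hx => h (φ ∘ φ') (hφ.comp hφ') x hx

lemma exists_tendsto_list : ∀ (N : ℕ) (L : ℕ → List Z), (∀ j, (L j).length ≤ N) → RelSeq L →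
    ∃ ψ : ℕ → ℕ, StrictMono ψ ∧ ∃ M, Tendsto (L ∘ ψ) atTop (𝓝 M) := by
  intro N
  induction N with
  | zero =>
    intro L hL _
    refine ⟨id, strictMono_id, [], ?_⟩
    have : L ∘ id = fun _ => [] := by
      funext j
      exact List.length_eq_zero_iff.1 (Nat.le_zero.1 (hL j))
    rw [this]
    exact tendsto_const_nhds
  | succ N ih =>
    intro L hL hrel
    by_cases hfr : ∃ᶠ j in atTop, L j = []
    · obtain ⟨φ, hφ, hφL⟩ := extraction_of_frequently_atTop hfr
      refine ⟨φ, hφ, [], ?_⟩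
      have : L ∘ φ = fun _ => [] := by
        funext j
        exact hφL j
      rw [this]
      exact tendsto_const_nhds
    · rw [not_frequently] at hfr
      obtain ⟨n0, hn0⟩ := eventually_atTop.1 hfr
      have hφ0 : StrictMono fun j : ℕ => j + n0 := fun a b h => by
        show a + n0 < b + n0
        omega
      have hex : ∀ j, ∃ a l, L (j + n0) = a :: l := fun j =>
        List.exists_cons_of_ne_nil (hn0 (j + n0) (by omega))
      choose a l hal using hex
      obtain ⟨ψ1, hψ1, y, hy⟩ := hrel (fun j => j + n0) hφ0 a (fun j => by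
        rw [hal j]; exact List.mem_cons_self)
      have hrel' : RelSeq (l ∘ ψ1) := by
        intro φ hφ x hx
        refine hrel ((fun j => j + n0) ∘ ψ1 ∘ φ) (hφ0.comp (hψ1.comp hφ)) x fun j => ?_
        show x j ∈ L (ψ1 (φ j) + n0)
        rw [hal]
        exact List.mem_cons_of_mem _ (hx j)
      have hlen : ∀ j, ((l ∘ ψ1) j).length ≤ N := by
        intro j
        have := hL (ψ1 j + n0)
        rw [hal, List.length_cons] at this
        exact Nat.le_of_succ_le_succ this
      obtain ⟨ψ2, hψ2, M, hM⟩ := ih (l ∘ ψ1) hlen hrel'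
      refine ⟨(fun j => j + n0) ∘ ψ1 ∘ ψ2, hφ0.comp (hψ1.comp hψ2), y :: M, ?_⟩
      have h1 : L ∘ ((fun j => j + n0) ∘ ψ1 ∘ ψ2) =
          fun j => a (ψ1 (ψ2 j)) :: l (ψ1 (ψ2 j)) := by
        funext j
        exact hal _
      rw [h1]
      exact Tendsto.cons (hy.comp hψ2.tendsto_atTop) hM

/-- decomposition of a sequence of lists converging to `a :: l` -/
lemma tendsto_list_cons {L : ℕ → List Z} {a : Z} {l : List Z}
    (h : Tendsto L atTop (𝓝 (a :: l))) :
    Tendsto (fun j => (L j).headD a) atTop (𝓝 a) ∧ Tendsto (fun j => (L j).tail) atTop (𝓝 l) ∧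
      ∀ᶠ j in atTop, L j = (L j).headD a :: (L j).tail := by
  refine ⟨?_, ?_, ?_⟩
  · have : Tendsto (fun L : List Z => L.headD a) (𝓝 (a :: l)) (𝓝 a) := by
      rw [List.tendsto_cons_iff]
      exact tendsto_fst
    exact this.comp h
  · have : Tendsto (fun L : List Z => L.tail) (𝓝 (a :: l)) (𝓝 l) := by
      rw [List.tendsto_cons_iff]
      exact tendsto_snd
    exact this.comp h
  · have : Tendsto (fun L : List Z => (L = L.headD a :: L.tail : Prop)) (𝓝 (a :: l))
        (pure True) := by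
      rw [List.tendsto_cons_iff]
      simp
    have h2 := this.comp h
    have h3 : ∀ᶠ p in pure True, p := by simp
    exact h2.eventually h3

lemma tendsto_list_nil {L : ℕ → List Z} (h : Tendsto L atTop (𝓝 [])) :
    ∀ᶠ j in atTop, L j = [] := by
  rw [nhds_nil] at h
  exact h.eventually (by simp : ∀ᶠ l in pure ([] : List Z), l = [])

end lists

/-- from extraction in `X` to extraction in `X × Bool` -/
lemma relSeq_prod_bool {X : Type*} [TopologicalSpace X] {L : ℕ → List (X × Bool)}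
    (h : ∀ φ : ℕ → ℕ, StrictMono φ → ∀ x : ℕ → X, (∀ j, x j ∈ (L (φ j)).map Prod.fst) →
      ∃ ψ : ℕ → ℕ, StrictMono ψ ∧ ∃ y, Tendsto (x ∘ ψ) atTop (𝓝 y)) : RelSeq L := by
  intro φ hφ x hx
  obtain ⟨ψ, hψ, y, hy⟩ := h φ hφ (fun j => (x j).1)
    (fun j => List.mem_map_of_mem (hx j))
  have hfr : ∃ b : Bool, ∃ᶠ j in atTop, (x (ψ j)).2 = b := by
    by_contra hcon
    push Not at hcon
    have h1 := hcon true
    have h2 := hcon false
    obtain ⟨j, hj1, hj2⟩ := (h1.and h2).exists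
    cases hb : (x (ψ j)).2
    · exact hj2 hb
    · exact hj1 hb
  obtain ⟨b, hb⟩ := hfr
  obtain ⟨θ, hθ, hθb⟩ := extraction_of_frequently_atTop hb
  refine ⟨ψ ∘ θ, hψ.comp hθ, (y, b), ?_⟩
  have h1 : x ∘ (ψ ∘ θ) = fun j => ((x (ψ (θ j))).1, b) := by
    funext j
    exact Prod.ext rfl (hθb j)
  rw [h1]
  exact (hy.comp hθ.tendsto_atTop).prodMk_nhds tendsto_const_nhds

/-! ### A clopen discrete set capturing an escaping sequence -/

lemma exists_clopen_discrete {X : Type*} [TopologicalSpace X] [T1Space X]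
    (hcl : ∀ x : ℕ → X, (∀ n, ¬ IsOpen ({x n} : Set X)) → ∃ y, MapClusterPt y atTop x)
    (x : ℕ → X) (hx : ∀ y, ¬ MapClusterPt y atTop x) (S : Set X) (hS : S.Finite) :
    ∃ D : Set X, (∀ d ∈ D, IsOpen ({d} : Set X)) ∧ IsClosed D ∧ (∀ s ∈ S, s ∉ D) ∧
      ∀ᶠ j in atTop, x j ∈ D := by
  have h1 : ∀ᶠ j in atTop, IsOpen ({x j} : Set X) := by
    by_contra hcon
    rw [not_eventually] at hcon
    obtain ⟨φ, hφ, hφx⟩ := extraction_of_frequently_atTop hcon
    obtain ⟨y, hy⟩ := hcl (x ∘ φ) hφx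
    exact hx y (hy.of_comp hφ.tendsto_atTop)
  have h2 : ∀ᶠ j in atTop, x j ∉ S := by
    by_contra hcon
    rw [not_eventually] at hcon
    simp only [not_not] at hcon
    obtain ⟨y, -, hy⟩ := hS.isCompact.exists_mapClusterPt_of_frequently hcon
    exact hx y hy
  obtain ⟨N, hN⟩ := eventually_atTop.1 (h1.and h2)
  have hrange : IsClosed (range fun j => x (j + N)) := by
    refine isClosed_range_of_no_cluster fun y hy => hx y ?_
    exact MapClusterPt.of_comp (φ := fun j => j + N) (tendsto_add_atTop_nat N) hy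
  refine ⟨range fun j => x (j + N), ?_, hrange, ?_, ?_⟩
  · rintro _ ⟨j, rfl⟩
    exact (hN (j + N) (by omega)).1
  · rintro s hs ⟨j, hj⟩
    exact (hN (j + N) (by omega)).2 (by rw [show x (j + N) = s from hj]; exact hs)
  · refine eventually_atTop.2 ⟨N, fun j hj => ⟨j - N, ?_⟩⟩
    show x (j - N + N) = x j
    rw [Nat.sub_add_cancel hj]

end Pool.Agent.Helper71.Snf
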