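import Mathlib
import Pool.Agent.Helper71.SnfSeq

open Filter Topology Set

universe u

namespace Pool.Agent.Helper71.Snf

/-! ### The case of `A(X)` -/

/-- the group element of a signed letter -/
def aletter {X : Type u} (p : X × Bool) : FreeAbTopGroup X :=
  match p.2 with
  | true => agen p.1
  | false => - agen p.1

/-- the element of `A(X)` represented by a word -/
def aword {X : Type u} : List (X × Bool) → FreeAbTopGroup X
  | [] => 0
  | a :: L => aletter a + aword L

lemma continuous_aletter {X : Type u} [TopologicalSpace X] :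
    Continuous (aletter : X × Bool → FreeAbTopGroup X) := by
  rw [continuous_prod_of_discrete_right]
  intro b
  cases b
  · exact continuous_agen.neg
  · exact continuous_agen

lemma continuous_aword {X : Type u} [TopologicalSpace X] :
    Continuous (aword : List (X × Bool) → FreeAbTopGroup X) := by
  refine continuous_iff_continuousAt.2 fun L => ?_
  refine List.tendsto_nhds (f := aword) (r := fun L => 𝓝 (aword L)) ?_ ?_ L
  · rw [tendsto_pure_left]
    intro s hs
    exact mem_of_mem_nhds hs
  · intro l a h
    simp only [aword]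
    exact ((continuous_aletter.tendsto a).comp tendsto_fst).add (h.comp tendsto_snd)

/-- multiplicity of `x` -/
noncomputable def mult {X : Type u} (x : X) : FreeAbTopGroup X →+ ℤ :=
  (FreeAbelianGroup.coeff x : FreeAbelianGroup X →+ ℤ)

open Classical in
lemma mult_agen {X : Type u} (x y : X) : mult x (agen y) = if y = x then 1 else 0 := by
  show (FreeAbelianGroup.toFinsupp (FreeAbelianGroup.of y)) x = _
  rw [FreeAbelianGroup.toFinsupp_of, Finsupp.single_apply]

open Classical in
lemma abs_mult_aletter {X : Type u} (x : X) (p : X × Bool) :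
    (mult x (aletter p)).natAbs = if p.1 = x then 1 else 0 := by
  rcases p with ⟨y, b⟩
  cases b
  · show (mult x (- agen y)).natAbs = _
    rw [map_neg, Int.natAbs_neg, mult_agen]
    split_ifs <;> rfl
  · show (mult x (agen y)).natAbs = _
    rw [mult_agen]
    split_ifs <;> rfl

/-- the reduced length -/
noncomputable def alen {X : Type u} (a : FreeAbTopGroup X) : ℕ :=
  ∑ x ∈ FreeAbelianGroup.support (a : FreeAbelianGroup X),
      (FreeAbelianGroup.coeff x (a : FreeAbelianGroup X)).natAbs

lemma alen_eq_of_subset {X : Type u} (a : FreeAbTopGroup X) (s : Finset X)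
    (hs : FreeAbelianGroup.support (a : FreeAbelianGroup X) ⊆ s) :
    alen a = ∑ x ∈ s, (mult x a).natAbs := by
  refine Finset.sum_subset hs fun x _ hx => ?_
  have hx' := (FreeAbelianGroup.notMem_support_iff x (a : FreeAbelianGroup X)).1 hx
  rw [hx']
  rfl

lemma alen_aword_le {X : Type u} (L : List (X × Bool)) : alen (aword L) ≤ L.length := by
  classical
  induction L with
  | nil =>
    have : FreeAbelianGroup.support ((aword ([] : List (X × Bool)) : FreeAbTopGroup X) :
        FreeAbelianGroup X) = ∅ := FreeAbelianGroup.support_zero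
    rw [alen, this]
    simp
  | cons a L ih =>
    set s : Finset X := FreeAbelianGroup.support (aword (a :: L) : FreeAbelianGroup X) ∪
      (FreeAbelianGroup.support (aletter a : FreeAbelianGroup X) ∪
        FreeAbelianGroup.support (aword L : FreeAbelianGroup X)) ∪ {a.1} with hs
    rw [alen_eq_of_subset _ s (by
      intro x hx
      simp only [hs, Finset.mem_union]
      exact Or.inl (Or.inl hx))]
    rw [alen_eq_of_subset _ s (by
      intro x hx
      simp only [hs, Finset.mem_union]
      exact Or.inl (Or.inr (Or.inr hx)))] at ih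
    have h1 : ∑ x ∈ s, (mult x (aword (a :: L))).natAbs ≤
        ∑ x ∈ s, ((mult x (aletter a)).natAbs + (mult x (aword L)).natAbs) := by
      refine Finset.sum_le_sum fun x _ => ?_
      show (mult x (aletter a + aword L)).natAbs ≤ _
      rw [map_add]
      exact Int.natAbs_add_le _ _
    refine h1.trans ?_
    rw [Finset.sum_add_distrib, List.length_cons, add_comm]
    refine add_le_add ih ?_
    simp only [abs_mult_aletter]
    rw [Finset.sum_ite_eq]
    split_ifs <;> simp

/-- the element `∑ x ∈ s, c x • x` as a word of length `∑ |c x|` -/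
lemma exists_aword {X : Type u} (s : Finset X) (c : X → ℤ) :
    ∃ L : List (X × Bool), aword L = ∑ x ∈ s, c x • (agen x : FreeAbTopGroup X) ∧
      L.length = ∑ x ∈ s, (c x).natAbs ∧ ∀ p ∈ L, p.1 ∈ s := by
  classical
  have happ : ∀ L1 L2 : List (X × Bool), aword (L1 ++ L2) = aword L1 + aword L2 := by
    intro L1 L2
    induction L1 with
    | nil => simp [aword]
    | cons a L1 ih =>
      rw [List.cons_append]
      simp only [aword]
      rw [ih, add_assoc]
  have hrep : ∀ (n : ℕ) (p : X × Bool), aword (List.replicate n p) = n • aletter p := by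
    intro n p
    induction n with
    | zero => simp [aword]
    | succ n ih =>
      rw [List.replicate_succ]
      simp only [aword]
      rw [ih, succ_nsmul']
  induction s using Finset.induction_on with
  | empty => exact ⟨[], by simp [aword], by simp, by simp⟩
  | insert x s hx ih =>
    obtain ⟨L, hL1, hL2, hL3⟩ := ih
    rcases Int.natAbs_eq (c x) with hc | hc
    · refine ⟨List.replicate (c x).natAbs (x, true) ++ L, ?_, ?_, ?_⟩
      · rw [happ, hL1, hrep, Finset.sum_insert hx]
        congr 1
        conv_rhs => rw [hc]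
        rw [natCast_zsmul]
        rfl
      · rw [List.length_append, List.length_replicate, hL2, Finset.sum_insert hx]
      · intro p hp
        rcases List.mem_append.1 hp with hp | hp
        · rw [List.eq_of_mem_replicate hp]
          exact Finset.mem_insert_self _ _
        · exact Finset.mem_insert_of_mem (hL3 p hp)
    · refine ⟨List.replicate (c x).natAbs (x, false) ++ L, ?_, ?_, ?_⟩
      · rw [happ, hL1, hrep, Finset.sum_insert hx]
        congr 1
        conv_rhs => rw [hc]
        rw [neg_zsmul, natCast_zsmul, ← smul_neg]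
        rfl
      · rw [List.length_append, List.length_replicate, hL2, Finset.sum_insert hx]
      · intro p hp
        rcases List.mem_append.1 hp with hp | hp
        · rw [List.eq_of_mem_replicate hp]
          exact Finset.mem_insert_self _ _
        · exact Finset.mem_insert_of_mem (hL3 p hp)

/-- reduced representation of an element of `A(X)` -/
lemma exists_reduced_aword {X : Type u} (a : FreeAbTopGroup X) :
    ∃ L : List (X × Bool), aword L = a ∧ L.length = alen a ∧
      ∀ p ∈ L, mult p.1 a ≠ 0 := by
  obtain ⟨L, hL1, hL2, hL3⟩ := exists_aword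
    (FreeAbelianGroup.support (a : FreeAbelianGroup X))
    (fun x => FreeAbelianGroup.coeff x (a : FreeAbelianGroup X))
  refine ⟨L, ?_, hL2, ?_⟩
  · rw [hL1]
    exact (FreeAbelianGroup.eq_sum_support_coeff_smul_of (a : FreeAbelianGroup X)).symm
  · intro p hp
    exact (FreeAbelianGroup.mem_support_iff p.1 (a : FreeAbelianGroup X)).1 (hL3 p hp)

/-- `A(X)` is Hausdorff -/
instance freeAbTop_t2 {X : Type u} [TopologicalSpace X] [T35Space X] :
    T2Space (FreeAbTopGroup X) := by
  classical
  refine IsTopologicalAddGroup.t2Space_of_zero_sep ?_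
  intro w hw
  have hne : (FreeAbelianGroup.support (w : FreeAbelianGroup X)).Nonempty :=
    FreeAbelianGroup.nonempty_support_iff.2 hw
  obtain ⟨x, hx⟩ := hne
  have hxw : mult x w ≠ 0 := (FreeAbelianGroup.mem_support_iff x _).1 hx
  set s : Finset X := (FreeAbelianGroup.support (w : FreeAbelianGroup X)).erase x with hs
  obtain ⟨f, hf, hf0, hf1⟩ := CompletelyRegularSpace.completely_regular x (s : Set X)
    s.finite_toSet.isClosed (by simp [hs])
  let f' : X → ℝ := fun y => 1 - (f y : ℝ)
  have hf' : Continuous f' := by fun_prop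
  have hval : alift f' w = (mult x w : ℝ) := by
    have h1 := FreeAbelianGroup.eq_sum_support_coeff_smul_of (w : FreeAbelianGroup X)
    have h2 : alift f' w = ∑ y ∈ FreeAbelianGroup.support (w : FreeAbelianGroup X),
        (mult y w) • f' y := by
      conv_lhs => rw [h1]
      refine (map_sum (alift f' : FreeAbTopGroup X →+ ℝ) _ _).trans ?_
      refine Finset.sum_congr rfl fun y _ => ?_
      refine (map_zsmul (alift f' : FreeAbTopGroup X →+ ℝ) _ _).trans ?_
      congr 1
      exact alift_agen f' y
    rw [h2, Finset.sum_eq_single x]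
    · simp [f', hf0]
    · intro y hy hyx
      have : f y = 1 := hf1 (by simp [hs, hyx]; simpa using hy)
      simp [f', this]
    · intro h
      exact absurd hx h
  refine ⟨{v | |alift f' v| < |(mult x w : ℝ)|}, ?_, ?_⟩
  · have hc : Continuous fun v : FreeAbTopGroup X => |alift f' v| :=
      (continuous_alift hf').abs
    refine (isOpen_Iio.preimage hc).mem_nhds ?_
    show |alift f' (0 : FreeAbTopGroup X)| < |(mult x w : ℝ)|
    rw [map_zero, abs_zero]
    positivity
  · intro h
    have h' : |alift f' w| < |(mult x w : ℝ)| := h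
    rw [hval] at h'
    exact lt_irrefl _ h'

/-- in a convergent sequence, the letters cannot escape -/
lemma aletters_cluster {X : Type u} [TopologicalSpace X] [T1Space X]
    (hcl : ∀ x : ℕ → X, (∀ n, ¬ IsOpen ({x n} : Set X)) → ∃ y, MapClusterPt y atTop x)
    (g : ℕ → FreeAbTopGroup X) (w : FreeAbTopGroup X) (hg : Tendsto g atTop (𝓝 w))
    (x : ℕ → X) (hx : ∀ j, mult (x j) (g j) ≠ 0) :
    ∃ y, MapClusterPt y atTop x := by
  classical
  by_contra hno
  push Not at hno
  obtain ⟨W, hW1, -, -⟩ := exists_reduced_aword w
  obtain ⟨D, hDo, hDc, hDW, hev⟩ := exists_clopen_discrete hcl x hno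
    {s | s ∈ W.map Prod.fst} (List.finite_toSet _)
  let ψ : X → FreeAbelianGroup X := fun x => if x ∈ D then FreeAbelianGroup.of x else 0
  let _ : TopologicalSpace (FreeAbelianGroup X) := ⊥
  have : DiscreteTopology (FreeAbelianGroup X) := ⟨rfl⟩
  have hψ : Continuous ψ := by
    rw [continuous_iff_continuousAt]
    intro z
    rw [ContinuousAt, show 𝓝 (ψ z) = pure (ψ z) by rw [nhds_discrete], tendsto_pure]
    by_cases hz : z ∈ D
    · filter_upwards [(hDo z hz).mem_nhds (mem_singleton z)] with y hy
      rw [mem_singleton_iff.1 hy]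
    · filter_upwards [hDc.isOpen_compl.mem_nhds hz] with y hy
      show ψ y = ψ z
      simp only [ψ]
      rw [if_neg hz, if_neg hy]
  have hc := continuous_alift hψ
  have h1 : ∀ᶠ j in atTop, alift ψ (g j) = alift ψ w := by
    have := (hc.tendsto w).comp hg
    rw [nhds_discrete, tendsto_pure] at this
    exact this
  have hw0 : alift ψ w = 0 := by
    rw [← hW1]
    have : ∀ W : List (X × Bool), (∀ p ∈ W, p.1 ∉ D) → alift ψ (aword W) = 0 := by
      intro W
      induction W with
      | nil => intro _; exact map_zero _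
      | cons a W ih =>
        intro h
        simp only [aword, map_add]
        rw [ih (fun p hp => h p (List.mem_cons_of_mem _ hp)), add_zero]
        have ha : ψ a.1 = 0 := by
          simp only [ψ]
          rw [if_neg (h a List.mem_cons_self)]
        rcases a with ⟨y, b⟩
        cases b
        · show alift ψ (- agen y) = 0
          rw [map_neg, alift_agen, ha, neg_zero]
        · show alift ψ (agen y) = 0
          rw [alift_agen, ha]
    exact this W (fun p hp => hDW p.1 (List.mem_map_of_mem hp))
  obtain ⟨j, hj1, hj2⟩ := (h1.and hev).exists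
  have hmult : ∀ v : FreeAbTopGroup X,
      FreeAbelianGroup.coeff (x j) (alift ψ v) = mult (x j) v := by
    intro v
    have : (FreeAbelianGroup.coeff (x j)).comp
        (FreeAbelianGroup.lift ψ : FreeAbelianGroup X →+ FreeAbelianGroup X) =
        FreeAbelianGroup.coeff (x j) := by
      ext y
      simp only [AddMonoidHom.comp_apply, FreeAbelianGroup.lift_apply_of, ψ]
      by_cases hy : y ∈ D
      · rw [if_pos hy]
      · rw [if_neg hy, map_zero]
        have hne : y ≠ x j := fun h => hy (h ▸ hj2)
        have := mult_agen (x j) y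
        rw [if_neg hne] at this
        exact this.symm
    exact DFunLike.congr_fun this v
  apply hx j
  rw [← hmult, hj1, hw0, map_zero]

/-! ### The filters giving the sn-network -/

section filters

variable {X : Type u} (P : Filter (FreeAbTopGroup X))

/-- the filter `P + ⋯ + P` -/
def sumFilter : ℕ → Filter (FreeAbTopGroup X)
  | 0 => P
  | n + 1 => map₂ (· + ·) P (sumFilter n)

lemma sumFilter_countable [P.IsCountablyGenerated] :
    ∀ n : ℕ, (sumFilter P n).IsCountablyGenerated
  | 0 => by
    rw [sumFilter]
    infer_instance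
  | n + 1 => by
    have := sumFilter_countable n
    rw [sumFilter, ← map_prod_eq_map₂]
    infer_instance

lemma sumFilter_le [TopologicalSpace X] (hP : P ≤ 𝓝 0) : ∀ n : ℕ, sumFilter P n ≤ 𝓝 0
  | 0 => hP
  | n + 1 => by
    refine (map₂_mono hP (sumFilter_le hP n)).trans ?_
    rw [← map_prod_eq_map₂, ← nhds_prod_eq]
    have := (continuous_add.tendsto ((0 : FreeAbTopGroup X), (0 : FreeAbTopGroup X)))
    rw [add_zero] at this
    exact this

lemma tendsto_map₂_add {Q R : Filter (FreeAbTopGroup X)} {u v : ℕ → FreeAbTopGroup X}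
    (hu : Tendsto u atTop Q) (hv : Tendsto v atTop R) :
    Tendsto (fun j => u j + v j) atTop (map₂ (· + ·) Q R) := by
  rw [← map_prod_eq_map₂]
  exact tendsto_map.comp (hu.prodMk hv)

lemma aword_mem {L : List (X × Bool)} {n : ℕ} (h : L.length ≤ n) :
    aword L ∈ FreeAbTopGroupLE X n :=
  (alen_aword_le L).trans h

variable {P}

lemma tendsto_const_zero [TopologicalSpace X]
    (hP2 : ∀ g : ℕ → FreeAbTopGroup X, (∀ n, g n ∈ FreeAbTopGroupLE X 2) →
      Tendsto g atTop (𝓝 0) → Tendsto g atTop P) :
    ∀ m, Tendsto (fun _ : ℕ => (0 : FreeAbTopGroup X)) atTop (sumFilter P m)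
  | 0 => hP2 _ (fun _ => aword_mem (L := []) (by simp)) tendsto_const_nhds
  | m + 1 => by
    have h1 := tendsto_map₂_add (tendsto_const_zero hP2 0) (tendsto_const_zero hP2 m)
    simp only [add_zero] at h1
    exact h1

lemma tendsto_aletter_sub [TopologicalSpace X]
    (hP2 : ∀ g : ℕ → FreeAbTopGroup X, (∀ n, g n ∈ FreeAbTopGroupLE X 2) →
      Tendsto g atTop (𝓝 0) → Tendsto g atTop P)
    {a : ℕ → X × Bool} {a0 : X × Bool} (ha : Tendsto a atTop (𝓝 a0)) :
    Tendsto (fun j => aletter (a j) - aletter a0) atTop P := by
  refine hP2 _ (fun n => ?_) ?_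
  · have : aletter (a n) - aletter a0 = aword [a n, (a0.1, !a0.2)] := by
      simp only [aword, add_zero]
      rw [sub_eq_add_neg]
      congr 1
      rcases a0 with ⟨x, c⟩
      cases c
      · show -(-(agen x)) = agen x
        rw [neg_neg]
      · rfl
    rw [this]
    exact aword_mem (by simp)
  · have := ((continuous_aletter.tendsto a0).comp ha).sub
      (tendsto_const_nhds (x := (aletter a0)))
    rw [sub_self] at this
    exact this

lemma tendsto_sumFilter [TopologicalSpace X]
    (hP2 : ∀ g : ℕ → FreeAbTopGroup X, (∀ n, g n ∈ FreeAbTopGroupLE X 2) →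
      Tendsto g atTop (𝓝 0) → Tendsto g atTop P) :
    ∀ (l : List (X × Bool)) (L : ℕ → List (X × Bool)) (m : ℕ), l.length ≤ m →
      Tendsto L atTop (𝓝 l) →
      Tendsto (fun j => aword (L j) - aword l) atTop (sumFilter P m)
  | [], L, m, _, hL => by
    refine (tendsto_const_zero hP2 m).congr' ?_
    filter_upwards [tendsto_list_nil hL] with j hj
    rw [hj, sub_self]
  | a :: l, L, m, hm, hL => by
    obtain ⟨k, rfl⟩ : ∃ k, m = k + 1 := by
      rw [List.length_cons] at hm
      exact ⟨m - 1, by omega⟩
    obtain ⟨hh, ht, he⟩ := tendsto_list_cons hL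
    have ih := tendsto_sumFilter hP2 l _ k (by rw [List.length_cons] at hm; omega) ht
    have h1 := tendsto_map₂_add (tendsto_aletter_sub hP2 hh) ih
    refine h1.congr' ?_
    filter_upwards [he] with j hj
    conv_rhs => rw [hj]
    simp only [aword]
    abel

end filters

/-- the key step for `A_n(X)` -/
lemma snfAt_A {X : Type u} [TopologicalSpace X] [T35Space X] [FirstCountableTopology X]
    (hcl : ∀ x : ℕ → X, (∀ n, ¬ IsOpen ({x n} : Set X)) → ∃ y, MapClusterPt y atTop x)
    (P : Filter (FreeAbTopGroup X)) [P.IsCountablyGenerated] (hP : P ≤ 𝓝 0)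
    (hP2 : ∀ g : ℕ → FreeAbTopGroup X, (∀ n, g n ∈ FreeAbTopGroupLE X 2) →
      Tendsto g atTop (𝓝 0) → Tendsto g atTop P) (n : ℕ)
    (w : FreeAbTopGroupLE X n) : SnfAt w := by
  classical
  have hcount := sumFilter_countable P n
  refine ⟨comap Subtype.val (map (fun g => w.1 + g) (sumFilter P n)), inferInstance, ?_, ?_⟩
  · rw [nhds_subtype]
    refine comap_mono ?_
    have := (map_mono (m := fun g => w.1 + g) (sumFilter_le P hP n)).trans
      ((continuous_const_add w.1).tendsto 0)
    rwa [add_zero] at this
  intro s hs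
  rw [tendsto_comap_iff]
  have hs' : Tendsto (fun j => (s j).1) atTop (𝓝 w.1) :=
    (continuous_subtype_val.tendsto w).comp hs
  refine tendsto_of_subseq_tendsto fun ns hns => ?_
  let g : ℕ → FreeAbTopGroup X := fun j => (s (ns j)).1
  have hg : Tendsto g atTop (𝓝 w.1) := hs'.comp hns
  have hex := fun j => exists_reduced_aword (g j)
  choose L hL hlen0 hLm using hex
  have hlen : ∀ j, (L j).length ≤ n := fun j => by
    rw [hlen0 j]
    exact (s (ns j)).2
  have hrel : RelSeq L := by
    refine relSeq_prod_bool fun φ hφ x hx => ?_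
    obtain ⟨y, hy⟩ := aletters_cluster hcl (g ∘ φ) w.1 (hg.comp hφ.tendsto_atTop) x (by
      intro j
      obtain ⟨p, hp, hpx⟩ := List.mem_map.1 (hx j)
      rw [← hpx]
      exact hLm (φ j) p hp)
    obtain ⟨ψ, hψ, hψy⟩ := hy.tendsto_subseq
    exact ⟨ψ, hψ, y, hψy⟩
  obtain ⟨ψ, hψ, M, hM⟩ := exists_tendsto_list n L hlen hrel
  refine ⟨ψ, ?_⟩
  show Tendsto (fun j => g (ψ j)) atTop _
  have hgw : ∀ j, g (ψ j) = aword ((L ∘ ψ) j) := fun j => (hL (ψ j)).symm
  have hMw : aword M = w.1 := by
    refine tendsto_nhds_unique ((continuous_aword.tendsto M).comp hM) ?_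
    have := hg.comp hψ.tendsto_atTop
    refine this.congr fun j => ?_
    exact hgw j
  have hMlen : M.length ≤ n := by
    have h1 : ∀ᶠ l in 𝓝 M, l.length = M.length := by
      have := List.continuousAt_length M
      rw [ContinuousAt, show 𝓝 (M.length) = pure (M.length) by rw [nhds_discrete],
        tendsto_pure] at this
      exact this
    obtain ⟨j, hj⟩ := (hM.eventually h1).exists
    rw [← hj]
    exact hlen (ψ j)
  have h1 := tendsto_sumFilter hP2 M (L ∘ ψ) n hMlen hM
  have h2 := (tendsto_map (f := fun g => w.1 + g)).comp h1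
  refine h2.congr fun j => ?_
  show w.1 + (aword ((L ∘ ψ) j) - aword M) = g (ψ j)
  rw [hMw, hgw j]
  abel

end Pool.Agent.Helper71.Snf
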