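import Mathlib
import Pool.Agent.Helper71.SnfA

open Filter Topology Set

universe u

namespace Pool.Agent.Helper71.Snf

theorem main_A (X : Type u) [TopologicalSpace X] [T35Space X] [SequentialSpace X]
    (h2 : SnfCountable (FreeAbTopGroupLE X 2)) (n : ℕ) :
    SnfCountable (FreeAbTopGroupLE X n) := by
  have hone : (0 : FreeAbTopGroup X) ∈ FreeAbTopGroupLE X 2 := aword_mem (L := []) (by simp)
  obtain ⟨H, hHc, hHle, hHs⟩ := snfAt_of_snfCountable h2 ⟨0, hone⟩
  set P : Filter (FreeAbTopGroup X) := map Subtype.val H with hPdef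
  have hPc : P.IsCountablyGenerated := by
    rw [hPdef]
    infer_instance
  have hP : P ≤ 𝓝 0 :=
    (map_mono hHle).trans (continuous_subtype_val.tendsto
      (⟨0, hone⟩ : FreeAbTopGroupLE X 2))
  have hP2 : ∀ g : ℕ → FreeAbTopGroup X, (∀ n, g n ∈ FreeAbTopGroupLE X 2) →
      Tendsto g atTop (𝓝 0) → Tendsto g atTop P := by
    intro g hg hg1
    have h1 : Tendsto (fun n => (⟨g n, hg n⟩ : FreeAbTopGroupLE X 2)) atTop (𝓝 ⟨0, hone⟩) :=
      tendsto_subtype_rng.2 hg1
    exact tendsto_map.comp (hHs _ h1)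
  -- multiplicative version
  let ι : X → Multiplicative (FreeAbTopGroup X) := fun x => Multiplicative.ofAdd (agen x)
  let P' : Filter (Multiplicative (FreeAbTopGroup X)) := map Multiplicative.ofAdd P
  have hP'c : P'.IsCountablyGenerated := by
    show (map Multiplicative.ofAdd P).IsCountablyGenerated
    infer_instance
  have hP' : P' ≤ 𝓝 1 := (map_mono hP).trans (continuous_ofAdd.tendsto (0 : FreeAbTopGroup X))
  have hext : ∀ f : X → ℝ, Continuous f → ∃ F : Multiplicative (FreeAbTopGroup X) → ℝ,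
      Continuous F ∧ F 1 = 0 ∧ (∀ a, F (ι a) = f a) ∧
      ∀ a b, F ((ι a)⁻¹ * ι b) = f b - f a := by
    intro f hf
    refine ⟨fun g => alift f (Multiplicative.toAdd g),
      (continuous_alift hf).comp continuous_toAdd, ?_, ?_, ?_⟩
    · simp
    · intro a
      exact alift_agen f a
    · intro a b
      simp only [ι, toAdd_mul, toAdd_inv, toAdd_ofAdd, map_add, map_neg, alift_agen]
      ring
  have hι : IsInducing ι := by
    refine inducing_of_ext (continuous_ofAdd.comp continuous_agen) fun f hf => ?_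
    obtain ⟨F, hF, -, hFe, -⟩ := hext f hf
    exact ⟨F, hF, hFe⟩
  have hseq : ∀ u v : ℕ → X, Tendsto (fun n => (ι (u n))⁻¹ * ι (v n)) atTop (𝓝 1) →
      Tendsto (fun n => (ι (u n))⁻¹ * ι (v n)) atTop P' := by
    intro u v huv
    have h1 : Tendsto (fun n => - agen (u n) + agen (v n)) atTop
        (𝓝 (0 : FreeAbTopGroup X)) := (continuous_toAdd.tendsto 1).comp huv
    have h2 := hP2 _ (fun n => by
      have : - agen (u n) + agen (v n) = aword [(u n, false), (v n, true)] := by
        simp only [aword, add_zero]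
        rfl
      rw [this]
      exact aword_mem (by simp)) h1
    exact tendsto_map.comp h2
  have hfr : FrechetUrysohnSpace X := frechet_of_seq hι hP' hseq
  have hnhds : ∀ x : X, 𝓝 x = comap (fun y => (ι x)⁻¹ * ι y) P' := fun x =>
    nhds_eq_comap_of_frechet hι hP' hseq x
  have hfc : FirstCountableTopology X := by
    refine ⟨fun x => ?_⟩
    rw [hnhds x]
    infer_instance
  have hcl : ∀ x : ℕ → X, (∀ n, ¬ IsOpen ({x n} : Set X)) → ∃ y, MapClusterPt y atTop x :=
    fun x hx => exists_cluster_of_not_isolated hι hP' hnhds (fun f hf => by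
      obtain ⟨F, hF, hF1, -, hFe⟩ := hext f hf
      exact ⟨F, hF, hF1, hFe⟩) x hx
  exact snfCountable_of_snfAt fun w => snfAt_A hcl P hP hP2 n w

end Pool.Agent.Helper71.Snf
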