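import Mathlib
import Pool.Agent.Helper71.SnfSeq

open Filter Topology Set

universe u

namespace Pool.Agent.Helper71.Snf

/-! ### The case of `F(X)` -/

/-- the group element of a signed letter -/
def letter {X : Type u} (p : X × Bool) : FreeTopGroup X :=
  match p.2 with
  | true => gen p.1
  | false => (gen p.1)⁻¹

/-- the element of `F(X)` represented by a word -/
def word {X : Type u} (L : List (X × Bool)) : FreeTopGroup X := (FreeGroup.mk L : FreeGroup X)

lemma word_nil {X : Type u} : word ([] : List (X × Bool)) = 1 := rfl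

lemma word_cons {X : Type u} (a : X × Bool) (L : List (X × Bool)) :
    word (a :: L) = letter a * word L := by
  rcases a with ⟨x, b⟩
  cases b <;> rfl

lemma continuous_letter {X : Type u} [TopologicalSpace X] :
    Continuous (letter : X × Bool → FreeTopGroup X) := by
  rw [continuous_prod_of_discrete_right]
  intro b
  cases b
  · exact continuous_gen.inv
  · exact continuous_gen

lemma continuous_word {X : Type u} [TopologicalSpace X] :
    Continuous (word : List (X × Bool) → FreeTopGroup X) := by
  refine continuous_iff_continuousAt.2 fun L => ?_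
  refine List.tendsto_nhds (f := word) (r := fun L => 𝓝 (word L)) ?_ ?_ L
  · rw [tendsto_pure_left]
    intro s hs
    exact mem_of_mem_nhds hs
  · intro l a h
    simp only [word_cons]
    exact ((continuous_letter.tendsto a).comp tendsto_fst).mul (h.comp tendsto_snd)

/-- exponent contribution of a letter -/
def expo (p b : Bool) : ℤ := if p then (if b then 1 else -1) else 0

/-- permutation attached to a letter -/
def perm3 (p : Bool) : Equiv.Perm (Fin 3) := if p then Equiv.swap 0 1 else Equiv.swap 1 2

lemma bool_check : ∀ p1 b1 p2 b2 p3 b3 : Bool, (p1 = true → p2 = true → b1 = b2) →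
    (p2 = true → p3 = true → b2 = b3) → (p1 = true ∨ p2 = true ∨ p3 = true) →
    expo p1 b1 + (expo p2 b2 + expo p3 b3) = 0 →
    (perm3 p1 * (perm3 p2 * perm3 p3)) 0 = 0 → False := by
  decide

lemma bool_check2 : ∀ p1 b1 p2 b2 : Bool, (p1 = true → p2 = true → b1 = b2) →
    (p1 = true ∨ p2 = true) → expo p1 b1 + expo p2 b2 = 0 → False := by
  decide

/-- the two auxiliary homomorphisms only see whether a letter equals `d` -/
lemma not_reduced_aux {X : Type u} (d : X) (f : X → Multiplicative ℤ)
    (g : X → Equiv.Perm (Fin 3)) (hfd : f d = Multiplicative.ofAdd 1)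
    (hf : ∀ x, x ≠ d → f x = 1) (hgd : g d = Equiv.swap 0 1)
    (hg : ∀ x, x ≠ d → g x = Equiv.swap 1 2) (L : List (X × Bool)) (hlen : L.length ≤ 3)
    (hred : FreeGroup.IsReduced L) (hd : d ∈ L.map Prod.fst)
    (h1 : FreeGroup.lift f (FreeGroup.mk L) = 1)
    (h2 : FreeGroup.lift g (FreeGroup.mk L) (0 : Fin 3) = 0) : False := by
  classical
  have hfl : ∀ (x : X) (b : Bool), Multiplicative.toAdd (cond b (f x) (f x)⁻¹) =
      expo (decide (x = d)) b := by
    intro x b
    by_cases hx : x = d
    · subst hx
      cases b <;> simp [hfd, expo]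
    · cases b <;> simp [hf x hx, expo, hx]
  have hgl : ∀ (x : X) (b : Bool), cond b (g x) (g x)⁻¹ = perm3 (decide (x = d)) := by
    intro x b
    by_cases hx : x = d
    · subst hx
      cases b <;> simp [hgd, perm3]
    · cases b <;> simp [hg x hx, perm3, hx]
  rw [FreeGroup.lift_mk] at h1 h2
  have h1' := congrArg Multiplicative.toAdd h1
  rw [toAdd_one] at h1'
  have hdec : ∀ x : X, decide (x = d) = true ↔ x = d := fun x => by simp
  match L, hlen, hred, hd, h1', h2 with
  | [], _, _, hd, _, _ => simp at hd
  | [(x, b)], _, _, hd, h1, h2 =>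
    have hx : x = d := by
      simp at hd
      exact hd.symm
    simp only [List.map_cons, List.map_nil, List.prod_cons, List.prod_nil, mul_one, hfl] at h1
    rw [(hdec x).2 hx] at h1
    cases b <;> simp [expo] at h1
  | [(x, b), (y, c)], _, hred, hd, h1, h2 =>
    simp only [FreeGroup.isReduced_cons_cons] at hred
    simp only [List.map_cons, List.map_nil, List.prod_cons, List.prod_nil, mul_one, toAdd_mul,
      hfl] at h1
    simp only [List.map_cons, List.map_nil, List.mem_cons, List.not_mem_nil, or_false] at hd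
    refine bool_check2 (decide (x = d)) b (decide (y = d)) c ?_ ?_ h1
    · intro hx hy
      exact hred.1 (((hdec x).1 hx).trans ((hdec y).1 hy).symm)
    · rcases hd with hd | hd
      · exact Or.inl ((hdec x).2 hd.symm)
      · exact Or.inr ((hdec y).2 hd.symm)
  | [(x, b), (y, c), (z, e)], _, hred, hd, h1, h2 =>
    simp only [FreeGroup.isReduced_cons_cons] at hred
    simp only [List.map_cons, List.map_nil, List.prod_cons, List.prod_nil, mul_one, toAdd_mul,
      hfl] at h1
    simp only [List.map_cons, List.map_nil, List.prod_cons, List.prod_nil, mul_one, hgl] at h2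
    simp only [List.map_cons, List.map_nil, List.mem_cons, List.not_mem_nil, or_false] at hd
    refine bool_check (decide (x = d)) b (decide (y = d)) c (decide (z = d)) e ?_ ?_ ?_ h1 h2
    · intro hx hy
      exact hred.1 (((hdec x).1 hx).trans ((hdec y).1 hy).symm)
    · intro hy hz
      exact hred.2.1 (((hdec y).1 hy).trans ((hdec z).1 hz).symm)
    · rcases hd with hd | hd | hd
      · exact Or.inl ((hdec x).2 hd.symm)
      · exact Or.inr (Or.inl ((hdec y).2 hd.symm))
      · exact Or.inr (Or.inr ((hdec z).2 hd.symm))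
  | _ :: _ :: _ :: _ :: _, hlen, _, _, _, _ =>
    simp at hlen
    omega

/-- in a convergent sequence of reduced words of length at most three, the letters cannot
escape -/
lemma letters_cluster {X : Type u} [TopologicalSpace X] [T1Space X]
    (hcl : ∀ x : ℕ → X, (∀ n, ¬ IsOpen ({x n} : Set X)) → ∃ y, MapClusterPt y atTop x)
    (g : ℕ → FreeTopGroup X) (w : FreeTopGroup X) (hg : Tendsto g atTop (𝓝 w))
    (L : ℕ → List (X × Bool)) (hL : ∀ j, word (L j) = g j)
    (hred : ∀ j, FreeGroup.IsReduced (L j))
    (hlen : ∀ j, (L j).length ≤ 3) (x : ℕ → X) (hx : ∀ j, x j ∈ (L j).map Prod.fst) :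
    ∃ y, MapClusterPt y atTop x := by
  classical
  by_contra hno
  push Not at hno
  obtain ⟨W, hW⟩ : ∃ W, word W = w :=
    ⟨FreeGroup.toWord (w : FreeGroup X), FreeGroup.mk_toWord⟩
  obtain ⟨D, hDo, hDc, hDW, hev⟩ := exists_clopen_discrete hcl x hno
    {s | s ∈ W.map Prod.fst} (List.finite_toSet _)
  let ψ : X → FreeGroup (Option X) :=
    fun x => if x ∈ D then FreeGroup.of (some x) else FreeGroup.of none
  let _ : TopologicalSpace (FreeGroup (Option X)) := ⊥
  have : DiscreteTopology (FreeGroup (Option X)) := ⟨rfl⟩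
  have hψ : Continuous ψ := by
    rw [continuous_iff_continuousAt]
    intro z
    rw [ContinuousAt, show 𝓝 (ψ z) = pure (ψ z) by rw [nhds_discrete], tendsto_pure]
    by_cases hz : z ∈ D
    · filter_upwards [(hDo z hz).mem_nhds (mem_singleton z)] with y hy
      rw [mem_singleton_iff.1 hy]
    · filter_upwards [hDc.isOpen_compl.mem_nhds hz] with y hy
      show ψ y = ψ z
      simp only [ψ]
      rw [if_neg hz, if_neg hy]
  have hc := continuous_glift hψ
  have h1 : ∀ᶠ j in atTop, glift ψ (g j) = glift ψ w := by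
    have := (hc.tendsto w).comp hg
    rw [nhds_discrete, tendsto_pure] at this
    exact this
  obtain ⟨j, hj1, hj2⟩ := (h1.and hev).exists
  let χ : Option X → Multiplicative ℤ :=
    fun o => if o = some (x j) then Multiplicative.ofAdd 1 else 1
  let θ : Option X → Equiv.Perm (Fin 3) :=
    fun o => if o = some (x j) then Equiv.swap 0 1 else Equiv.swap 1 2
  have hWz : ∀ W : List (X × Bool), (∀ p ∈ W, p.1 ∉ D) →
      FreeGroup.lift ψ (FreeGroup.mk W) ∈
        Subgroup.zpowers (FreeGroup.of none : FreeGroup (Option X)) := by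
    intro W hW
    rw [FreeGroup.lift_mk]
    refine Subgroup.list_prod_mem _ ?_
    intro y hy
    obtain ⟨p, hp, rfl⟩ := List.mem_map.1 hy
    have : ψ p.1 = FreeGroup.of none := by
      simp only [ψ]
      rw [if_neg (hW p hp)]
    rw [this]
    rcases p.2 with _ | _
    · exact Subgroup.inv_mem _ (Subgroup.mem_zpowers _)
    · exact Subgroup.mem_zpowers _
  obtain ⟨k, hk⟩ := hWz W (fun p hp => hDW p.1 (List.mem_map_of_mem hp))
  have hk' : FreeGroup.lift ψ (FreeGroup.mk (L j)) =
      (FreeGroup.of none : FreeGroup (Option X)) ^ k := by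
    have h2 : FreeGroup.lift ψ (FreeGroup.mk (L j)) = glift ψ (g j) := by
      rw [← hL j]
      rfl
    have h3 : FreeGroup.lift ψ (FreeGroup.mk W) = glift ψ w := by
      rw [← hW]
      rfl
    rw [h2, hj1, ← h3]
    exact hk.symm
  have hcomp : ∀ {H : Type} [Group H] (η : Option X → H),
      FreeGroup.lift (fun z => FreeGroup.lift η (ψ z)) =
        (FreeGroup.lift η).comp (FreeGroup.lift ψ) := by
    intro H _ η
    ext z
    simp
  have hψd : ψ (x j) = FreeGroup.of (some (x j)) := by
    simp only [ψ]
    rw [if_pos hj2]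
  have hψne : ∀ z, z ≠ x j → ∃ o : Option X, o ≠ some (x j) ∧ ψ z = FreeGroup.of o := by
    intro z hz
    by_cases hzD : z ∈ D
    · refine ⟨some z, fun h => hz (Option.some.inj h), ?_⟩
      simp only [ψ]
      rw [if_pos hzD]
    · refine ⟨none, by simp, ?_⟩
      simp only [ψ]
      rw [if_neg hzD]
  refine not_reduced_aux (x j) (fun z => FreeGroup.lift χ (ψ z))
    (fun z => FreeGroup.lift θ (ψ z)) ?_ ?_ ?_ ?_ (L j) (hlen j) (hred j) (hx j) ?_ ?_
  · show FreeGroup.lift χ (ψ (x j)) = _
    rw [hψd, FreeGroup.lift_apply_of]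
    simp [χ]
  · intro z hz
    obtain ⟨o, ho, hψz⟩ := hψne z hz
    show FreeGroup.lift χ (ψ z) = _
    rw [hψz, FreeGroup.lift_apply_of]
    simp [χ, ho]
  · show FreeGroup.lift θ (ψ (x j)) = _
    rw [hψd, FreeGroup.lift_apply_of]
    simp [θ]
  · intro z hz
    obtain ⟨o, ho, hψz⟩ := hψne z hz
    show FreeGroup.lift θ (ψ z) = _
    rw [hψz, FreeGroup.lift_apply_of]
    simp [θ, ho]
  · rw [hcomp χ, MonoidHom.comp_apply, hk', map_zpow, FreeGroup.lift_apply_of]
    simp [χ]
  · rw [hcomp θ, MonoidHom.comp_apply, hk', map_zpow, FreeGroup.lift_apply_of]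
    refine Equiv.Perm.zpow_apply_eq_self_of_apply_eq_self ?_ k
    simp [θ]
    decide

/-! ### The filters giving the sn-network -/

section filters

variable {X : Type u} [TopologicalSpace X] (P : Filter (FreeTopGroup X))

/-- the filter of sequential neighbourhoods `P l₁ P l₂ ⋯ P lₖ P P` of the word `l₁ ⋯ lₖ` -/
def wordFilter : List (X × Bool) → Filter (FreeTopGroup X)
  | [] => map₂ (· * ·) P P
  | a :: l => map₂ (· * ·) P (map (fun g => letter a * g) (wordFilter l))

lemma wordFilter_countable [P.IsCountablyGenerated] :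
    ∀ l : List (X × Bool), (wordFilter P l).IsCountablyGenerated
  | [] => by
    rw [wordFilter, ← map_prod_eq_map₂]
    infer_instance
  | a :: l => by
    have := wordFilter_countable l
    rw [wordFilter, ← map_prod_eq_map₂]
    infer_instance

lemma map₂_le_nhds {Q R : Filter (FreeTopGroup X)} {a b : FreeTopGroup X} (hQ : Q ≤ 𝓝 a)
    (hR : R ≤ 𝓝 b) : map₂ (· * ·) Q R ≤ 𝓝 (a * b) := by
  refine (map₂_mono hQ hR).trans ?_
  rw [← map_prod_eq_map₂, ← nhds_prod_eq]
  exact (continuous_mul.tendsto (a, b))

lemma wordFilter_le (hP : P ≤ 𝓝 1) : ∀ l : List (X × Bool), wordFilter P l ≤ 𝓝 (word l)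
  | [] => by
    have := map₂_le_nhds hP hP
    rwa [one_mul] at this
  | a :: l => by
    have h1 : map (fun g => letter a * g) (wordFilter P l) ≤ 𝓝 (letter a * word l) :=
      (map_mono (wordFilter_le hP l)).trans ((continuous_const_mul (letter a)).tendsto _)
    have := map₂_le_nhds hP h1
    rw [one_mul] at this
    rw [word_cons]
    exact this

lemma tendsto_map₂ {Q R : Filter (FreeTopGroup X)} {u v : ℕ → FreeTopGroup X}
    (hu : Tendsto u atTop Q) (hv : Tendsto v atTop R) :
    Tendsto (fun j => u j * v j) atTop (map₂ (· * ·) Q R) := by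
  rw [← map_prod_eq_map₂]
  exact tendsto_map.comp (hu.prodMk hv)

lemma word_mem {L : List (X × Bool)} {n : ℕ} (h : L.length ≤ n) :
    word L ∈ FreeTopGroupLE X n := by
  classical
  show (FreeGroup.toWord (FreeGroup.mk L)).length ≤ n
  exact (FreeGroup.norm_mk_le).trans h

lemma letter_mul_inv (a b : X × Bool) : letter a * (letter b)⁻¹ = word [a, (b.1, !b.2)] := by
  rw [word_cons, word_cons, word_nil, mul_one]
  congr 1
  rcases b with ⟨x, c⟩
  cases c
  · show ((gen x)⁻¹)⁻¹ = gen x
    rw [inv_inv]
  · rfl

lemma inv_letter_mul (a b : X × Bool) : (letter a)⁻¹ * letter b = word [(a.1, !a.2), b] := by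
  rw [word_cons, word_cons, word_nil, mul_one]
  congr 1
  rcases a with ⟨x, c⟩
  cases c
  · show ((gen x)⁻¹)⁻¹ = gen x
    rw [inv_inv]
  · rfl

lemma word_two (a b : X × Bool) : word [a, b] = letter a * letter b := by
  rw [word_cons, word_cons, word_nil, mul_one]

lemma word_three (a b c : X × Bool) : word [a, b, c] = letter a * letter b * letter c := by
  rw [word_cons, word_cons, word_cons, word_nil, mul_one, mul_assoc]

variable {P}

/-- eventual version of the hypothesis on `P` -/
lemma tendsto_P_of_eventually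
    (hP2 : ∀ g : ℕ → FreeTopGroup X, (∀ n, g n ∈ FreeTopGroupLE X 2) →
      Tendsto g atTop (𝓝 1) → Tendsto g atTop P)
    {g : ℕ → FreeTopGroup X} (hg : ∀ᶠ n in atTop, g n ∈ FreeTopGroupLE X 2)
    (hg1 : Tendsto g atTop (𝓝 1)) : Tendsto g atTop P := by
  classical
  let g' : ℕ → FreeTopGroup X := fun n => if g n ∈ FreeTopGroupLE X 2 then g n else 1
  have h1 : g =ᶠ[atTop] g' := by
    filter_upwards [hg] with n hn
    simp only [g']
    rw [if_pos hn]
  have h2 : ∀ n, g' n ∈ FreeTopGroupLE X 2 := by
    intro n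
    simp only [g']
    split_ifs with h
    · exact h
    · exact word_mem (L := []) (by simp)
  exact (hP2 g' h2 (hg1.congr' h1)).congr' h1.symm

lemma tendsto_const_one (hP2 : ∀ g : ℕ → FreeTopGroup X, (∀ n, g n ∈ FreeTopGroupLE X 2) →
      Tendsto g atTop (𝓝 1) → Tendsto g atTop P) :
    Tendsto (fun _ : ℕ => (1 : FreeTopGroup X)) atTop P :=
  hP2 _ (fun _ => word_mem (L := []) (by simp)) tendsto_const_nhds

lemma tendsto_letter_mul_inv
    (hP2 : ∀ g : ℕ → FreeTopGroup X, (∀ n, g n ∈ FreeTopGroupLE X 2) →
      Tendsto g atTop (𝓝 1) → Tendsto g atTop P)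
    {a : ℕ → X × Bool} {a0 : X × Bool} (ha : Tendsto a atTop (𝓝 a0)) :
    Tendsto (fun j => letter (a j) * (letter a0)⁻¹) atTop P := by
  refine hP2 _ (fun n => ?_) ?_
  · rw [letter_mul_inv]
    exact word_mem (by simp)
  · have := ((continuous_letter.tendsto a0).comp ha).mul
      (tendsto_const_nhds (x := (letter a0)⁻¹))
    rw [mul_inv_cancel] at this
    exact this

lemma tendsto_inv_letter_mul
    (hP2 : ∀ g : ℕ → FreeTopGroup X, (∀ n, g n ∈ FreeTopGroupLE X 2) →
      Tendsto g atTop (𝓝 1) → Tendsto g atTop P)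
    {a : ℕ → X × Bool} {a0 : X × Bool} (ha : Tendsto a atTop (𝓝 a0)) :
    Tendsto (fun j => (letter a0)⁻¹ * letter (a j)) atTop P := by
  refine hP2 _ (fun n => ?_) ?_
  · rw [inv_letter_mul]
    exact word_mem (by simp)
  · have := (tendsto_const_nhds (x := (letter a0)⁻¹)).mul
      ((continuous_letter.tendsto a0).comp ha)
    rw [inv_mul_cancel] at this
    exact this

lemma tendsto_letter_mul_letter
    (hP2 : ∀ g : ℕ → FreeTopGroup X, (∀ n, g n ∈ FreeTopGroupLE X 2) →
      Tendsto g atTop (𝓝 1) → Tendsto g atTop P)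
    {a b : ℕ → X × Bool} {a0 b0 : X × Bool} (ha : Tendsto a atTop (𝓝 a0))
    (hb : Tendsto b atTop (𝓝 b0)) (h0 : letter a0 * letter b0 = 1) :
    Tendsto (fun j => letter (a j) * letter (b j)) atTop P := by
  refine hP2 _ (fun n => ?_) ?_
  · rw [← word_two]
    exact word_mem (by simp)
  · have := ((continuous_letter.tendsto a0).comp ha).mul
      ((continuous_letter.tendsto b0).comp hb)
    rw [h0] at this
    exact this

/-- convergent sequences of words converge in the filter of the limit word -/
lemma tendsto_wordFilter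
    (hP2 : ∀ g : ℕ → FreeTopGroup X, (∀ n, g n ∈ FreeTopGroupLE X 2) →
      Tendsto g atTop (𝓝 1) → Tendsto g atTop P) :
    ∀ (l : List (X × Bool)) (L : ℕ → List (X × Bool)), Tendsto L atTop (𝓝 l) →
      Tendsto (fun j => word (L j)) atTop (wordFilter P l)
  | [], L, hL => by
    have h1 := tendsto_map₂ (tendsto_const_one hP2) (tendsto_const_one hP2)
    refine h1.congr' ?_
    filter_upwards [tendsto_list_nil hL] with j hj
    rw [hj, word_nil, mul_one]
  | a :: l, L, hL => by
    obtain ⟨hh, ht, he⟩ := tendsto_list_cons hL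
    have ih := tendsto_wordFilter hP2 l _ ht
    have h1 := tendsto_map₂ (tendsto_letter_mul_inv hP2 hh)
      ((tendsto_map (f := fun g => letter a * g)).comp ih)
    refine h1.congr' ?_
    filter_upwards [he] with j hj
    rw [hj]
    simp only [Function.comp_def, word_cons, List.headD_cons]
    group

end filters

/-- the key step for `F_3(X)` -/
lemma snfAt_F3 {X : Type u} [TopologicalSpace X] [T35Space X] [FirstCountableTopology X]
    (hcl : ∀ x : ℕ → X, (∀ n, ¬ IsOpen ({x n} : Set X)) → ∃ y, MapClusterPt y atTop x)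
    (P : Filter (FreeTopGroup X)) [P.IsCountablyGenerated] (hP : P ≤ 𝓝 1)
    (hP2 : ∀ g : ℕ → FreeTopGroup X, (∀ n, g n ∈ FreeTopGroupLE X 2) →
      Tendsto g atTop (𝓝 1) → Tendsto g atTop P)
    (w : FreeTopGroupLE X 3) : SnfAt w := by
  classical
  have hcount := wordFilter_countable P (FreeGroup.toWord (w.1 : FreeGroup X))
  refine ⟨comap Subtype.val (wordFilter P (FreeGroup.toWord (w.1 : FreeGroup X))),
    inferInstance, ?_, ?_⟩
  · rw [nhds_subtype]
    refine comap_mono ?_
    have := wordFilter_le P hP (FreeGroup.toWord (w.1 : FreeGroup X))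
    have h2 : word (FreeGroup.toWord (w.1 : FreeGroup X)) = w.1 := FreeGroup.mk_toWord
    rwa [h2] at this
  intro s hs
  rw [tendsto_comap_iff]
  have hs' : Tendsto (fun j => (s j).1) atTop (𝓝 w.1) :=
    (continuous_subtype_val.tendsto w).comp hs
  refine tendsto_of_subseq_tendsto fun ns hns => ?_
  let g : ℕ → FreeTopGroup X := fun j => (s (ns j)).1
  have hg : Tendsto g atTop (𝓝 w.1) := hs'.comp hns
  let L : ℕ → List (X × Bool) := fun j => FreeGroup.toWord (g j : FreeGroup X)
  have hL : ∀ j, word (L j) = g j := fun j => FreeGroup.mk_toWord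
  have hred : ∀ j, FreeGroup.IsReduced (L j) := fun j => FreeGroup.isReduced_toWord
  have hlen : ∀ j, (L j).length ≤ 3 := fun j => (s (ns j)).2
  have hrel : RelSeq L := by
    refine relSeq_prod_bool fun φ hφ x hx => ?_
    obtain ⟨y, hy⟩ := letters_cluster hcl (g ∘ φ) w.1 (hg.comp hφ.tendsto_atTop) (L ∘ φ)
      (fun j => hL (φ j)) (fun j => hred (φ j)) (fun j => hlen (φ j)) x hx
    obtain ⟨ψ, hψ, hψy⟩ := hy.tendsto_subseq
    exact ⟨ψ, hψ, y, hψy⟩
  obtain ⟨ψ, hψ, M, hM⟩ := exists_tendsto_list 3 L hlen hrel
  refine ⟨ψ, ?_⟩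
  show Tendsto (fun j => g (ψ j)) atTop _
  have hgw : ∀ j, g (ψ j) = word ((L ∘ ψ) j) := fun j => (hL (ψ j)).symm
  simp only [hgw]
  -- the limit word represents `w`
  have hMw : word M = w.1 := by
    refine tendsto_nhds_unique ((continuous_word.tendsto M).comp hM) ?_
    have := hg.comp hψ.tendsto_atTop
    refine this.congr fun j => ?_
    exact hgw j
  by_cases hMr : FreeGroup.IsReduced M
  · have h1 : FreeGroup.toWord (w.1 : FreeGroup X) = M := by
      rw [← hMw]
      show FreeGroup.toWord (FreeGroup.mk M) = M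
      rw [FreeGroup.toWord_mk, hMr.reduce_eq]
    rw [h1]
    exact tendsto_wordFilter hP2 M _ hM
  · -- cancellation in the limit
    have hMlen : M.length ≤ 3 := by
      have h1 : ∀ᶠ l in 𝓝 M, l.length = M.length := by
        have := List.continuousAt_length M
        rw [ContinuousAt, show 𝓝 (M.length) = pure (M.length) by rw [nhds_discrete],
          tendsto_pure] at this
        exact this
      obtain ⟨j, hj⟩ := (hM.eventually h1).exists
      rw [← hj]
      exact hlen (ψ j)
    have hcancel : ∀ a b : X × Bool, ¬ (a.1 = b.1 → a.2 = b.2) →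
        (letter a : FreeTopGroup X) * letter b = 1 := by
      rintro ⟨x, c⟩ ⟨y, e⟩ h
      have h1 : x = y := by
        by_contra hne
        exact h fun h' => absurd h' hne
      subst h1
      have h2 : c ≠ e := fun h' => h fun _ => h'
      cases c <;> cases e
      · exact absurd rfl h2
      · show (gen x)⁻¹ * gen x = 1
        rw [inv_mul_cancel]
      · show gen x * (gen x)⁻¹ = 1
        rw [mul_inv_cancel]
      · exact absurd rfl h2
    match M, hMlen, hMr, hM, hMw with
    | [], _, hMr, _, _ => exact absurd FreeGroup.IsReduced.nil hMr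
    | [a], _, hMr, _, _ => exact absurd FreeGroup.IsReduced.singleton hMr
    | [a, b], _, hMr, hM, hMw =>
      simp only [FreeGroup.isReduced_cons_cons, FreeGroup.IsReduced.singleton, and_true] at hMr
      have hab := hcancel a b hMr
      have hw1 : w.1 = 1 := by
        rw [← hMw, word_two, hab]
      have hwW : FreeGroup.toWord (w.1 : FreeGroup X) = [] := by
        rw [hw1]
        exact FreeGroup.toWord_one
      rw [hwW]
      obtain ⟨hh, ht, he⟩ := tendsto_list_cons hM
      obtain ⟨hh2, ht2, he2⟩ := tendsto_list_cons ht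
      have he3 := tendsto_list_nil ht2
      have h1 := tendsto_map₂ (tendsto_letter_mul_letter hP2 hh hh2 hab)
        (tendsto_const_one hP2)
      refine h1.congr' ?_
      filter_upwards [he, he2, he3] with j hj1 hj2 hj3
      conv_rhs => rw [hj1, hj2, hj3]
      rw [word_two, mul_one]
    | [a, b, c], _, hMr, hM, hMw =>
      obtain ⟨hh, ht, he⟩ := tendsto_list_cons hM
      obtain ⟨hh2, ht2, he2⟩ := tendsto_list_cons ht
      obtain ⟨hh3, ht3, he3⟩ := tendsto_list_cons ht2
      have he4 := tendsto_list_nil ht3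
      simp only [FreeGroup.isReduced_cons_cons, FreeGroup.IsReduced.singleton, and_true,
        not_and_or] at hMr
      rcases hMr with hMr | hMr
      · have hab := hcancel a b hMr
        have hw1 : w.1 = word [c] := by
          rw [← hMw, word_three, hab, word_cons, word_nil, one_mul, mul_one]
        have hwW : FreeGroup.toWord (w.1 : FreeGroup X) = [c] := by
          rw [hw1]
          show FreeGroup.toWord (FreeGroup.mk [c]) = [c]
          rw [FreeGroup.toWord_mk, FreeGroup.reduce_singleton]
        rw [hwW]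
        have h1 := tendsto_map₂ (tendsto_inv_letter_mul hP2 hh3) (tendsto_const_one hP2)
        have h2 := tendsto_map₂ (tendsto_letter_mul_letter hP2 hh hh2 hab)
          ((tendsto_map (f := fun g => letter c * g)).comp h1)
        refine h2.congr' ?_
        filter_upwards [he, he2, he3, he4] with j hj1 hj2 hj3 hj4
        conv_rhs => rw [hj1, hj2, hj3, hj4]
        rw [word_three]
        simp only [Function.comp_def]
        group
      · have hbc := hcancel b c hMr
        have hw1 : w.1 = word [a] := by
          rw [← hMw, word_three, mul_assoc, hbc, word_cons, word_nil]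
        have hwW : FreeGroup.toWord (w.1 : FreeGroup X) = [a] := by
          rw [hw1]
          show FreeGroup.toWord (FreeGroup.mk [a]) = [a]
          rw [FreeGroup.toWord_mk, FreeGroup.reduce_singleton]
        rw [hwW]
        have h1 := tendsto_map₂ (tendsto_letter_mul_letter hP2 hh2 hh3 hbc)
          (tendsto_const_one hP2)
        have h2 := tendsto_map₂ (tendsto_letter_mul_inv hP2 hh)
          ((tendsto_map (f := fun g => letter a * g)).comp h1)
        refine h2.congr' ?_
        filter_upwards [he, he2, he3, he4] with j hj1 hj2 hj3 hj4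
        conv_rhs => rw [hj1, hj2, hj3, hj4]
        rw [word_three]
        simp only [Function.comp_def]
        group
    | _ :: _ :: _ :: _ :: _, hMlen, _, _, _ =>
      simp at hMlen
      omega

end Pool.Agent.Helper71.Snf
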