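import Mathlib
import Pool.Agent.Helper71.SnfF

open Filter Topology Set

universe u

namespace Pool.Agent.Helper71.Snf

lemma exists_real_ext_F {X : Type u} [TopologicalSpace X] (f : X → ℝ) (hf : Continuous f) :
    ∃ F : FreeTopGroup X → ℝ, Continuous F ∧ F 1 = 0 ∧ (∀ a, F (gen a) = f a) ∧
      ∀ a b, F ((gen a)⁻¹ * gen b) = f b - f a := by
  let φ : X → Multiplicative ℝ := fun x => Multiplicative.ofAdd (f x)
  have hφ : Continuous φ := continuous_ofAdd.comp hf
  refine ⟨fun g => Multiplicative.toAdd (glift φ g), continuous_toAdd.comp (continuous_glift hφ),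
    ?_, ?_, ?_⟩
  · simp
  · intro a
    simp [glift_gen, φ]
  · intro a b
    simp only [map_mul, map_inv, glift_gen, toAdd_mul, toAdd_inv, φ, toAdd_ofAdd]
    ring

theorem main_F (X : Type u) [TopologicalSpace X] [T35Space X] [SequentialSpace X]
    (h2 : SnfCountable (FreeTopGroupLE X 2)) : SnfCountable (FreeTopGroupLE X 3) := by
  have hone : (1 : FreeTopGroup X) ∈ FreeTopGroupLE X 2 := word_mem (L := []) (by simp)
  obtain ⟨H, hHc, hHle, hHs⟩ := snfAt_of_snfCountable h2 ⟨1, hone⟩
  set P : Filter (FreeTopGroup X) := map Subtype.val H with hPdef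
  have hPc : P.IsCountablyGenerated := by
    rw [hPdef]
    infer_instance
  have hP : P ≤ 𝓝 1 :=
    (map_mono hHle).trans (continuous_subtype_val.tendsto
      (⟨1, hone⟩ : FreeTopGroupLE X 2))
  have hP2 : ∀ g : ℕ → FreeTopGroup X, (∀ n, g n ∈ FreeTopGroupLE X 2) →
      Tendsto g atTop (𝓝 1) → Tendsto g atTop P := by
    intro g hg hg1
    have h1 : Tendsto (fun n => (⟨g n, hg n⟩ : FreeTopGroupLE X 2)) atTop (𝓝 ⟨1, hone⟩) :=
      tendsto_subtype_rng.2 hg1
    exact tendsto_map.comp (hHs _ h1)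
  have hι : IsInducing (gen : X → FreeTopGroup X) := by
    refine inducing_of_ext continuous_gen fun f hf => ?_
    obtain ⟨F, hF, -, hFe, -⟩ := exists_real_ext_F f hf
    exact ⟨F, hF, hFe⟩
  have hseq : ∀ u v : ℕ → X, Tendsto (fun n => (gen (u n))⁻¹ * gen (v n)) atTop (𝓝 1) →
      Tendsto (fun n => (gen (u n))⁻¹ * gen (v n)) atTop P := by
    intro u v huv
    refine hP2 _ (fun n => ?_) huv
    have : (gen (u n))⁻¹ * gen (v n) = word [(u n, false), (v n, true)] := by
      rw [word_two]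
      rfl
    rw [this]
    exact word_mem (by simp)
  have hfr : FrechetUrysohnSpace X := frechet_of_seq hι hP hseq
  have hnhds : ∀ x : X, 𝓝 x = comap (fun y => (gen x)⁻¹ * gen y) P := fun x =>
    nhds_eq_comap_of_frechet hι hP hseq x
  have hfc : FirstCountableTopology X := by
    refine ⟨fun x => ?_⟩
    rw [hnhds x]
    infer_instance
  have hcl : ∀ x : ℕ → X, (∀ n, ¬ IsOpen ({x n} : Set X)) → ∃ y, MapClusterPt y atTop x :=
    fun x hx => exists_cluster_of_not_isolated hι hP hnhds (fun f hf => by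
      obtain ⟨F, hF, hF1, -, hFe⟩ := exists_real_ext_F f hf
      exact ⟨F, hF, hF1, hFe⟩) x hx
  exact snfCountable_of_snfAt fun w => snfAt_F3 hcl P hP hP2 w

end Pool.Agent.Helper71.Snf
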