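import Mathlib
import Pool.Agent.Helper71.TetBase

namespace Pool.Agent.Helper71.Tet

open Matrix

/-- diagonal form: the two orientations `1` and the rotation by `arctan (4/3)` in a coordinate plane
force the diagonal quadratic form to be scalar -/
theorem diag_scalar (l : ℝ) (hl : 0 < l) (d : Fin 3 → ℝ) (hd : ∀ k, 0 < d k)
    (h : ∀ N : Matrix (Fin 3) (Fin 3) ℝ, N * Nᵀ = 1 → ∃ t : Fin 3 → ℝ, ∀ i,
      d 0 * (l * (N *ᵥ sg i) 0 + t 0) ^ 2 + d 1 * (l * (N *ᵥ sg i) 1 + t 1) ^ 2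
        + d 2 * (l * (N *ᵥ sg i) 2 + t 2) ^ 2 = 1) :
    ∀ k, d k = 1 / (3 * l ^ 2) := by
  have hd0 := hd 0
  have hd1 := hd 1
  have hd2 := hd 2
  -- the identity
  have e1 : l ^ 2 * (d 0 + d 1 + d 2) = 1 := by
    obtain ⟨t, ht⟩ := h 1 (by simp)
    have h0 := ht 0
    have h1 := ht 1
    have h2 := ht 2
    have h3 := ht 3
    simp only [Matrix.one_mulVec, sg, Matrix.cons_val_zero, Matrix.cons_val_one,
      Matrix.cons_val] at h0 h1 h2 h3
    have a0 : d 0 * (l * t 0) = 0 := by linear_combination (1/8) * (h0 + h1 - h2 - h3)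
    have a1 : d 1 * (l * t 1) = 0 := by linear_combination (1/8) * (h0 - h1 + h2 - h3)
    have a2 : d 2 * (l * t 2) = 0 := by linear_combination (1/8) * (h0 - h1 - h2 + h3)
    have t0 : t 0 = 0 := by
      rcases mul_eq_zero.mp a0 with h | h
      · exact absurd h (ne_of_gt hd0)
      · exact (mul_eq_zero.mp h).resolve_left (ne_of_gt hl)
    have t1 : t 1 = 0 := by
      rcases mul_eq_zero.mp a1 with h | h
      · exact absurd h (ne_of_gt hd1)
      · exact (mul_eq_zero.mp h).resolve_left (ne_of_gt hl)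
    have t2 : t 2 = 0 := by
      rcases mul_eq_zero.mp a2 with h | h
      · exact absurd h (ne_of_gt hd2)
      · exact (mul_eq_zero.mp h).resolve_left (ne_of_gt hl)
    rw [t0, t1, t2] at h0
    linear_combination h0
  have e2 : d 0 = d 1 := by
    obtain ⟨t, ht⟩ := h !![3/5, -4/5, 0; 4/5, 3/5, 0; 0, 0, 1] (by
      ext i j
      fin_cases i <;> fin_cases j <;>
        simp only [Matrix.mul_apply, Fin.sum_univ_three, Matrix.transpose_apply, Matrix.of_apply,
          Fin.zero_eta, Fin.mk_one, Fin.reduceFinMk, Matrix.cons_val_zero, Matrix.cons_val_one,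
          Matrix.cons_val, Matrix.one_apply, Fin.isValue] <;> norm_num [Fin.ext_iff])
    have h0 := ht 0
    have h1 := ht 1
    have h2 := ht 2
    have h3 := ht 3
    simp only [Matrix.mulVec, dotProduct, Fin.sum_univ_three, sg, Matrix.cons_val_zero,
      Matrix.cons_val_one, Matrix.cons_val, Matrix.of_apply] at h0 h1 h2 h3
    have hs : d 0 * t 0 ^ 2 + d 1 * t 1 ^ 2 + d 2 * t 2 ^ 2 = 0 := by
      linear_combination (1/4) * (h0 + h1 + h2 + h3) - e1
    have p0 : 0 ≤ d 0 * t 0 ^ 2 := by positivity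
    have p1 : 0 ≤ d 1 * t 1 ^ 2 := by positivity
    have p2 : 0 ≤ d 2 * t 2 ^ 2 := by positivity
    have t0 : t 0 = 0 := by
      have : d 0 * t 0 ^ 2 = 0 := by linarith
      exact pow_eq_zero_iff (two_ne_zero) |>.mp ((mul_eq_zero.mp this).resolve_left (ne_of_gt hd0))
    have t1 : t 1 = 0 := by
      have : d 1 * t 1 ^ 2 = 0 := by linarith
      exact pow_eq_zero_iff (two_ne_zero) |>.mp ((mul_eq_zero.mp this).resolve_left (ne_of_gt hd1))
    have t2 : t 2 = 0 := by
      have : d 2 * t 2 ^ 2 = 0 := by linarith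
      exact pow_eq_zero_iff (two_ne_zero) |>.mp ((mul_eq_zero.mp this).resolve_left (ne_of_gt hd2))
    rw [t0, t1, t2] at h0 h1
    have : l ^ 2 * (d 0 - d 1) = 0 := by linear_combination (25/48) * (h1 - h0)
    have := (mul_eq_zero.mp this).resolve_left (by positivity)
    linarith
  have e3 : d 1 = d 2 := by
    obtain ⟨t, ht⟩ := h !![1, 0, 0; 0, 3/5, -4/5; 0, 4/5, 3/5] (by
      ext i j
      fin_cases i <;> fin_cases j <;>
        simp only [Matrix.mul_apply, Fin.sum_univ_three, Matrix.transpose_apply, Matrix.of_apply,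
          Fin.zero_eta, Fin.mk_one, Fin.reduceFinMk, Matrix.cons_val_zero, Matrix.cons_val_one,
          Matrix.cons_val, Matrix.one_apply, Fin.isValue] <;> norm_num [Fin.ext_iff])
    have h0 := ht 0
    have h1 := ht 1
    have h2 := ht 2
    have h3 := ht 3
    simp only [Matrix.mulVec, dotProduct, Fin.sum_univ_three, sg, Matrix.cons_val_zero,
      Matrix.cons_val_one, Matrix.cons_val, Matrix.of_apply] at h0 h1 h2 h3
    have hs : d 0 * t 0 ^ 2 + d 1 * t 1 ^ 2 + d 2 * t 2 ^ 2 = 0 := by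
      linear_combination (1/4) * (h0 + h1 + h2 + h3) - e1
    have p0 : 0 ≤ d 0 * t 0 ^ 2 := by positivity
    have p1 : 0 ≤ d 1 * t 1 ^ 2 := by positivity
    have p2 : 0 ≤ d 2 * t 2 ^ 2 := by positivity
    have t0 : t 0 = 0 := by
      have : d 0 * t 0 ^ 2 = 0 := by linarith
      exact pow_eq_zero_iff (two_ne_zero) |>.mp ((mul_eq_zero.mp this).resolve_left (ne_of_gt hd0))
    have t1 : t 1 = 0 := by
      have : d 1 * t 1 ^ 2 = 0 := by linarith
      exact pow_eq_zero_iff (two_ne_zero) |>.mp ((mul_eq_zero.mp this).resolve_left (ne_of_gt hd1))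
    have t2 : t 2 = 0 := by
      have : d 2 * t 2 ^ 2 = 0 := by linarith
      exact pow_eq_zero_iff (two_ne_zero) |>.mp ((mul_eq_zero.mp this).resolve_left (ne_of_gt hd2))
    rw [t0, t1, t2] at h0 h2
    have : l ^ 2 * (d 1 - d 2) = 0 := by linear_combination (25/48) * (h2 - h0)
    have := (mul_eq_zero.mp this).resolve_left (by positivity)
    linarith
  have hl2 : 0 < l ^ 2 := by positivity
  have f0 : d 0 = 1 / (3 * l ^ 2) := by
    rw [eq_div_iff (by positivity)]
    rw [e2, e3] at e1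
    rw [e2, e3]
    linear_combination e1
  intro k
  fin_cases k
  · exact f0
  · exact e2 ▸ f0
  · exact e3 ▸ (e2 ▸ f0)

/-- Ellipsoids: the quadratic form is scalar. -/
theorem ellipsoid_core (v : Fin 4 → Fin 3 → ℝ) (a : ℝ) (ha : 0 < a)
    (hv : ∀ i j, i ≠ j → (v i - v j) ⬝ᵥ (v i - v j) = a ^ 2)
    (A : Matrix (Fin 3) (Fin 3) ℝ) (hA : A.PosDef) (c : Fin 3 → ℝ)
    (hX : ∀ R ∈ Matrix.specialOrthogonalGroup (Fin 3) ℝ, ∃ t : Fin 3 → ℝ, ∀ i,
      R *ᵥ v i + t ∈ {x : Fin 3 → ℝ | (x - c) ⬝ᵥ (A *ᵥ (x - c)) = 1}) :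
    A = (8 / (3 * a ^ 2)) • (1 : Matrix (Fin 3) (Fin 3) ℝ) := by
  obtain ⟨l, hl, hl2, hM⟩ := normal_form v a ha hv _ hX
  have hH := hA.isHermitian
  set U : Matrix (Fin 3) (Fin 3) ℝ := (hH.eigenvectorUnitary : Matrix (Fin 3) (Fin 3) ℝ) with hU
  have hUU : U * Uᵀ = 1 := by
    have := (Matrix.mem_unitaryGroup_iff).mp hH.eigenvectorUnitary.2
    rwa [Matrix.star_eq_conjTranspose, Matrix.conjTranspose_eq_transpose_of_trivial] at this
  have hUU' : Uᵀ * U = 1 := mul_eq_one_comm.mp hUU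
  have hspec : A = U * diagonal hH.eigenvalues * Uᵀ := by
    have := hH.spectral_theorem
    rw [Unitary.conjStarAlgAut_apply] at this
    rw [Matrix.star_eq_conjTranspose, Matrix.conjTranspose_eq_transpose_of_trivial] at this
    exact this
  have hpos : ∀ k, 0 < hH.eigenvalues k := fun k => hA.eigenvalues_pos k
  have hdiag := diag_scalar l hl hH.eigenvalues hpos (by
    intro N hN
    have hUN : (U * N) * (U * N)ᵀ = 1 := by
      rw [Matrix.transpose_mul, Matrix.mul_assoc, ← Matrix.mul_assoc N, hN, Matrix.one_mul, hUU]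
    obtain ⟨t, ht⟩ := hM _ hUN
    refine ⟨Uᵀ *ᵥ (t - c), fun i => ?_⟩
    have h1 := ht i
    simp only [Set.mem_ofPred_eq] at h1
    set y : Fin 3 → ℝ := l • (N *ᵥ sg i) + Uᵀ *ᵥ (t - c) with hy
    have hx : l • ((U * N) *ᵥ sg i) + t - c = U *ᵥ y := by
      rw [hy, Matrix.mulVec_add, Matrix.mulVec_smul, Matrix.mulVec_mulVec, Matrix.mulVec_mulVec,
        hUU, Matrix.one_mulVec, add_sub_assoc]
    rw [hx, hspec] at h1
    have h2 : (U *ᵥ y) ⬝ᵥ ((U * diagonal hH.eigenvalues * Uᵀ) *ᵥ (U *ᵥ y))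
        = y ⬝ᵥ (diagonal hH.eigenvalues *ᵥ y) := by
      rw [Matrix.mulVec_mulVec, Matrix.mul_assoc, hUU', Matrix.mul_one, ← Matrix.mulVec_mulVec,
        Matrix.dotProduct_mulVec, ← Matrix.mulVec_transpose, Matrix.mulVec_mulVec, hUU',
        Matrix.one_mulVec]
    rw [h2] at h1
    simp only [dotProduct, Matrix.mulVec_diagonal, Fin.sum_univ_three] at h1
    simp only [hy, Pi.add_apply, Pi.smul_apply, smul_eq_mul] at h1
    linear_combination h1)
  have hfin : diagonal hH.eigenvalues = (8 / (3 * a ^ 2)) • (1 : Matrix (Fin 3) (Fin 3) ℝ) := by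
    have : hH.eigenvalues = fun _ => 8 / (3 * a ^ 2) := by
      funext k
      rw [hdiag k, hl2]
      field_simp
    rw [this]
    ext i j
    simp [Matrix.diagonal_apply, Matrix.one_apply]
  rw [hspec, hfin, Matrix.mul_smul, Matrix.mul_one, Matrix.smul_mul, hUU]

end Pool.Agent.Helper71.Tet
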