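import Mathlib
import Pool.Agent.Helper71.TetBase

namespace Pool.Agent.Helper71.Tet

open Matrix

/-- homogeneous quaternion parametrisation -/
def Mq (q : Fin 4 → ℝ) : Matrix (Fin 3) (Fin 3) ℝ :=
  !![q 0 ^ 2 + q 1 ^ 2 - q 2 ^ 2 - q 3 ^ 2, 2 * (q 1 * q 2 - q 0 * q 3), 2 * (q 1 * q 3 + q 0 * q 2);
     2 * (q 1 * q 2 + q 0 * q 3), q 0 ^ 2 - q 1 ^ 2 + q 2 ^ 2 - q 3 ^ 2, 2 * (q 2 * q 3 - q 0 * q 1);
     2 * (q 1 * q 3 - q 0 * q 2), 2 * (q 2 * q 3 + q 0 * q 1), q 0 ^ 2 - q 1 ^ 2 - q 2 ^ 2 + q 3 ^ 2]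

def nq (q : Fin 4 → ℝ) : ℝ := q 0 ^ 2 + q 1 ^ 2 + q 2 ^ 2 + q 3 ^ 2

theorem Mq_mul (q : Fin 4 → ℝ) : Mq q * (Mq q)ᵀ = (nq q ^ 2) • (1 : Matrix (Fin 3) (Fin 3) ℝ) := by
  ext i j
  fin_cases i <;> fin_cases j <;>
    simp only [Mq, nq, Matrix.mul_apply, Fin.sum_univ_three, Matrix.transpose_apply, Matrix.of_apply,
      Fin.zero_eta, Fin.mk_one, Fin.reduceFinMk, Matrix.cons_val_zero, Matrix.cons_val_one,
      Matrix.cons_val, Matrix.one_apply_eq, Matrix.smul_apply, smul_eq_mul, Fin.isValue] <;>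
    first
    | (rw [Matrix.one_apply_ne (by decide)]; ring)
    | ring

theorem Mq_orth (q : Fin 4 → ℝ) (hq : nq q ≠ 0) :
    ((nq q)⁻¹ • Mq q) * ((nq q)⁻¹ • Mq q)ᵀ = 1 := by
  rw [Matrix.transpose_smul, Matrix.smul_mul, Matrix.mul_smul, Mq_mul, smul_smul, smul_smul]
  rw [show (nq q)⁻¹ * (nq q)⁻¹ * nq q ^ 2 = 1 by field_simp, one_smul]

theorem nq_eq_zero {q : Fin 4 → ℝ} (h : nq q = 0) : q = 0 := by
  unfold nq at h
  have h0 : q 0 = 0 := by nlinarith [sq_nonneg (q 0), sq_nonneg (q 1), sq_nonneg (q 2), sq_nonneg (q 3)]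
  have h1 : q 1 = 0 := by nlinarith [sq_nonneg (q 0), sq_nonneg (q 1), sq_nonneg (q 2), sq_nonneg (q 3)]
  have h2 : q 2 = 0 := by nlinarith [sq_nonneg (q 0), sq_nonneg (q 1), sq_nonneg (q 2), sq_nonneg (q 3)]
  have h3 : q 3 = 0 := by nlinarith [sq_nonneg (q 0), sq_nonneg (q 1), sq_nonneg (q 2), sq_nonneg (q 3)]
  ext i
  fin_cases i
  · exact h0
  · exact h1
  · exact h2
  · exact h3

/-- four vectors of `ℝ³` are dependent -/
theorem exists_rel (n : Fin 4 → Fin 3 → ℝ) : ∃ μ : Fin 4 → ℝ, μ ≠ 0 ∧ ∀ k, ∑ i, μ i * n i k = 0 := by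
  let f : (Fin 4 → ℝ) →ₗ[ℝ] (Fin 3 → ℝ) := Matrix.mulVecLin (Matrix.of fun k i => n i k)
  have hk : LinearMap.ker f ≠ ⊥ := f.ker_ne_bot_of_finrank_lt (by simp)
  obtain ⟨μ, hμ, hμ0⟩ := Submodule.exists_mem_ne_zero_of_ne_bot hk
  refine ⟨μ, hμ0, fun k => ?_⟩
  have := congrFun (LinearMap.mem_ker.mp hμ) k
  simp only [f, Matrix.mulVecLin_apply, Matrix.mulVec, dotProduct, Matrix.of_apply,
    Pi.zero_apply] at this
  rw [← this]
  exact Finset.sum_congr rfl fun i _ => mul_comm _ _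

/-- the quadratic form attached to a 3 by 3 matrix `C` and a number `κ` -/
def qf (C : Matrix (Fin 3) (Fin 3) ℝ) (κ : ℝ) (q : Fin 4 → ℝ) : ℝ :=
  C 0 0 * (q 0 ^ 2 + q 1 ^ 2 - q 2 ^ 2 - q 3 ^ 2) + C 1 1 * (q 0 ^ 2 - q 1 ^ 2 + q 2 ^ 2 - q 3 ^ 2)
    + C 2 2 * (q 0 ^ 2 - q 1 ^ 2 - q 2 ^ 2 + q 3 ^ 2)
    + C 0 1 * (2 * (q 1 * q 2 - q 0 * q 3)) + C 1 0 * (2 * (q 1 * q 2 + q 0 * q 3))
    + C 0 2 * (2 * (q 1 * q 3 + q 0 * q 2)) + C 2 0 * (2 * (q 1 * q 3 - q 0 * q 2))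
    + C 1 2 * (2 * (q 2 * q 3 - q 0 * q 1)) + C 2 1 * (2 * (q 2 * q 3 + q 0 * q 1))
    - κ * nq q

theorem qf_zero (C : Matrix (Fin 3) (Fin 3) ℝ) (κ : ℝ)
    (h : (interior {q : Fin 4 → ℝ | qf C κ q = 0}).Nonempty) : C = 0 := by
  obtain ⟨q₀, hq₀⟩ := h
  have hall : ∀ h : Fin 4 → ℝ, qf C κ h = 0 := by
    intro h
    have hnhds : {q : Fin 4 → ℝ | qf C κ q = 0} ∈ nhds q₀ := mem_interior_iff_mem_nhds.mp hq₀
    have hc1 : Filter.Tendsto (fun ε : ℝ => q₀ + ε • h) (nhds 0) (nhds q₀) := by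
      have : Continuous (fun ε : ℝ => q₀ + ε • h) := by fun_prop
      simpa using this.tendsto 0
    have hc2 : Filter.Tendsto (fun ε : ℝ => q₀ - ε • h) (nhds 0) (nhds q₀) := by
      have : Continuous (fun ε : ℝ => q₀ - ε • h) := by fun_prop
      simpa using this.tendsto 0
    have he := (hc1.eventually hnhds).and (hc2.eventually hnhds)
    have he' : ∃ ε : ℝ, 0 < ε ∧ qf C κ (q₀ + ε • h) = 0 ∧ qf C κ (q₀ - ε • h) = 0 := by
      have := (he.filter_mono (nhdsWithin_le_nhds (s := Set.Ioi (0:ℝ)))).and self_mem_nhdsWithin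
      obtain ⟨ε, ⟨h1, h2⟩, h3⟩ := this.exists
      exact ⟨ε, h3, h1, h2⟩
    obtain ⟨ε, hε, h1, h2⟩ := he'
    have h0 : q₀ ∈ {q : Fin 4 → ℝ | qf C κ q = 0} := interior_subset hq₀
    have h0 : qf C κ q₀ = 0 := h0
    have key : qf C κ (q₀ + ε • h) + qf C κ (q₀ - ε • h) - 2 * qf C κ q₀ = 2 * ε ^ 2 * qf C κ h := by
      simp only [qf, nq, Pi.add_apply, Pi.sub_apply, Pi.smul_apply, smul_eq_mul]
      ring
    rw [h1, h2, h0] at key
    have : 2 * ε ^ 2 ≠ 0 := by positivity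
    have h4 : 2 * ε ^ 2 * qf C κ h = 0 := by linarith
    exact (mul_eq_zero.mp h4).resolve_left this
  have b0 := hall ![1, 0, 0, 0]
  have b1 := hall ![0, 1, 0, 0]
  have b2 := hall ![0, 0, 1, 0]
  have b3 := hall ![0, 0, 0, 1]
  have b01 := hall ![1, 1, 0, 0]
  have b02 := hall ![1, 0, 1, 0]
  have b03 := hall ![1, 0, 0, 1]
  have b12 := hall ![0, 1, 1, 0]
  have b13 := hall ![0, 1, 0, 1]
  have b23 := hall ![0, 0, 1, 1]
  simp only [qf, nq, Matrix.cons_val_zero, Matrix.cons_val_one, Matrix.cons_val] at b0 b1 b2 b3 b01 b02 b03 b12 b13 b23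
  have hκ : κ = 0 := by linear_combination (-1/4) * (b0 + b1 + b2 + b3)
  subst hκ
  ext i j
  fin_cases i <;> fin_cases j <;>
    simp only [Fin.zero_eta, Fin.mk_one, Fin.reduceFinMk, Fin.isValue, Matrix.zero_apply]
  · linarith
  · linarith
  · linarith
  · linarith
  · linarith
  · linarith
  · linarith
  · linarith
  · linarith

theorem planes_core (v : Fin 4 → Fin 3 → ℝ) (a : ℝ) (ha : 0 < a)
    (hv : ∀ i j, i ≠ j → (v i - v j) ⬝ᵥ (v i - v j) = a ^ 2)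
    {ι : Type} [Countable ι] (n : ι → Fin 3 → ℝ) (k : ι → ℝ) (hn : ∀ j, n j ≠ 0)
    (S : Set (Fin 3 → ℝ)) (hS : ∀ x ∈ S, ∃ j, n j ⬝ᵥ x = k j)
    (hadm : ∀ R ∈ Matrix.specialOrthogonalGroup (Fin 3) ℝ, ∃ t : Fin 3 → ℝ, ∀ i,
      R *ᵥ v i + t ∈ S) : False := by
  obtain ⟨l, hl, hl2, hM⟩ := normal_form v a ha hv _ hadm
  -- choice of relations
  have hrel : ∀ J : Fin 4 → ι, ∃ μ : Fin 4 → ℝ, μ ≠ 0 ∧ ∀ m, ∑ i, μ i * n (J i) m = 0 :=
    fun J => exists_rel fun i => n (J i)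
  choose μ hμ0 hμ using hrel
  let C : (Fin 4 → ι) → Matrix (Fin 3) (Fin 3) ℝ := fun J =>
    Matrix.of fun p m => ∑ i, μ J i * l * (n (J i) p * sg i m)
  let κ : (Fin 4 → ι) → ℝ := fun J => ∑ i, μ J i * k (J i)
  have hcover : ⋃ J : Fin 4 → ι, {q : Fin 4 → ℝ | qf (C J) (κ J) q = 0} = Set.univ := by
    rw [Set.eq_univ_iff_forall]
    intro q
    by_cases hq : nq q = 0
    · have hq0 := nq_eq_zero hq
      obtain ⟨t, ht⟩ := hM 1 (by simp)
      choose J hJ using fun i => hS _ (ht i)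
      refine Set.mem_iUnion.mpr ⟨J, ?_⟩
      subst hq0
      simp [qf, nq]
    · obtain ⟨t, ht⟩ := hM _ (Mq_orth q hq)
      choose J hJ using fun i => hS _ (ht i)
      refine Set.mem_iUnion.mpr ⟨J, ?_⟩
      simp only [Set.mem_ofPred_eq]
      have e1 : ∀ i, l * (n (J i) ⬝ᵥ (Mq q *ᵥ sg i)) + nq q * (n (J i) ⬝ᵥ t) = nq q * k (J i) := by
        intro i
        have := hJ i
        rw [dotProduct_add, dotProduct_smul, Matrix.smul_mulVec, dotProduct_smul, smul_eq_mul,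
          smul_eq_mul] at this
        rw [← this]
        field_simp
      have e2 : ∑ i, μ J i * (l * (n (J i) ⬝ᵥ (Mq q *ᵥ sg i)))
          = nq q * ∑ i, μ J i * k (J i) := by
        have e3 : ∑ i, μ J i * (n (J i) ⬝ᵥ t) = 0 := by
          have h0 := hμ J 0
          have h1 := hμ J 1
          have h2 := hμ J 2
          simp only [dotProduct, Fin.sum_univ_four, Fin.sum_univ_three] at h0 h1 h2 ⊢
          linear_combination t 0 * h0 + t 1 * h1 + t 2 * h2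
        have e4 : ∑ i, μ J i * (l * (n (J i) ⬝ᵥ (Mq q *ᵥ sg i)) + nq q * (n (J i) ⬝ᵥ t))
            = ∑ i, μ J i * (nq q * k (J i)) :=
          Finset.sum_congr rfl fun i _ => by rw [e1 i]
        simp only [Fin.sum_univ_four] at e3 e4 ⊢
        linear_combination e4 - nq q * e3
      have e5 : ∑ i, μ J i * (l * (n (J i) ⬝ᵥ (Mq q *ᵥ sg i))) = qf (C J) 0 q := by
        simp only [qf, C, Matrix.of_apply, Fin.sum_univ_four, dotProduct, Matrix.mulVec,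
          Fin.sum_univ_three, Mq, Matrix.cons_val_zero, Matrix.cons_val_one, Matrix.cons_val]
        ring
      have e6 : qf (C J) (κ J) q = qf (C J) 0 q - κ J * nq q := by
        simp only [qf]; ring
      rw [e6, ← e5, e2]
      simp only [κ]
      ring
  obtain ⟨J, hJ⟩ := nonempty_interior_of_iUnion_of_closed (fun J => by
    apply isClosed_eq
    · unfold qf nq; fun_prop
    · exact continuous_const) hcover
  have hC := qf_zero _ _ hJ
  apply hμ0 J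
  have hc : ∀ p m, ∑ i, μ J i * n (J i) p * sg i m = 0 := by
    intro p m
    have h1 := congrFun (congrFun hC p) m
    simp only [C, Matrix.of_apply, Matrix.zero_apply] at h1
    have h2 : l * ∑ i, μ J i * n (J i) p * sg i m = 0 := by
      rw [← h1, Finset.mul_sum]
      exact Finset.sum_congr rfl fun i _ => by ring
    exact (mul_eq_zero.mp h2).resolve_left (ne_of_gt hl)
  have hz : ∀ i p, μ J i * n (J i) p = 0 := by
    intro i p
    have h0 := hc p 0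
    have h1 := hc p 1
    have h2 := hc p 2
    have h3 := hμ J p
    simp only [Fin.sum_univ_four, sg, Matrix.cons_val_zero, Matrix.cons_val_one,
      Matrix.cons_val] at h0 h1 h2 h3
    fin_cases i <;> simp only [Fin.zero_eta, Fin.mk_one, Fin.reduceFinMk, Fin.isValue]
    · linear_combination (1/4) * (h3 + h0 + h1 + h2)
    · linear_combination (1/4) * (h3 + h0 - h1 - h2)
    · linear_combination (1/4) * (h3 - h0 + h1 - h2)
    · linear_combination (1/4) * (h3 - h0 - h1 + h2)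
  funext i
  by_contra hne
  apply hn (J i)
  funext p
  exact (mul_eq_zero.mp (hz i p)).resolve_left hne

end Pool.Agent.Helper71.Tet
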